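import Mathlib
import Pool.Agent.Work.MP_787500_nt.LX.Defs

/-!
# RB/ExtDefs (fixed, do not change): coordinates for a finite extension `E'` of `E`
-/

set_option autoImplicit false
set_option linter.unusedSectionVars false

namespace Pool.Agent.Work.MP_787500_nt.RB

open Matrix Module

variable {E E' : Type*} [NormedField E] [NormedAlgebra ℚ_[2] E] [FiniteDimensional ℚ_[2] E]
  [NormedField E'] [NormedAlgebra ℚ_[2] E'] [FiniteDimensional ℚ_[2] E']

/-- `β` is a basis of `E'` over `ι E` -/
structure FinExt (ι : E →ₐ[ℚ_[2]] E') {d : ℕ} (β : Fin d → E') : Prop where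
  inj : ∀ a a' : Fin d → E, ∑ j, ι (a j) * β j = ∑ j, ι (a' j) * β j → a = a'
  split : ∀ z, ∃ a : Fin d → E, z = ∑ j, ι (a j) * β j

variable {ι : E →ₐ[ℚ_[2]] E'} {d : ℕ} {β : Fin d → E'}

/-- the coordinates -/
noncomputable def FinExt.co (h : FinExt ι β) (z : E') : Fin d → E := (h.split z).choose

theorem FinExt.co_spec (h : FinExt ι β) (z : E') : z = ∑ j, ι (h.co z j) * β j :=
  (h.split z).choose_spec

theorem FinExt.co_eq (h : FinExt ι β) {z : E'} {a : Fin d → E} (hz : z = ∑ j, ι (a j) * β j) :
    h.co z = a := h.inj _ _ ((h.co_spec z).symm.trans hz)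

theorem FinExt.co_add (h : FinExt ι β) (z w : E') (j : Fin d) :
    h.co (z + w) j = h.co z j + h.co w j := by
  have e : z + w = ∑ j, ι (h.co z j + h.co w j) * β j := by
    conv_lhs => rw [h.co_spec z, h.co_spec w]
    rw [← Finset.sum_add_distrib]
    exact Finset.sum_congr rfl fun j _ => by rw [map_add, add_mul]
  exact congrFun (h.co_eq e) j

theorem FinExt.co_smul (h : FinExt ι β) (x : E) (z : E') (j : Fin d) :
    h.co (ι x * z) j = x * h.co z j := by
  have e : ι x * z = ∑ j, ι (x * h.co z j) * β j := by
    conv_lhs => rw [h.co_spec z]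
    rw [Finset.mul_sum]
    exact Finset.sum_congr rfl fun j _ => by rw [map_mul, mul_assoc]
  exact congrFun (h.co_eq e) j

theorem FinExt.co_zero (h : FinExt ι β) (j : Fin d) : h.co 0 j = 0 :=
  congrFun (h.co_eq (a := 0) (by simp)) j

theorem FinExt.co_sum (h : FinExt ι β) {X : Type*} (s : Finset X) (f : X → E') (j : Fin d) :
    h.co (∑ x ∈ s, f x) j = ∑ x ∈ s, h.co (f x) j := by
  classical
  induction s using Finset.induction_on with
  | empty => simp [h.co_zero]
  | insert a s ha ih => rw [Finset.sum_insert ha, Finset.sum_insert ha, h.co_add, ih]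

theorem FinExt.co_mul (h : FinExt ι β) (c z : E') (j : Fin d) :
    h.co (c * z) j = ∑ i, h.co (c * β i) j * h.co z i := by
  have e : c * z = ∑ i, ι (h.co z i) * (c * β i) := by
    conv_lhs => rw [h.co_spec z]
    rw [Finset.mul_sum]
    exact Finset.sum_congr rfl fun i _ => by ring
  rw [e, h.co_sum]
  exact Finset.sum_congr rfl fun i _ => by rw [h.co_smul, mul_comm]

theorem FinExt.cont (h : FinExt ι β) (j : Fin d) : Continuous fun z => h.co z j := by
  let f : E' →ₗ[ℚ_[2]] E :=
    { toFun := fun z => h.co z j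
      map_add' := fun z w => h.co_add z w j
      map_smul' := fun x z => by
        have e : x • z = ι (algebraMap ℚ_[2] E x) * z := by
          rw [AlgHom.commutes, Algebra.smul_def]
        rw [e, h.co_smul, RingHom.id_apply, Algebra.smul_def] }
  exact f.continuous_of_finiteDimensional

/-- the scalar extension of a space of functions: all coordinates are in `W` -/
def FinExt.ext (h : FinExt ι β) {X : Type*} {n : ℕ} (W : Submodule E (X → Fin n → E)) :
    Submodule E' (X → Fin n → E') where
  carrier := {z | ∀ j, (fun t i => h.co (z t i) j) ∈ W}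
  add_mem' := fun {z w} hz hw j => by
    have e : (fun t i => h.co ((z + w) t i) j) =
        (fun t i => h.co (z t i) j) + fun t i => h.co (w t i) j := by
      funext t i
      exact h.co_add _ _ j
    rw [e]
    exact W.add_mem (hz j) (hw j)
  zero_mem' := fun j => by
    have e : (fun (t : X) (i : Fin n) => h.co ((0 : X → Fin n → E') t i) j) = 0 := by
      funext t i
      exact h.co_zero j
    rw [e]
    exact W.zero_mem
  smul_mem' := fun c z hz j => by
    have e : (fun t i => h.co ((c • z) t i) j) =
        ∑ i' : Fin d, h.co (c * β i') j • fun t i => h.co (z t i) i' := by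
      funext t i
      rw [Finset.sum_apply, Finset.sum_apply]
      exact h.co_mul c (z t i) j
    rw [e]
    exact W.sum_mem fun i' _ => W.smul_mem _ (hz i')

theorem FinExt.mem_ext {h : FinExt ι β} {X : Type*} {n : ℕ} {W : Submodule E (X → Fin n → E)}
    {z : X → Fin n → E'} : z ∈ h.ext W ↔ ∀ j, (fun t i => h.co (z t i) j) ∈ W := Iff.rfl

theorem exists_finExt (ι : E →ₐ[ℚ_[2]] E') : ∃ (d : ℕ) (β : Fin d → E'), FinExt ι β := by
  let _ : Algebra E E' := ι.toRingHom.toAlgebra
  have hst : IsScalarTower ℚ_[2] E E' := IsScalarTower.of_algebraMap_eq fun x => (ι.commutes x).symm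
  have hf : FiniteDimensional E E' := FiniteDimensional.right ℚ_[2] E E'
  let bs := Module.finBasis E E'
  have hs : ∀ (x : E) (z : E'), x • z = ι x * z := fun x z => rfl
  refine ⟨_, bs, fun a a' haa => ?_, fun z => ⟨fun j => bs.repr z j, ?_⟩⟩
  · have h1 : ∀ c : Fin (finrank E E') → E, bs.equivFun.symm c = ∑ j, ι (c j) * bs j := fun c => by
      rw [Basis.equivFun_symm_apply]
      exact Finset.sum_congr rfl fun j _ => hs _ _
    rw [← h1, ← h1] at haa
    exact bs.equivFun.symm.injective haa
  · exact (bs.sum_repr z).symm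

end Pool.Agent.Work.MP_787500_nt.RB
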