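import Mathlib
import Pool.Agent.Work.MP_787500_nt.RB.ExtDefs
import Pool.Agent.Work.MP_787500_nt.PA.ParityDefs

/-!
# RB/ExtDim (size M): dimensions of scalar extensions (general finite extension)

The model is LX/X4_Ext (for `E (√l)`): if `w_k` is a basis of `W` then `ι ∘ w_k` is a basis of `h.ext W` over `E'`
(independence: coordinates; generation: `z = ∑ j, β j • ι ∘ (coordinate j of z)`). `ext_iff`: for `x : Fin d → X → Fin n → E`,
`∑ j, ι (x j t i) * β j` has coordinates `x j` (`co_eq`). Alternatively `finrank E (h.ext W) = d * finrank E W`.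
`extV`: the same for subspaces of `E ^ n` (`X = Unit`, compare `IsExtW` / `fix_finrank` in QG/Ext).
-/

set_option autoImplicit false
set_option linter.unusedSectionVars false

namespace Pool.Agent.Work.MP_787500_nt.RB

open Matrix Module

variable {E E' : Type*} [NormedField E] [NormedAlgebra ℚ_[2] E] [FiniteDimensional ℚ_[2] E]
  [NormedField E'] [NormedAlgebra ℚ_[2] E'] [FiniteDimensional ℚ_[2] E'] {ι : E →ₐ[ℚ_[2]] E'}
  {d : ℕ} {β : Fin d → E'} {X : Type*} {n : ℕ}

theorem FinExt.ext_iff (h : FinExt ι β) (W : Submodule E (X → Fin n → E))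
    (x : Fin d → X → Fin n → E) :
    (fun t i => ∑ j, ι (x j t i) * β j) ∈ h.ext W ↔ ∀ j, x j ∈ W := by
  rw [FinExt.mem_ext]
  have e : ∀ t i, h.co (∑ j, ι (x j t i) * β j) = fun j => x j t i := fun t i => h.co_eq rfl
  refine forall_congr' fun j => ?_
  have e2 : (fun t i => h.co (∑ j, ι (x j t i) * β j) j) = x j := by
    funext t i
    rw [e]
  rw [e2]

theorem FinExt.ext_mono (h : FinExt ι β) {W W' : Submodule E (X → Fin n → E)} (hW : W ≤ W') :
    h.ext W ≤ h.ext W' := fun _ hz j => hW (hz j)

private theorem co_iota (h : FinExt ι β) (x : E) (j : Fin d) : h.co (ι x) j = x * h.co 1 j := by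
  have e := h.co_smul x 1 j
  rwa [mul_one] at e

/-- the embedding of `W` in its scalar extension -/
private noncomputable def emb (h : FinExt ι β) (W : Submodule E (X → Fin n → E)) (x : W) :
    h.ext W :=
  ⟨fun t i => ι ((x : X → Fin n → E) t i), fun j => by
    have e : (fun t i => h.co (ι ((x : X → Fin n → E) t i)) j) =
        h.co 1 j • (x : X → Fin n → E) := by
      funext t i
      rw [co_iota]
      exact mul_comm _ _
    rw [e]
    exact W.smul_mem _ x.2⟩

private theorem li (h : FinExt ι β) (W : Submodule E (X → Fin n → E))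
    {κ : Type*} (b : Module.Basis κ E W) : LinearIndependent E' fun k => emb h W (b k) := by
  classical
  rw [linearIndependent_iff']
  intro s g hg k hk
  have h1 : ∀ j, ∑ k ∈ s, h.co (g k) j • b k = 0 := by
    intro j
    apply Subtype.ext
    funext t i
    have h2 := congrArg (fun z : h.ext W => h.co ((z : X → Fin n → E') t i) j) hg
    simp only [Submodule.coe_sum, Submodule.coe_smul, Finset.sum_apply, Pi.smul_apply,
      smul_eq_mul, ZeroMemClass.coe_zero, Pi.zero_apply] at h2 ⊢
    rw [h.co_zero, h.co_sum] at h2
    rw [← h2]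
    refine Finset.sum_congr rfl fun k' _ => ?_
    show _ = h.co (g k' * ι ((b k' : X → Fin n → E) t i)) j
    rw [mul_comm (g k'), h.co_smul, mul_comm]
  rw [h.co_spec (g k)]
  refine Finset.sum_eq_zero fun j _ => ?_
  rw [linearIndependent_iff'.mp b.linearIndependent s _ (h1 j) k hk, map_zero, zero_mul]

private theorem span_top (h : FinExt ι β) (W : Submodule E (X → Fin n → E))
    {κ : Type*} (b : Module.Basis κ E W) :
    ⊤ ≤ Submodule.span E' (Set.range fun k => emb h W (b k)) := by
  have key : ∀ x : W, emb h W x ∈ Submodule.span E' (Set.range fun k => emb h W (b k)) := by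
    intro x
    have hx : x ∈ Submodule.span E (Set.range b) := by
      rw [b.span_eq]
      trivial
    induction hx using Submodule.span_induction with
    | mem x hx =>
      obtain ⟨k, rfl⟩ := hx
      exact Submodule.subset_span ⟨k, rfl⟩
    | zero =>
      have : emb h W 0 = 0 := by
        apply Subtype.ext
        funext t i
        show ι ((0 : X → Fin n → E) t i) = 0
        simp
      rw [this]
      exact Submodule.zero_mem _
    | add x y _ _ hx hy =>
      have : emb h W (x + y) = emb h W x + emb h W y := by
        apply Subtype.ext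
        funext t i
        show ι (((x : X → Fin n → E) + y) t i) =
          ι ((x : X → Fin n → E) t i) + ι ((y : X → Fin n → E) t i)
        simp
      rw [this]
      exact Submodule.add_mem _ hx hy
    | smul a x _ hx =>
      have : emb h W (a • x) = (ι a) • emb h W x := by
        apply Subtype.ext
        funext t i
        show ι ((a • (x : X → Fin n → E)) t i) = ι a * ι ((x : X → Fin n → E) t i)
        simp
      rw [this]
      exact Submodule.smul_mem _ _ hx
  rintro ⟨z, hz⟩ -
  have : (⟨z, hz⟩ : h.ext W) = ∑ j, β j • emb h W ⟨fun t i => h.co (z t i) j, hz j⟩ := by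
    apply Subtype.ext
    funext t i
    rw [Submodule.coe_sum, Finset.sum_apply, Finset.sum_apply]
    conv_lhs => rw [show (⟨z, hz⟩ : h.ext W).1 t i = z t i from rfl, h.co_spec (z t i)]
    exact Finset.sum_congr rfl fun j _ => mul_comm _ _
  rw [this]
  exact Submodule.sum_mem _ fun j _ => Submodule.smul_mem _ _ (key _)

private noncomputable def bas (h : FinExt ι β)
    (W : Submodule E (X → Fin n → E)) {κ : Type*} (b : Module.Basis κ E W) :
    Module.Basis κ E' (h.ext W) :=
  Module.Basis.mk (li h W b) (span_top h W b)

theorem FinExt.ext_fin (h : FinExt ι β) (W : Submodule E (X → Fin n → E)) :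
    FiniteDimensional E' (h.ext W) ↔ FiniteDimensional E W := by
  let b := Module.Basis.ofVectorSpace E W
  constructor
  · intro hf
    have : Finite (Module.Basis.ofVectorSpaceIndex E W) :=
      Module.Finite.finite_basis (bas h W b)
    exact Module.Finite.of_basis b
  · intro hf
    have : Finite (Module.Basis.ofVectorSpaceIndex E W) := Module.Finite.finite_basis b
    exact Module.Finite.of_basis (bas h W b)

theorem FinExt.ext_finrank (h : FinExt ι β) (W : Submodule E (X → Fin n → E)) :
    finrank E' (h.ext W) = finrank E W := by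
  let b := Module.Basis.ofVectorSpace E W
  rw [Module.finrank_eq_nat_card_basis b, Module.finrank_eq_nat_card_basis (bas h W b)]

theorem FinExt.ext_dim (h : FinExt ι β) {B W : Submodule E (X → Fin n → E)} (hBW : B ≤ W)
    [FiniteDimensional E W] :
    Parity.dimModulo (h.ext W) (h.ext B) = Parity.dimModulo W B := by
  have : FiniteDimensional E' (h.ext W) := (h.ext_fin W).mpr inferInstance
  have h1 : Module.finrank E (B.submoduleOf W) = Module.finrank E B :=
    (Submodule.submoduleOfEquivOfLe hBW).finrank_eq
  have h2 : Module.finrank E' ((h.ext B).submoduleOf (h.ext W)) = Module.finrank E' (h.ext B) :=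
    (Submodule.submoduleOfEquivOfLe (h.ext_mono hBW)).finrank_eq
  have h3 := Submodule.finrank_quotient_add_finrank (B.submoduleOf W)
  have h4 := Submodule.finrank_quotient_add_finrank ((h.ext B).submoduleOf (h.ext W))
  have h5 := h.ext_finrank W
  have h6 := h.ext_finrank B
  unfold Parity.dimModulo
  omega

/-- subspaces of `E ^ n`: if membership in `W'` is membership of all coordinates in `W`, the dimensions agree -/
theorem FinExt.finrank_vec (h : FinExt ι β) {W : Submodule E (Fin n → E)}
    {W' : Submodule E' (Fin n → E')}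
    (hW : ∀ z : Fin n → E', z ∈ W' ↔ ∀ j, (fun i => h.co (z i) j) ∈ W) :
    finrank E' W' = finrank E W := by
  let e : (Unit → Fin n → E) ≃ₗ[E] (Fin n → E) := LinearEquiv.funUnique Unit E (Fin n → E)
  let e' : (Unit → Fin n → E') ≃ₗ[E'] (Fin n → E') := LinearEquiv.funUnique Unit E' (Fin n → E')
  let W₁ : Submodule E (Unit → Fin n → E) := W.map e.symm.toLinearMap
  have hmem : ∀ x : Unit → Fin n → E, x ∈ W₁ ↔ (fun i => x () i) ∈ W := by
    intro x
    constructor
    · rintro ⟨w, hw, rfl⟩
      exact hw
    · intro hx
      exact ⟨fun i => x () i, hx, by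
        funext t i
        rfl⟩
  have h1 : W'.map e'.symm.toLinearMap = h.ext W₁ := by
    ext z
    rw [FinExt.mem_ext]
    constructor
    · rintro ⟨w, hw, rfl⟩ j
      rw [hmem]
      exact (hW w).1 hw j
    · intro hz
      refine ⟨fun i => z () i, (hW _).2 fun j => ?_, ?_⟩
      · exact (hmem _).1 (hz j)
      · funext t i
        rfl
  have h2 : finrank E' (W'.map e'.symm.toLinearMap) = finrank E' W' :=
    LinearEquiv.finrank_map_eq e'.symm W'
  have h3 : finrank E W₁ = finrank E W := LinearEquiv.finrank_map_eq e.symm W
  rw [← h2, h1, h.ext_finrank, h3]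

end Pool.Agent.Work.MP_787500_nt.RB
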