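import Mathlib
import Pool.Agent.Work.MP_787500_nt.LX.Defs

/-!
# Block RB (definitions, fixed, do not change): residually self-dual representations

Everything is elementary: representations of an abstract group `G` with an involution `κ`.
-/

set_option autoImplicit false
set_option linter.unusedSectionVars false

namespace Pool.Agent.Work.MP_787500_nt.RB

open Matrix

section rep

variable {G : Type*} [Group G] {k : Type*} [Field k] {V V' : Type*} [AddCommGroup V] [Module k V]
  [AddCommGroup V'] [Module k V']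

/-- `W` is stable under the group -/
def Stab (ρ : Representation k G V) (W : Submodule k V) : Prop := ∀ g, ∀ x ∈ W, ρ g x ∈ W

/-- the restriction of a representation to a stable subspace -/
def sub (ρ : Representation k G V) (W : Submodule k V) (hW : Stab ρ W) : Representation k G W where
  toFun g := (ρ g).restrict (hW g)
  map_one' := by
    ext x
    simp
  map_mul' g h := by
    ext x
    simp

theorem sub_apply (ρ : Representation k G V) (W : Submodule k V) (hW : Stab ρ W) (g : G) (x : W) :
    (sub ρ W hW g x : V) = ρ g x := rfl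

/-- equivalent representations -/
def Eqv (ρ : Representation k G V) (ρ' : Representation k G V') : Prop :=
  ∃ φ : V ≃ₗ[k] V', ∀ g x, φ (ρ g x) = ρ' g (φ x)

/-- irreducible representations -/
def Irr (ρ : Representation k G V) : Prop :=
  (∃ x : V, x ≠ 0) ∧ ∀ W : Submodule k V, Stab ρ W → W = ⊥ ∨ W = ⊤

/-- semisimple representations -/
def Ss (ρ : Representation k G V) : Prop :=
  ∀ W : Submodule k V, Stab ρ W → ∃ W' : Submodule k V, Stab ρ W' ∧ IsCompl W W'

/-- `W` is an irreducible subrepresentation -/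
def IrrS (ρ : Representation k G V) (W : Submodule k V) : Prop :=
  Stab ρ W ∧ W ≠ ⊥ ∧ ∀ W' : Submodule k V, Stab ρ W' → W' ≤ W → W' = ⊥ ∨ W' = W

/-- the group acts trivially -/
def TrivA (ρ : Representation k G V) : Prop := ∀ g x, ρ g x = x

/-- `B` is a symmetric nondegenerate form with `B (ρ g x) (ρ (κ g) y) = B x y` -/
structure TwForm (κ : G →* G) (ρ : Representation k G V) (B : LinearMap.BilinForm k V) : Prop where
  symm : ∀ x y, B x y = B y x
  nondeg : ∀ x, (∀ y, B x y = 0) → x = 0
  dual : ∀ g x y, B (ρ g x) (ρ (κ g) y) = B x y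

/-- THE RESULT OF THE RESIDUAL PART: in a basis `e` with weights `a` the representation preserves the weights, `B` vanishes
where the sum of the weights is negative, the part `B'` of `B` of weight 0 is nondegenerate and there is an involution `C` with
`C (ρ (κ g) x) = ρ g (C x)` and `B' x (C x) = 0`. -/
def HasData (κ : G →* G) (ρ : Representation k G V) (B : LinearMap.BilinForm k V) : Prop :=
  ∃ (ι : Type) (_ : Fintype ι) (e : Module.Basis ι k V) (a : ι → ℤ) (B' : LinearMap.BilinForm k V)
    (C : V →ₗ[k] V),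
    (∀ g i j, a i ≠ a j → e.repr (ρ g (e j)) i = 0) ∧
    (∀ i j, a i + a j < 0 → B (e i) (e j) = 0) ∧
    (∀ i j, B' (e i) (e j) = if a i + a j = 0 then B (e i) (e j) else 0) ∧
    (∀ x, (∀ y, B' x y = 0) → x = 0) ∧
    (∀ x, C (C x) = x) ∧ (∀ g x, C (ρ (κ g) x) = ρ g (C x)) ∧ ∀ x, B' x (C x) = 0

/-- the representation on `k ^ n` given by matrices -/
def toRep {n : ℕ} (R : G →* Matrix (Fin n) (Fin n) k) : Representation k G (Fin n → k) where
  toFun g := (R g).mulVecLin
  map_one' := by
    ext x
    simp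
  map_mul' g h := by
    ext x
    simp

theorem toRep_apply {n : ℕ} (R : G →* Matrix (Fin n) (Fin n) k) (g : G) (x : Fin n → k) :
    toRep R g x = R g *ᵥ x := rfl

end rep

section mat

variable {k : Type*} [Zero k] {n : ℕ}

/-- the part of weight 0 of the matrix of a linear map -/
def grM (a : Fin n → ℤ) (M : Matrix (Fin n) (Fin n) k) : Matrix (Fin n) (Fin n) k :=
  fun i j => if a i = a j then M i j else 0

/-- the part of weight 0 of the matrix of a bilinear form -/
def grB (a : Fin n → ℤ) (M : Matrix (Fin n) (Fin n) k) : Matrix (Fin n) (Fin n) k :=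
  fun i j => if a i + a j = 0 then M i j else 0

end mat

section lat

variable {Ω : Type*} [NormedField Ω] {k : Type*} [Field k] {G : Type*} {n : ℕ}

/-- `rd` is the reduction modulo the maximal ideal of the elements of norm at most 1 -/
structure Red (rd : Ω → k) : Prop where
  add : ∀ x y, ‖x‖ ≤ 1 → ‖y‖ ≤ 1 → rd (x + y) = rd x + rd y
  mul : ∀ x y, ‖x‖ ≤ 1 → ‖y‖ ≤ 1 → rd (x * y) = rd x * rd y
  one : rd 1 = 1
  zero : ∀ x, ‖x‖ ≤ 1 → (rd x = 0 ↔ ‖x‖ < 1)
  surj : ∀ a, ∃ x, ‖x‖ ≤ 1 ∧ rd x = a

/-- The columns of `A` (`A'` is the inverse matrix) are a basis in which the `ρ g` are integral and `b` has integral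
coefficients and a unit as determinant. -/
structure Good (ρ : G → Matrix (Fin n) (Fin n) Ω) (b A A' : Matrix (Fin n) (Fin n) Ω) : Prop where
  inv : A * A' = 1
  inv' : A' * A = 1
  st : ∀ g i j, ‖(A' * ρ g * A) i j‖ ≤ 1
  un : ∀ i j, ‖(Aᵀ * b * A) i j‖ ≤ 1
  det : ‖(Aᵀ * b * A).det‖ = 1

/-- The matrix `C` in a good basis: `C C = 1` and `C ρ (κ g) = ρ g C` modulo the maximal ideal, and `b (x, C y)` is
alternating. -/
structure GoodC (κ : G → G) (ρ : G → Matrix (Fin n) (Fin n) Ω) (b A A' C : Matrix (Fin n) (Fin n) Ω) :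
    Prop where
  good : Good ρ b A A'
  int : ∀ i j, ‖C i j‖ ≤ 1
  sq : ∀ i j, ‖(C * C - 1) i j‖ < 1
  com : ∀ g i j, ‖(C * (A' * ρ (κ g) * A) - (A' * ρ g * A) * C) i j‖ < 1
  alt : (Aᵀ * b * A * C)ᵀ = -(Aᵀ * b * A * C)

/-- all elements of norm less than 1 of the values `ρ g i j`, combined with finitely many elements, have norm at most
`r < 1` -/
def Disc (ρ : G → Matrix (Fin n) (Fin n) Ω) : Prop :=
  ∀ s : Finset Ω, ∃ r : ℝ, 0 < r ∧ r < 1 ∧
    ∀ x ∈ Subring.closure ({y | ∃ g i j, y = ρ g i j} ∪ (s : Set Ω)), ‖x‖ < 1 → ‖x‖ ≤ r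

end lat

end Pool.Agent.Work.MP_787500_nt.RB
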