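import Mathlib
import Pool.Agent.Work.MP_787500_nt.RB.Defs
import Pool.Agent.Work.MP_787500_nt.Gn.SmallRho

/-!
# RB/Res (fixed): the reduction of integral matrices
-/

set_option autoImplicit false
set_option linter.unusedSectionVars false

namespace Pool.Agent.Work.MP_787500_nt.RB

open Matrix

variable {Ω : Type*} [NormedField Ω] [NormedAlgebra ℚ_[2] Ω] {k : Type*} [Field k] {rd : Ω → k}

/-- integral matrices -/
def Int {m n : Type*} (M : Matrix m n Ω) : Prop := ∀ i j, ‖M i j‖ ≤ 1

theorem norm_sum_le {ι : Type*} (s : Finset ι) (f : ι → Ω) (h : ∀ i ∈ s, ‖f i‖ ≤ 1) :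
    ‖∑ i ∈ s, f i‖ ≤ 1 := by
  classical
  have hu := Gn.ultra 2 Ω
  induction s using Finset.induction_on with
  | empty => simp
  | insert a s ha ih =>
    rw [Finset.sum_insert ha]
    exact (IsUltrametricDist.norm_add_le_max _ _).trans
      (max_le (h a (Finset.mem_insert_self a s)) (ih fun i hi => h i (Finset.mem_insert_of_mem hi)))

theorem Red.map_zero (hr : Red rd) : rd 0 = 0 := (hr.zero 0 (by simp)).2 (by simp)

theorem Red.map_sum (hr : Red rd) {ι : Type*} (s : Finset ι) (f : ι → Ω) (h : ∀ i ∈ s, ‖f i‖ ≤ 1) :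
    rd (∑ i ∈ s, f i) = ∑ i ∈ s, rd (f i) := by
  classical
  induction s using Finset.induction_on with
  | empty => simp [hr.map_zero]
  | insert a s ha ih =>
    rw [Finset.sum_insert ha, Finset.sum_insert ha,
      hr.add _ _ (h a (Finset.mem_insert_self a s))
        (norm_sum_le s f fun i hi => h i (Finset.mem_insert_of_mem hi)),
      ih fun i hi => h i (Finset.mem_insert_of_mem hi)]

theorem int_mul {l m n : Type*} [Fintype m] {M : Matrix l m Ω} {N : Matrix m n Ω} (hM : Int M)
    (hN : Int N) : Int (M * N) := fun i j => norm_sum_le _ _ fun a _ => by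
  rw [norm_mul]
  exact mul_le_one₀ (hM i a) (norm_nonneg _) (hN a j)

theorem int_one {n : Type*} [DecidableEq n] : Int (1 : Matrix n n Ω) := fun i j => by
  rw [Matrix.one_apply]
  split_ifs <;> simp

theorem Int.transpose {m n : Type*} {M : Matrix m n Ω} (hM : Int M) : Int Mᵀ := fun i j => hM j i

theorem red_mul (hr : Red rd) {l m n : Type*} [Fintype m] {M : Matrix l m Ω} {N : Matrix m n Ω}
    (hM : Int M) (hN : Int N) : (M * N).map rd = M.map rd * N.map rd := by
  ext i j
  rw [Matrix.map_apply, Matrix.mul_apply, Matrix.mul_apply, hr.map_sum _ _ fun a _ => by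
    rw [norm_mul]
    exact mul_le_one₀ (hM i a) (norm_nonneg _) (hN a j)]
  exact Finset.sum_congr rfl fun a _ => hr.mul _ _ (hM i a) (hN a j)

theorem red_one (hr : Red rd) {n : Type*} [DecidableEq n] : (1 : Matrix n n Ω).map rd = 1 :=
  Matrix.map_one _ hr.map_zero hr.one

variable {G : Type*} [Group G] {n : ℕ} {ρ : G →* Matrix (Fin n) (Fin n) Ω}
  {b A A' : Matrix (Fin n) (Fin n) Ω}

/-- the residual representation in a good basis -/
noncomputable def resR (hr : Red rd) (h : Good (fun g => ρ g) b A A') :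
    G →* Matrix (Fin n) (Fin n) k where
  toFun g := (A' * ρ g * A).map rd
  map_one' := by rw [map_one, mul_one, h.inv', red_one hr]
  map_mul' g g' := by
    have h1 : A' * ρ (g * g') * A = A' * ρ g * A * (A' * ρ g' * A) := by
      rw [map_mul]
      calc A' * (ρ g * ρ g') * A = A' * ρ g * 1 * ρ g' * A := by noncomm_ring
        _ = A' * ρ g * (A * A') * ρ g' * A := by rw [h.inv]
        _ = _ := by noncomm_ring
    rw [h1, red_mul hr (h.st g) (h.st g')]

theorem resR_apply (hr : Red rd) (h : Good (fun g => ρ g) b A A') (g : G) :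
    resR hr h g = (A' * ρ g * A).map rd := rfl

end Pool.Agent.Work.MP_787500_nt.RB
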