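import Mathlib
import Pool.Agent.Work.MP_787500_nt.RB.ExtDefs
import Pool.Agent.Work.MP_787500_nt.RB.ExtDim
import Pool.Agent.Work.MP_787500_nt.ER.ExtQ
import Pool.Agent.Work.MP_787500_nt.QG.Ext

/-!
# RB/ExtLoc (size S-M): the local numbers and conditions do not change under a finite extension

`commOn`: `QG.commOn_ext ι` holds for every `ι`. `semi`: `ER.semi_ext ι` too. `condExp`, `quotDim`: `fixedBy (fun σ => (A σ).map ι)` has the
dimension of `fixedBy A` (`exists_finExt ι`, `FinExt.finrank_vec`: `co_sum`, `co_smul`), and `fixedModulo .. (fixedBy ..)` is a `fixedBy`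
(`ER.fixedModulo_eq`); compare `ER.quotDim_ext`, `QG.condExp_ext`. `detF`: `b.map ι` has determinant `ι (det b)`.
`dualF`: transport of `IsDualRep` (continuity: `ι` is continuous, finite dimension; `toE`: `LX.map_toE`). `sdF`: the characteristic
polynomial of `(ρ g).map ι` is the image (`Matrix.charpoly_map`), `ι` preserves the norm (`RB.norm_map_eq` of RB/Om, or prove it again).
-/

set_option autoImplicit false
set_option linter.unusedSectionVars false

namespace Pool.Agent.Work.MP_787500_nt.RB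

open Matrix Module
open Pool.Agent.Work.MP_787500_nt.PA (toE)
open Pool.Agent.Work.MP_787500_nt.LX (mapRep mapRep_apply map_toE)

variable {E E' : Type*} [NormedField E] [NormedAlgebra ℚ_[2] E] [FiniteDimensional ℚ_[2] E]
  [NormedField E'] [NormedAlgebra ℚ_[2] E'] [FiniteDimensional ℚ_[2] E'] {n : ℕ} {G : Type*}
  [Group G] [TopologicalSpace G]

private theorem fix_fin (ι : E →ₐ[ℚ_[2]] E') {X : Type*} (A : X → Matrix (Fin n) (Fin n) E) :
    finrank E' (Parity.fixedBy fun t => (A t).map ι) = finrank E (Parity.fixedBy A) := by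
  obtain ⟨d, β, h⟩ := exists_finExt ι
  refine h.finrank_vec fun z => ?_
  have key : ∀ t i j, h.co (((A t).map ι *ᵥ z) i) j = (A t *ᵥ fun i => h.co (z i) j) i := by
    intro t i j
    simp only [mulVec, dotProduct, Matrix.map_apply]
    rw [h.co_sum]
    exact Finset.sum_congr rfl fun k _ => h.co_smul _ _ _
  constructor
  · intro hz j t
    funext i
    rw [← key]
    have h1 : (A t).map ι *ᵥ z = z := hz t
    rw [h1]
  · intro hz t
    show (A t).map ι *ᵥ z = z
    funext i
    rw [h.co_spec (((A t).map ι *ᵥ z) i)]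
    conv_rhs => rw [h.co_spec (z i)]
    refine Finset.sum_congr rfl fun j _ => ?_
    rw [key]
    have h1 : (A t *ᵥ fun i => h.co (z i) j) = fun i => h.co (z i) j := hz j t
    rw [h1]

open scoped Classical in
theorem condExp_fin (ι : E →ₐ[ℚ_[2]] E') {I : Subgroup G} {ρ : G →* Matrix (Fin n) (Fin n) E} :
    Parity.condExp I (mapRep ι ρ) = Parity.condExp I ρ := by
  have h1 : finrank E' (Parity.fixedBy fun σ : I => mapRep ι ρ σ) =
      finrank E (Parity.fixedBy fun σ : I => ρ σ) := fix_fin ι fun σ : I => ρ σ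
  unfold Parity.condExp
  rw [h1]
  congr 1
  exact if_congr (QG.commOn_ext ι) rfl rfl

theorem quotDim_fin (ι : E →ₐ[ℚ_[2]] E') {D I : Subgroup G}
    {ρ : G →* Matrix (Fin n) (Fin n) E} :
    Parity.quotDim D I (mapRep ι ρ) = Parity.quotDim D I ρ := by
  have e1 : finrank E' (Parity.fixedBy (fun σ : I => mapRep ι ρ σ)) =
      finrank E (Parity.fixedBy (fun σ : I => ρ σ)) := fix_fin ι fun σ : I => ρ σ
  have e3 : (fun x : I × D => (mapRep ι ρ x.1 - 1) * (mapRep ι ρ x.2 - 1) + 1) =
      fun x : I × D => ((ρ x.1 - 1) * (ρ x.2 - 1) + 1).map ι := by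
    funext x
    rw [mapRep_apply, mapRep_apply, Matrix.map_add _ (map_add ι), Matrix.map_mul,
      Matrix.map_sub _ (map_sub ι), Matrix.map_sub _ (map_sub ι),
      Matrix.map_one _ (map_zero _) (map_one _)]
  unfold Parity.quotDim
  rw [e1, ER.fixedModulo_eq, ER.fixedModulo_eq, e3, fix_fin ι]

theorem det_fin (ι : E →ₐ[ℚ_[2]] E') {b : Matrix (Fin n) (Fin n) E} (hb : b.det ≠ 0) :
    (b.map ι).det ≠ 0 := by
  have h1 : (b.map ι).det = ι b.det := ((ι : E →+* E').map_det b).symm
  rw [h1]
  intro h2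
  exact hb ((map_eq_zero (ι : E →+* E')).1 h2)

theorem isDualRep_fin (ι : E →ₐ[ℚ_[2]] E') {I : Set G} {χ : G → ℤ_[2]} {κ : G → G}
    {ρ : G →* Matrix (Fin n) (Fin n) E} {b : Matrix (Fin n) (Fin n) E}
    (h : Parity.IsDualRep I (fun g => toE E (χ g)) κ ρ b) :
    Parity.IsDualRep I (fun g => toE E' (χ g)) κ (mapRep ι ρ) (b.map ι) := by
  have hι : Continuous ι := ι.toLinearMap.continuous_of_finiteDimensional
  refine ⟨?_, fun σ hσ => ?_, ?_, fun σ => ?_⟩
  · show Continuous fun g => (ρ g).map ι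
    exact h.cont.matrix_map hι
  · rw [mapRep_apply, h.unram σ hσ, Matrix.map_one _ (map_zero _) (map_one _)]
  · rw [← Matrix.transpose_map, h.symm]
  · rw [mapRep_apply, mapRep_apply, ← Matrix.transpose_map, ← Matrix.map_mul, ← Matrix.map_mul,
      h.dual σ]
    ext i j
    simp only [Matrix.map_apply, Matrix.smul_apply, smul_eq_mul, map_mul]
    rw [map_toE]

end Pool.Agent.Work.MP_787500_nt.RB
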