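import Mathlib
import Pool.Agent.Work.MP_787500_nt.RB.ExtDefs
import Pool.Agent.Work.MP_787500_nt.RB.ExtDim
import Pool.Agent.Work.MP_787500_nt.QG.Ext

/-!
# RB/ExtPar (size M): descent of the parity statement from a finite extension

The model is `QG.parityBKA_ext` (QG/Ext.lean, for `E (√l)`, pairs of coordinates); here the coordinates are `h.co _ j`, `j : Fin d`
(`exists_finExt ι`). `L' = h.ext L`. For `z : G → Fin n → E'` with coordinates `z_j` (`z_j t i = h.co (z t i) j`):
* coboundaries, cocycles: `z` is a coboundary (cocycle) for `(A t).map ι` iff all `z_j` are, for `A t` (`co_smul`, `co_sum`; continuity: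
  `FinExt.cont`, and `z = ∑ ι z_j β_j`).
* orthogonality: `z` is orthogonal to `h.ext L` for `b.map ι` iff every `z_j` is orthogonal to `L`: (→) test with `ι ∘ v`, `v ∈ L` (its
  coordinates: `1 = ∑ ι (c_j) β_j`, so `ι v = ∑ ι (c_j v) β_j`), and take the coordinate `j` of the equation; (←) expand `v' = ∑ β_j v_j` and
  `z = ∑ β_k z_k`.
* so `selmerBK` over `E'` for `h.ext L` is `h.ext` of `selmerBK` over `E` for `L`; `fixedBy` similarly (`finrank_vec`); dimensions by RB/ExtDim.
-/

set_option autoImplicit false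
set_option linter.unusedSectionVars false

namespace Pool.Agent.Work.MP_787500_nt.RB

open Matrix Module
open Pool.Agent.Work.MP_787500_nt.PA (toE)
open Pool.Agent.Work.MP_787500_nt.LX (mapRep mapRep_apply map_toE)

variable {E E' : Type*} [NormedField E] [NormedAlgebra ℚ_[2] E] [FiniteDimensional ℚ_[2] E]
  [NormedField E'] [NormedAlgebra ℚ_[2] E'] [FiniteDimensional ℚ_[2] E'] {n : ℕ} {G : Type*}
  [Group G] [TopologicalSpace G]

section coords

variable {ι : E →ₐ[ℚ_[2]] E'} {d : ℕ} {β : Fin d → E'}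

private theorem co_sub' (h : FinExt ι β) (z w : E') (j : Fin d) :
    h.co (z - w) j = h.co z j - h.co w j := by
  have := h.co_add (z - w) w j
  rw [sub_add_cancel] at this
  rw [this, add_sub_cancel_right]

private theorem co_inj' (h : FinExt ι β) {z w : E'} (e : ∀ j, h.co z j = h.co w j) : z = w := by
  rw [h.co_spec z, h.co_spec w]
  exact Finset.sum_congr rfl fun j _ => by rw [e j]

private theorem co_cmb (h : FinExt ι β) (a : Fin d → E) (j : Fin d) :
    h.co (∑ j, ι (a j) * β j) j = a j := congrFun (h.co_eq rfl) j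

private theorem co_mulVec (h : FinExt ι β) (A : Matrix (Fin n) (Fin n) E) (v : Fin n → E')
    (i : Fin n) (j : Fin d) :
    h.co ((A.map ι *ᵥ v) i) j = (A *ᵥ fun i => h.co (v i) j) i := by
  simp only [mulVec, dotProduct, Matrix.map_apply]
  rw [h.co_sum]
  exact Finset.sum_congr rfl fun k _ => by rw [h.co_smul]

private theorem co_dot (h : FinExt ι β) (x : Fin n → E) (v : Fin n → E') (j : Fin d) :
    h.co ((fun i => ι (x i)) ⬝ᵥ v) j = x ⬝ᵥ fun i => h.co (v i) j := by
  simp only [dotProduct]
  rw [h.co_sum]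
  exact Finset.sum_congr rfl fun k _ => by rw [h.co_smul]

private theorem cob_iff (h : FinExt ι β) {X : Type*} (A : X → Matrix (Fin n) (Fin n) E)
    (z : X → Fin n → E') :
    z ∈ Parity.coboundaries (fun t => (A t).map ι) ↔
      ∀ j, (fun t i => h.co (z t i) j) ∈ Parity.coboundaries A := by
  constructor
  · rintro ⟨v, hv⟩ j
    refine ⟨fun i => h.co (v i) j, fun t => ?_⟩
    funext i
    rw [Pi.sub_apply, ← co_mulVec, ← co_sub']
    exact congrArg (fun w => h.co w j) (congrFun (hv t) i)
  · intro hz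
    choose v hv using hz
    refine ⟨fun i => ∑ j, ι (v j i) * β j, fun t => ?_⟩
    funext i
    refine co_inj' h fun j => ?_
    rw [Pi.sub_apply, co_sub', co_mulVec, co_cmb]
    have e : (fun i => h.co (∑ j, ι (v j i) * β j) j) = v j := funext fun i => co_cmb h _ j
    rw [e]
    exact congrFun (hv j t) i

private theorem contι (ι : E →ₐ[ℚ_[2]] E') : Continuous ι :=
  (ι.toLinearMap).continuous_of_finiteDimensional

private theorem cont_iff (h : FinExt ι β) {X : Type*} [TopologicalSpace X] (z : X → Fin n → E') :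
    Continuous z ↔ ∀ j, Continuous fun t i => h.co (z t i) j := by
  constructor
  · intro hz j
    exact continuous_pi fun i => (h.cont j).comp ((continuous_apply i).comp hz)
  · intro hz
    refine continuous_pi fun i => ?_
    have e : (fun t => z t i) = fun t => ∑ j, ι (h.co (z t i) j) * β j :=
      funext fun t => h.co_spec _
    rw [e]
    exact continuous_finsetSum _ fun j _ =>
      ((contι ι).comp ((continuous_apply i).comp (hz j))).mul continuous_const

private theorem coc_iff (h : FinExt ι β) {X : Type*} [Group X] [TopologicalSpace X]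
    (A : X → Matrix (Fin n) (Fin n) E) (z : X → Fin n → E') :
    Parity.IsCocycle (fun t => (A t).map ι) z ↔
      ∀ j, Parity.IsCocycle A (fun t i => h.co (z t i) j) := by
  constructor
  · rintro ⟨hc, hz⟩ j
    refine ⟨(cont_iff h z).1 hc j, fun s t => ?_⟩
    funext i
    rw [Pi.add_apply, ← co_mulVec, ← h.co_add]
    exact congrArg (fun w => h.co w j) (congrFun (hz s t) i)
  · intro hz
    refine ⟨(cont_iff h z).2 fun j => (hz j).1, fun s t => ?_⟩
    funext i
    refine co_inj' h fun j => ?_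
    rw [Pi.add_apply, h.co_add, co_mulVec]
    exact congrFun ((hz j).2 s t) i

private theorem perp_iff (h : FinExt ι β) {X : Type*} [Group X] [TopologicalSpace X]
    {χ : X → ℤ_[2]} (B : X → Matrix (Fin n) (Fin n) E) (b : Matrix (Fin n) (Fin n) E)
    (L : Submodule E (X → Fin n → E)) (z : X → Fin n → E') :
    Parity.IsPerp (fun t => toE E' (χ t)) (fun t => (B t).map ι) (b.map ι) (h.ext L) z ↔
      ∀ j, Parity.IsPerp (fun t => toE E (χ t)) B b L (fun t i => h.co (z t i) j) := by
  constructor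
  · rintro ⟨hc, hz⟩ j
    refine ⟨(coc_iff h B z).1 hc j, fun v hv => ?_⟩
    obtain ⟨y, hy, hy'⟩ := hz (fun t i => ι (v t i)) (by
      intro k
      have e : (fun (t : X) (i : Fin n) => h.co (ι (v t i)) k) = h.co 1 k • v := by
        funext t i
        have := h.co_smul (v t i) 1 k
        rw [mul_one] at this
        rw [this, mul_comm]
        rfl
      rw [e]
      exact L.smul_mem _ hv)
    refine ⟨fun t => h.co (y t) j, (h.cont j).comp hy, fun s t => ?_⟩
    have e := congrArg (fun w => h.co w j) (hy' s t)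
    simp only at e
    rw [co_dot, co_sub', h.co_add, ← map_toE ι, h.co_smul] at e
    rw [← e]
    congr 1
    funext i
    rw [co_mulVec]
    congr 1
    funext i
    rw [co_mulVec]
  · intro hz
    refine ⟨(coc_iff h B z).2 fun j => (hz j).1, fun v hv => ?_⟩
    have h1 : ∀ k j, ∃ y : X → E, Continuous y ∧ ∀ s t, (fun i => h.co (v s i) k) ⬝ᵥ
        (b *ᵥ (B s *ᵥ fun i => h.co (z t i) j)) = y s + toE E (χ s) * y t - y (s * t) :=
      fun k j => (hz j).2 _ (hv k)
    choose y hy hy' using h1
    refine ⟨fun t => ∑ k, ∑ j, ι (y k j t) * (β k * β j), ?_, fun s t => ?_⟩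
    · exact continuous_finsetSum _ fun k _ => continuous_finsetSum _ fun j _ =>
        ((contι ι).comp (hy k j)).mul continuous_const
    · have e1 : ∀ i, v s i = ∑ k, ι (h.co (v s i) k) * β k := fun i => h.co_spec _
      have e2 : ∀ i, (b.map ι *ᵥ ((B s).map ι *ᵥ z t)) i =
          ∑ j, ι ((b *ᵥ (B s *ᵥ fun i => h.co (z t i) j)) i) * β j := by
        intro i
        refine (h.co_spec _).trans (Finset.sum_congr rfl fun j _ => ?_)
        rw [co_mulVec]
        congr 3
        funext i
        rw [co_mulVec]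
      have e3 : v s ⬝ᵥ (b.map ι *ᵥ ((B s).map ι *ᵥ z t)) =
          ∑ k, ∑ j, ι ((fun i => h.co (v s i) k) ⬝ᵥ
            (b *ᵥ (B s *ᵥ fun i => h.co (z t i) j))) * (β k * β j) := by
        have e4 : v s ⬝ᵥ (b.map ι *ᵥ ((B s).map ι *ᵥ z t)) =
            ∑ i, ∑ k, ∑ j, ι (h.co (v s i) k * (b *ᵥ (B s *ᵥ fun i => h.co (z t i) j)) i) *
              (β k * β j) := by
          refine Finset.sum_congr rfl fun i _ => ?_
          rw [e2]
          conv_lhs => rw [e1]
          rw [Finset.sum_mul_sum]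
          refine Finset.sum_congr rfl fun k _ => Finset.sum_congr rfl fun j _ => ?_
          rw [map_mul]
          ring
        rw [e4, Finset.sum_comm]
        refine Finset.sum_congr rfl fun k _ => ?_
        rw [Finset.sum_comm]
        refine Finset.sum_congr rfl fun j _ => ?_
        rw [← Finset.sum_mul, ← map_sum]
        rfl
      rw [e3]
      simp only [hy', map_sub, map_add, map_mul, map_toE]
      rw [Finset.mul_sum, ← Finset.sum_add_distrib, ← Finset.sum_sub_distrib]
      refine Finset.sum_congr rfl fun k _ => ?_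
      rw [Finset.mul_sum, ← Finset.sum_add_distrib, ← Finset.sum_sub_distrib]
      refine Finset.sum_congr rfl fun j _ => ?_
      ring

private theorem fix_iff (h : FinExt ι β) {X : Type*} (A : X → Matrix (Fin n) (Fin n) E)
    (z : Fin n → E') :
    z ∈ Parity.fixedBy (fun t => (A t).map ι) ↔
      ∀ j, (fun i => h.co (z i) j) ∈ Parity.fixedBy A := by
  constructor
  · intro hz j t
    funext i
    rw [← co_mulVec]
    exact congrArg (fun w => h.co w j) (congrFun (hz t) i)
  · intro hz t
    funext i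
    refine co_inj' h fun j => ?_
    rw [co_mulVec]
    exact congrFun (hz j t) i

private theorem res_iff {F : Type*} [NormedField F] {I : Subgroup G}
    (A : G → Matrix (Fin n) (Fin n) F) (z : G → Fin n → F) :
    (∃ v : Fin n → F, ∀ σ ∈ I, z σ = A σ *ᵥ v - v) ↔
      (fun σ : I => z σ) ∈ Parity.coboundaries fun σ : I => A σ :=
  ⟨fun ⟨v, hv⟩ => ⟨v, fun σ => hv σ σ.2⟩, fun ⟨v, hv⟩ => ⟨v, fun σ hσ => hv ⟨σ, hσ⟩⟩⟩

end coords

theorem parityBKA_fin (ι : E →ₐ[ℚ_[2]] E') {N : Set (Subgroup G)} {χ : G → ℤ_[2]}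
    {κ : G → G} {ρ : G →* Matrix (Fin n) (Fin n) E} {b : Matrix (Fin n) (Fin n) E}
    {D : Subgroup G} {a : ℕ}
    (hp : Parity.ParityBKA N (fun g => toE E' (χ g)) κ (mapRep ι ρ) (b.map ι) D a) :
    Parity.ParityBKA N (fun g => toE E (χ g)) κ ρ b D a := by
  obtain ⟨d, β, h⟩ := exists_finExt ι
  have hd : 0 < d := by
    rcases Nat.eq_zero_or_pos d with h0 | h0
    · exfalso
      subst h0
      have := h.co_spec 1
      rw [Finset.univ_eq_empty, Finset.sum_empty] at this
      exact one_ne_zero this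
    · exact h0
  intro L hL
  have c1 : Parity.coboundaries (fun σ : D => mapRep ι ρ σ) =
      h.ext (Parity.coboundaries fun σ : D => ρ σ) := by
    ext z
    exact cob_iff h (fun σ : D => ρ σ) z
  have c2 : Parity.cocycles (fun σ : D => mapRep ι ρ σ) =
      h.ext (Parity.cocycles fun σ : D => ρ σ) := by
    ext z
    exact coc_iff h (fun σ : D => ρ σ) z
  have c3 : Parity.coboundaries (mapRep ι ρ) = h.ext (Parity.coboundaries ρ) := by
    ext z
    exact cob_iff h (fun σ : G => ρ σ) z
  have c4 : Parity.selmerBK N (fun g => toE E' (χ g)) κ (mapRep ι ρ) (b.map ι) D (h.ext L) =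
      h.ext (Parity.selmerBK N (fun g => toE E (χ g)) κ ρ b D L) := by
    ext z
    have d1 := coc_iff h (fun σ : G => ρ σ) z
    have d3 := perp_iff h (χ := fun σ : D => χ σ) (fun σ : D => ρ (κ σ)) b L
        (fun σ : D => z (κ σ))
    have d4 : ∀ I : Subgroup G, (∃ v : Fin n → E', ∀ σ ∈ I, z σ = mapRep ι ρ σ *ᵥ v - v) ↔
        ∀ j, ∃ v : Fin n → E, ∀ σ ∈ I, (fun i => h.co (z σ i) j) = ρ σ *ᵥ v - v := by
      intro I
      refine (res_iff (I := I) (fun σ => mapRep ι ρ σ) z).trans
        ((cob_iff h (fun σ : I => ρ σ) (fun σ : I => z σ)).trans (forall_congr' fun j => ?_))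
      exact (res_iff (I := I) (fun σ => ρ σ) (fun σ i => h.co (z σ i) j)).symm
    constructor
    · rintro ⟨h1, h2, h3, h4⟩ j
      exact ⟨d1.1 h1 j, fun I hI => (d4 I).1 (h2 I hI) j, h3 j, d3.1 h4 j⟩
    · intro hz
      exact ⟨d1.2 fun j => (hz j).1, fun I hI => (d4 I).2 fun j => (hz j).2.1 I hI,
        fun j => (hz j).2.2.1, d3.2 fun j => (hz j).2.2.2⟩
  have c5 : finrank E' (Parity.fixedBy fun σ : G => mapRep ι ρ σ) =
      finrank E (Parity.fixedBy fun σ : G => ρ σ) :=
    h.finrank_vec fun z => fix_iff h (fun σ : G => ρ σ) z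
  have c6 : finrank E' (Parity.fixedBy fun σ : D => mapRep ι ρ σ) =
      finrank E (Parity.fixedBy fun σ : D => ρ σ) :=
    h.finrank_vec fun z => fix_iff h (fun σ : D => ρ σ) z
  obtain ⟨e1, e2, e3, e4⟩ := hp (h.ext L) (by
    rw [c1, c2]
    exact ⟨h.ext_mono hL.1, h.ext_mono hL.2⟩)
  rw [c4] at e2 e3 e4
  rw [c3] at e3 e4
  have f1 : FiniteDimensional E L := (h.ext_fin L).1 e1
  have f2 : FiniteDimensional E (Parity.selmerBK N (fun g => toE E (χ g)) κ ρ b D L) :=
    (h.ext_fin _).1 e2
  have f3 : Parity.coboundaries ρ ≤ Parity.selmerBK N (fun g => toE E (χ g)) κ ρ b D L := by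
    intro x hx
    have h1 := (h.ext_iff _ fun _ => x).1 (e3 ((h.ext_iff _ fun _ => x).2 fun _ => hx))
    exact h1 ⟨0, hd⟩
  refine ⟨f1, f2, f3, ?_⟩
  rw [h.ext_dim f3, c5, c1, h.ext_dim hL.1, c6] at e4
  exact e4

end Pool.Agent.Work.MP_787500_nt.RB
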