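import Mathlib
import Pool.Agent.Work.MP_787500_nt.RB.Res
import Pool.Agent.Work.MP_787500_nt.GP.LDefs
import Pool.Agent.Work.MP_787500_nt.GP.L03_Ring

/-!
# RB/Om (size M): a large field with algebraically closed residue field; discreteness

* `exists_omega`: `Ω = AlgebraicClosure E` with the spectral norm over `ℚ_[2]` (`spectralNorm.normedField ℚ_[2] Ω`,
  `spectralNorm.normedAlgebra`; `Ω` is algebraic over `ℚ_[2]` because `E` is finite over `ℚ_[2]`: compare `LX.exists_sqrtExt`, which does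
  the same for `AdjoinRoot`). `ι` = `IsScalarTower.toAlgHom` or the algebra map; `‖ι x‖ = ‖x‖`: `NormedAlgebra.norm_eq_spectralNorm`,
  `spectralNorm.eq_of_tower`. The ring `{‖x‖ ≤ 1}` (`GP.OE Ω`, a subring) is local: nonunits are the elements of norm `< 1` (ultrametric),
  `k = IsLocalRing.ResidueField`, `rd x` = the residue of `x` if `‖x‖ ≤ 1` and 0 otherwise. `k` is algebraically closed: for a monic
  polynomial over `k` of positive degree take a monic lift to the ring; it has a root `x` in `Ω`; `‖x‖ ≤ 1` because `x` is a root of a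
  monic polynomial with coefficients of norm `≤ 1` (ultrametric); the residue of `x` is a root (`IsAlgClosed.of_exists_root`).
  Characteristic 2: `‖(2 : Ω)‖ < 1`.
* `norm_map_eq`: `j : F →ₐ[ℚ_[2]] F'` between normed algebras, `F` finite dimensional (or algebraic): both norms are the spectral norm of `ℚ_[2]`
  (`NormedAlgebra.norm_eq_spectralNorm`, `minpoly` is preserved by `j`: `spectralNorm` is `spectralValue (minpoly ..)`, `minpoly.algHom_eq`).
* `disc_of`: the subring is contained in a finite dimensional subfield: `F = IntermediateField.adjoin ℚ_[2] (range of ι ∪ s)`; `range ι` is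
  finite dimensional, `s` finite and algebraic. A finite dimensional extension of `ℚ_[2]` has a uniformizer (`exists_unif` in GP or LX: for
  `F` with the induced norm; or: the ring of integers is compact, so the set of norms `< 1` has a maximum).
-/

set_option autoImplicit false
set_option linter.unusedSectionVars false

namespace Pool.Agent.Work.MP_787500_nt.RB

open Matrix Module

universe v

/-! ### the ring of integers of an algebraic extension -/

section ring

variable {Ω : Type v} [NormedField Ω] [NormedAlgebra ℚ_[2] Ω]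

private theorem om_unit (x : GP.OE Ω) : IsUnit x ↔ ‖(x : Ω)‖ = 1 := by
  constructor
  · intro h
    obtain ⟨y, hy⟩ := isUnit_iff_exists_inv.1 h
    have h1 : ‖(x : Ω)‖ * ‖(y : Ω)‖ = 1 := by
      rw [← norm_mul, ← Subring.coe_mul, hy, Subring.coe_one, norm_one]
    have hx : ‖(x : Ω)‖ ≤ 1 := x.2
    have hy1 : ‖(y : Ω)‖ ≤ 1 := y.2
    refine le_antisymm hx ?_
    calc 1 = ‖(x : Ω)‖ * ‖(y : Ω)‖ := h1.symm
      _ ≤ ‖(x : Ω)‖ * 1 := mul_le_mul_of_nonneg_left hy1 (norm_nonneg _)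
      _ = ‖(x : Ω)‖ := mul_one _
  · intro h
    have hx0 : (x : Ω) ≠ 0 := by
      intro h0
      rw [h0, norm_zero] at h
      exact zero_ne_one h
    refine isUnit_iff_exists_inv.2 ⟨⟨(x : Ω)⁻¹, ?_⟩, ?_⟩
    · show ‖(x : Ω)⁻¹‖ ≤ 1
      rw [norm_inv, h, inv_one]
    · apply Subtype.ext
      show (x : Ω) * (x : Ω)⁻¹ = 1
      exact mul_inv_cancel₀ hx0

private theorem om_local : IsLocalRing (GP.OE Ω) := by
  have hu := Gn.ultra 2 Ω
  refine IsLocalRing.of_isUnit_or_isUnit_one_sub_self fun a => ?_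
  rw [om_unit, om_unit]
  by_cases h : ‖(a : Ω)‖ = 1
  · exact Or.inl h
  · right
    have h1 : ‖(a : Ω)‖ < 1 := lt_of_le_of_ne a.2 h
    show ‖(1 : Ω) - (a : Ω)‖ = 1
    have h2 : ‖(1 : Ω) - (a : Ω)‖ ≤ 1 := by
      rw [sub_eq_add_neg]
      refine (IsUltrametricDist.norm_add_le_max _ _).trans (max_le (by simp) ?_)
      rw [norm_neg]
      exact h1.le
    refine le_antisymm h2 ?_
    by_contra hn
    rw [not_le] at hn
    have h3 : ‖(1 : Ω)‖ ≤ max ‖(1 : Ω) - (a : Ω)‖ ‖(a : Ω)‖ := by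
      have e : (1 : Ω) = ((1 : Ω) - (a : Ω)) + (a : Ω) := by ring
      conv_lhs => rw [e]
      exact IsUltrametricDist.norm_add_le_max _ _
    rw [norm_one] at h3
    exact absurd h3 (not_le.2 (max_lt hn h1))

private theorem om_root_int {q : Polynomial (GP.OE Ω)} (hq : q.Monic) {x : Ω}
    (hx : (q.map (GP.OE Ω).subtype).eval x = 0) : ‖x‖ ≤ 1 := by
  by_contra hn
  rw [not_le] at hn
  have hu := Gn.ultra 2 Ω
  set P := q.map (GP.OE Ω).subtype with hP
  have hPm : P.Monic := hq.map _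
  set n := P.natDegree with hnn
  have e : x ^ n = -∑ i ∈ Finset.range n, P.coeff i * x ^ i := by
    have h1 := hx
    rw [Polynomial.eval_eq_sum_range, Finset.sum_range_succ, ← hnn] at h1
    rw [hPm.coeff_natDegree, one_mul] at h1
    linear_combination h1
  rcases Nat.eq_zero_or_pos n with h0 | h0
  · rw [h0, pow_zero, Finset.sum_range_zero, neg_zero] at e
    exact one_ne_zero e
  have hb : ‖∑ i ∈ Finset.range n, P.coeff i * x ^ i‖ ≤ ‖x‖ ^ (n - 1) := by
    have key : ∀ s : Finset ℕ, (∀ i ∈ s, i < n) →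
        ‖∑ i ∈ s, P.coeff i * x ^ i‖ ≤ ‖x‖ ^ (n - 1) := by
      intro s
      induction s using Finset.induction_on with
      | empty =>
        intro _
        rw [Finset.sum_empty, norm_zero]
        positivity
      | insert a s ha ih =>
        intro hs
        rw [Finset.sum_insert ha]
        refine (IsUltrametricDist.norm_add_le_max _ _).trans (max_le ?_ ?_)
        · rw [norm_mul, norm_pow]
          have h2 : ‖P.coeff a‖ ≤ 1 := by
            rw [hP, Polynomial.coeff_map]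
            exact (q.coeff a).2
          have h3 : a ≤ n - 1 := Nat.le_sub_one_of_lt (hs a (Finset.mem_insert_self a s))
          calc ‖P.coeff a‖ * ‖x‖ ^ a ≤ 1 * ‖x‖ ^ (n - 1) :=
                mul_le_mul h2 (pow_le_pow_right₀ hn.le h3) (by positivity) zero_le_one
            _ = ‖x‖ ^ (n - 1) := one_mul _
        · exact ih fun i hi => hs i (Finset.mem_insert_of_mem hi)
    exact key _ fun i hi => Finset.mem_range.1 hi
  have h4 : ‖x‖ ^ n ≤ ‖x‖ ^ (n - 1) := by
    rw [← norm_pow, e, norm_neg]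
    exact hb
  have h5 : ‖x‖ ^ (n - 1) < ‖x‖ ^ n := pow_lt_pow_right₀ hn (by omega)
  exact absurd h4 (not_le.2 h5)

/-- the residue field -/
private theorem om_res [IsAlgClosed Ω] :
    ∃ (k : Type v) (_ : Field k) (rd : Ω → k), IsAlgClosed k ∧ CharP k 2 ∧ Red rd := by
  classical
  have hl : IsLocalRing (GP.OE Ω) := om_local
  have hu := Gn.ultra 2 Ω
  have hres : ∀ x : GP.OE Ω, IsLocalRing.residue (GP.OE Ω) x = 0 ↔ ‖(x : Ω)‖ < 1 := by
    intro x
    rw [IsLocalRing.residue_eq_zero_iff, IsLocalRing.mem_maximalIdeal, mem_nonunits_iff, om_unit]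
    exact ⟨fun h => lt_of_le_of_ne x.2 h, fun h => h.ne⟩
  refine ⟨IsLocalRing.ResidueField (GP.OE Ω), inferInstance,
    fun x => if h : ‖x‖ ≤ 1 then IsLocalRing.residue (GP.OE Ω) ⟨x, h⟩ else 0, ?_, ?_, ?_⟩
  · apply IsAlgClosed.of_exists_root
    intro p hp hirr
    have hlift : p ∈ Polynomial.lifts (IsLocalRing.residue (GP.OE Ω)) :=
      (Polynomial.mem_lifts p).2 (Polynomial.map_surjective _ IsLocalRing.residue_surjective p)
    obtain ⟨q, hq1, hq2, hq3⟩ := Polynomial.lifts_and_natDegree_eq_and_monic hlift hp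
    have hdeg : (q.map (GP.OE Ω).subtype).degree ≠ 0 := by
      rw [Polynomial.degree_map_eq_of_injective (Subring.subtype_injective _)]
      intro h0
      have h1 : q.natDegree = 0 := Polynomial.natDegree_eq_of_degree_eq_some h0
      rw [hq2] at h1
      exact hirr.natDegree_pos.ne' h1
    obtain ⟨x, hx⟩ := IsAlgClosed.exists_root _ hdeg
    have hx1 : ‖x‖ ≤ 1 := om_root_int hq3 hx
    refine ⟨IsLocalRing.residue (GP.OE Ω) ⟨x, hx1⟩, ?_⟩
    have h2 : q.eval (⟨x, hx1⟩ : GP.OE Ω) = 0 := by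
      apply Subtype.ext
      have h3 := Polynomial.hom_eval₂ q (RingHom.id (GP.OE Ω)) (GP.OE Ω).subtype ⟨x, hx1⟩
      have h4 : (GP.OE Ω).subtype (q.eval (⟨x, hx1⟩ : GP.OE Ω)) =
          (q.map (GP.OE Ω).subtype).eval x := by
        rw [Polynomial.eval_map, Polynomial.eval, h3]
        rfl
      show (GP.OE Ω).subtype (q.eval (⟨x, hx1⟩ : GP.OE Ω)) = 0
      rw [h4]
      exact hx
    rw [← hq1, Polynomial.eval_map, Polynomial.eval₂_at_apply, h2, map_zero]
  · refine CharTwo.of_one_ne_zero_of_two_eq_zero one_ne_zero ?_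
    have h2 : ‖(2 : Ω)‖ < 1 := by
      have h := Gn.norm_p 2 Ω
      push_cast at h
      rw [h]
      norm_num
    have h3 : IsLocalRing.residue (GP.OE Ω) (2 : GP.OE Ω) = 0 := (hres _).2 h2
    rw [← h3]
    exact (map_ofNat (IsLocalRing.residue (GP.OE Ω)) 2).symm
  · have hrd : ∀ (x : Ω) (h : ‖x‖ ≤ 1), (if h : ‖x‖ ≤ 1 then IsLocalRing.residue (GP.OE Ω) ⟨x, h⟩
        else 0) = IsLocalRing.residue (GP.OE Ω) ⟨x, h⟩ := fun x h => dif_pos h
    refine ⟨fun x y hx hy => ?_, fun x y hx hy => ?_, ?_, fun x hx => ?_, fun a => ?_⟩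
    · have hxy : ‖x + y‖ ≤ 1 := (IsUltrametricDist.norm_add_le_max _ _).trans (max_le hx hy)
      show (if h : _ then _ else _) = (if h : _ then _ else _) + (if h : _ then _ else _)
      rw [hrd x hx, hrd y hy, hrd _ hxy, ← map_add]
      rfl
    · have hxy : ‖x * y‖ ≤ 1 := by
        rw [norm_mul]
        exact mul_le_one₀ hx (norm_nonneg _) hy
      show (if h : _ then _ else _) = (if h : _ then _ else _) * (if h : _ then _ else _)
      rw [hrd x hx, hrd y hy, hrd _ hxy, ← map_mul]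
      rfl
    · have h1 : ‖(1 : Ω)‖ ≤ 1 := by simp
      show (if h : _ then _ else _) = _
      rw [hrd 1 h1]
      exact map_one _
    · show (if h : _ then _ else _) = _ ↔ _
      rw [hrd x hx, hres]
    · obtain ⟨x, rfl⟩ := IsLocalRing.residue_surjective a
      refine ⟨(x : Ω), x.2, ?_⟩
      show (if h : _ then _ else _) = _
      rw [hrd _ x.2]

end ring

theorem exists_omega (E : Type v) [NormedField E] [NormedAlgebra ℚ_[2] E]
    [FiniteDimensional ℚ_[2] E] :
    ∃ (Ω : Type v) (_ : NormedField Ω) (_ : NormedAlgebra ℚ_[2] Ω) (_ : E →ₐ[ℚ_[2]] Ω) (k : Type v)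
      (_ : Field k) (rd : Ω → k), Algebra.IsAlgebraic ℚ_[2] Ω ∧ IsAlgClosed Ω ∧ IsAlgClosed k ∧
        CharP k 2 ∧ Red rd := by
  have hE : Algebra.IsAlgebraic ℚ_[2] E := Algebra.IsAlgebraic.of_finite ℚ_[2] E
  have hA : Algebra.IsAlgebraic ℚ_[2] (AlgebraicClosure E) :=
    Algebra.IsAlgebraic.trans ℚ_[2] E (AlgebraicClosure E)
  let iN : NormedField (AlgebraicClosure E) := spectralNorm.normedField ℚ_[2] (AlgebraicClosure E)
  let iA : NormedAlgebra ℚ_[2] (AlgebraicClosure E) :=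
    spectralNorm.normedAlgebra ℚ_[2] (AlgebraicClosure E)
  have hC : IsAlgClosed (AlgebraicClosure E) := inferInstance
  obtain ⟨k, ik, rd, h1, h2, h3⟩ := om_res (Ω := AlgebraicClosure E)
  exact ⟨AlgebraicClosure E, iN, iA, IsScalarTower.toAlgHom ℚ_[2] E (AlgebraicClosure E), k, ik, rd,
    hA, hC, h1, h2, h3⟩

theorem norm_map_eq {F F' : Type*} [NormedField F] [NormedAlgebra ℚ_[2] F]
    [Algebra.IsAlgebraic ℚ_[2] F] [NormedField F'] [NormedAlgebra ℚ_[2] F']
    [Algebra.IsAlgebraic ℚ_[2] F'] (j : F →ₐ[ℚ_[2]] F') (x : F) : ‖j x‖ = ‖x‖ := by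
  rw [NormedAlgebra.norm_eq_spectralNorm ℚ_[2] x, NormedAlgebra.norm_eq_spectralNorm ℚ_[2] (j x)]
  unfold spectralNorm
  rw [minpoly.algHom_eq j j.injective x]

private theorem disc_fin {F Ω : Type*} [Field F] [Algebra ℚ_[2] F] [FiniteDimensional ℚ_[2] F]
    [NormedField Ω] [NormedAlgebra ℚ_[2] Ω] [Algebra.IsAlgebraic ℚ_[2] Ω] (j : F →ₐ[ℚ_[2]] Ω) :
    ∃ r : ℝ, 0 < r ∧ r < 1 ∧ ∀ y : F, ‖j y‖ < 1 → ‖j y‖ ≤ r := by
  have hA : Algebra.IsAlgebraic ℚ_[2] F := Algebra.IsAlgebraic.of_finite ℚ_[2] F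
  let iN : NormedField F := spectralNorm.normedField ℚ_[2] F
  let iA : NormedAlgebra ℚ_[2] F := spectralNorm.normedAlgebra ℚ_[2] F
  obtain ⟨l, h0, h1, h2⟩ := GP.exists_unif F
  refine ⟨‖(l : F)‖, norm_pos_iff.2 h0, h1, fun y hy => ?_⟩
  rw [norm_map_eq j y] at hy ⊢
  exact h2 y hy

theorem disc_of {E Ω : Type*} [NormedField E] [NormedAlgebra ℚ_[2] E] [FiniteDimensional ℚ_[2] E]
    [NormedField Ω] [NormedAlgebra ℚ_[2] Ω] [Algebra.IsAlgebraic ℚ_[2] Ω] (ι : E →ₐ[ℚ_[2]] Ω)
    {G : Type*} {n : ℕ} (ρ : G → Matrix (Fin n) (Fin n) E) : Disc (fun g => (ρ g).map ι) := by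
  intro s
  have h1 : FiniteDimensional ℚ_[2] ι.fieldRange :=
    (AlgEquiv.ofInjectiveField ι).toLinearEquiv.finiteDimensional
  have h2 : FiniteDimensional ℚ_[2] (IntermediateField.adjoin ℚ_[2] (s : Set Ω)) :=
    IntermediateField.finiteDimensional_adjoin fun x _ =>
      (Algebra.IsAlgebraic.isAlgebraic x).isIntegral
  obtain ⟨r, hr0, hr1, hr⟩ :=
    disc_fin ((ι.fieldRange ⊔ IntermediateField.adjoin ℚ_[2] (s : Set Ω)).val)
  refine ⟨r, hr0, hr1, fun x hx hx1 => ?_⟩
  have hle : Subring.closure ({y | ∃ g i j, y = (fun g => (ρ g).map ι) g i j} ∪ (s : Set Ω)) ≤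
      (ι.fieldRange ⊔ IntermediateField.adjoin ℚ_[2] (s : Set Ω)).toSubring := by
    rw [Subring.closure_le]
    rintro y (⟨g, i, j, rfl⟩ | hy)
    · exact (le_sup_left : ι.fieldRange ≤ ι.fieldRange ⊔ IntermediateField.adjoin ℚ_[2] (s : Set Ω))
        ⟨ρ g i j, rfl⟩
    · exact (le_sup_right : IntermediateField.adjoin ℚ_[2] (s : Set Ω) ≤
        ι.fieldRange ⊔ IntermediateField.adjoin ℚ_[2] (s : Set Ω))
        (IntermediateField.subset_adjoin _ _ hy)
  exact hr ⟨x, hle hx⟩ hx1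

end Pool.Agent.Work.MP_787500_nt.RB
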