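import Mathlib
import Pool.Agent.Work.MP_787500_nt.RB.Res
import Pool.Agent.Work.MP_787500_nt.RB.Om

/-!
# RB/Down (size M): from `Ω` to a finite extension of `E`

`F` = the subfield of `Ω` generated over `ℚ_[2]` by the range of `ι` and the finitely many entries of `A`, `A'`, `C`
(`IntermediateField.adjoin ℚ_[2] _` or a sup of finite dimensional ones): finite dimensional over `ℚ_[2]`. `E' = F` with the norm induced
from `Ω` (`SubfieldClass.toNormedField` or the like; `NormedAlgebra ℚ_[2] F`: `norm_smul_le` from `Ω`), `j : E' → Ω` the inclusion, `ι'` with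
`j ∘ ι' = ι`. The matrices `A`, `A'`, `C` come from `E'` (`Matrix.map_injective`); all conditions of `GoodC` are equalities or norm conditions
that can be checked in `Ω` (`j` injective, norm preserving, `Matrix.map_mul`, `RingHom.map_det`).
-/

set_option autoImplicit false
set_option linter.unusedSectionVars false

namespace Pool.Agent.Work.MP_787500_nt.RB

open Matrix Module
open Pool.Agent.Work.MP_787500_nt.LX (mapRep)

universe v

private theorem down_field {E : Type v} [NormedField E]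
    [NormedAlgebra ℚ_[2] E] [FiniteDimensional ℚ_[2] E] {Ω : Type v} [NormedField Ω]
    [NormedAlgebra ℚ_[2] Ω] [Algebra.IsAlgebraic ℚ_[2] Ω] (ι : E →ₐ[ℚ_[2]] Ω) (S : Set Ω)
    (hS : S.Finite) : ∃ (E' : Type v) (_ : NormedField E') (_ : NormedAlgebra ℚ_[2] E')
      (_ : FiniteDimensional ℚ_[2] E') (ι' : E →ₐ[ℚ_[2]] E') (j : E' →ₐ[ℚ_[2]] Ω),
      (∀ x, ‖j x‖ = ‖x‖) ∧ (∀ x, j (ι' x) = ι x) ∧ ∀ x ∈ S, ∃ y, j y = x := by
  have hfin : Finite S := hS
  have h1 : FiniteDimensional ℚ_[2] (IntermediateField.adjoin ℚ_[2] S) :=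
    IntermediateField.finiteDimensional_adjoin fun x _ =>
      (Algebra.IsAlgebraic.isAlgebraic x).isIntegral
  have h2 : FiniteDimensional ℚ_[2] ι.fieldRange :=
    Module.Finite.of_surjective (M := E) (ι.rangeRestrict.toLinearMap : E →ₗ[ℚ_[2]] ι.range)
      ι.rangeRestrict_surjective
  let F : IntermediateField ℚ_[2] Ω := ι.fieldRange ⊔ IntermediateField.adjoin ℚ_[2] S
  have h3 : FiniteDimensional ℚ_[2] F := IntermediateField.finiteDimensional_sup _ _
  have h4 : ∀ x, ι x ∈ F.toSubalgebra := fun x =>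
    (le_sup_left : ι.fieldRange ≤ F) ⟨x, rfl⟩
  refine ⟨F, inferInstance, inferInstance, h3, ι.codRestrict F.toSubalgebra h4, F.val,
    fun x => rfl, fun x => rfl, fun x hx => ?_⟩
  exact ⟨⟨x, (le_sup_right : IntermediateField.adjoin ℚ_[2] S ≤ F)
    (IntermediateField.subset_adjoin _ _ hx)⟩, rfl⟩

theorem exists_down {G : Type*} [Group G] {κ : G →* G} {E : Type v} [NormedField E]
    [NormedAlgebra ℚ_[2] E] [FiniteDimensional ℚ_[2] E] {n : ℕ}
    {ρ : G →* Matrix (Fin n) (Fin n) E} {b : Matrix (Fin n) (Fin n) E} {Ω : Type v} [NormedField Ω]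
    [NormedAlgebra ℚ_[2] Ω] [Algebra.IsAlgebraic ℚ_[2] Ω] (ι : E →ₐ[ℚ_[2]] Ω)
    {A A' C : Matrix (Fin n) (Fin n) Ω}
    (h : GoodC κ (fun g => (ρ g).map ι) (b.map ι) A A' C) :
    ∃ (E' : Type v) (_ : NormedField E') (_ : NormedAlgebra ℚ_[2] E')
      (_ : FiniteDimensional ℚ_[2] E') (ι' : E →ₐ[ℚ_[2]] E') (A₁ A₁' C₁ : Matrix (Fin n) (Fin n) E'),
      GoodC κ (fun g => mapRep ι' ρ g) (b.map ι') A₁ A₁' C₁ := by
  obtain ⟨E', i1, i2, i3, ι', j, hj, hjι, hS⟩ := down_field ι
    (Set.range (fun x : Fin n × Fin n => A x.1 x.2) ∪ (Set.range (fun x : Fin n × Fin n =>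
      A' x.1 x.2) ∪ Set.range (fun x : Fin n × Fin n => C x.1 x.2)))
    ((Set.finite_range _).union ((Set.finite_range _).union (Set.finite_range _)))
  have hA : ∀ x y, ∃ z, j z = A x y := fun x y => hS _ (Or.inl ⟨(x, y), rfl⟩)
  have hA' : ∀ x y, ∃ z, j z = A' x y := fun x y => hS _ (Or.inr (Or.inl ⟨(x, y), rfl⟩))
  have hC : ∀ x y, ∃ z, j z = C x y := fun x y => hS _ (Or.inr (Or.inr ⟨(x, y), rfl⟩))
  choose A₁ hA₁ using hA
  choose A₁' hA₁' using hA'
  choose C₁ hC₁ using hC
  have eA : (Matrix.of A₁).map j = A := by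
    ext x y
    exact hA₁ x y
  have eA' : (Matrix.of A₁').map j = A' := by
    ext x y
    exact hA₁' x y
  have eC : (Matrix.of C₁).map j = C := by
    ext x y
    exact hC₁ x y
  have eb : (b.map ι').map j = b.map ι := by
    ext x y
    exact hjι _
  have er : ∀ g, (mapRep ι' ρ g).map j = (ρ g).map ι := by
    intro g
    ext x y
    exact hjι _
  have hinj : Function.Injective (fun M : Matrix (Fin n) (Fin n) E' => M.map j) :=
    Matrix.map_injective j.injective
  have hmul : ∀ M N : Matrix (Fin n) (Fin n) E', (M * N).map j = M.map j * N.map j :=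
    fun M N => Matrix.map_mul
  have hone : (1 : Matrix (Fin n) (Fin n) E').map j = 1 := Matrix.map_one _ (map_zero j) (map_one j)
  have hsub : ∀ M N : Matrix (Fin n) (Fin n) E', (M - N).map j = M.map j - N.map j := by
    intro M N
    ext x y
    exact map_sub j _ _
  have htr : ∀ M : Matrix (Fin n) (Fin n) E', Mᵀ.map j = (M.map j)ᵀ := fun M => rfl
  have hnorm : ∀ (M : Matrix (Fin n) (Fin n) E') (x y : Fin n), ‖M x y‖ = ‖(M.map j) x y‖ :=
    fun M x y => (hj _).symm
  refine ⟨E', i1, i2, i3, ι', Matrix.of A₁, Matrix.of A₁', Matrix.of C₁, ?_⟩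
  constructor
  · constructor
    · apply hinj
      show (_ : Matrix (Fin n) (Fin n) E').map j = (1 : Matrix (Fin n) (Fin n) E').map j
      rw [hmul, eA, eA', hone]
      exact h.good.inv
    · apply hinj
      show (_ : Matrix (Fin n) (Fin n) E').map j = (1 : Matrix (Fin n) (Fin n) E').map j
      rw [hmul, eA, eA', hone]
      exact h.good.inv'
    · intro g x y
      rw [hnorm, hmul, hmul, eA, eA', er]
      exact h.good.st g x y
    · intro x y
      rw [hnorm, hmul, hmul, htr, eA, eb]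
      exact h.good.un x y
    · rw [← hj]
      have h5 : j ((Matrix.of A₁)ᵀ * b.map ι' * Matrix.of A₁).det =
          (((Matrix.of A₁)ᵀ * b.map ι' * Matrix.of A₁).map j).det := by
        have := (j : E' →+* Ω).map_det ((Matrix.of A₁)ᵀ * b.map ι' * Matrix.of A₁)
        exact this
      rw [h5, hmul, hmul, htr, eA, eb]
      exact h.good.det
  · intro x y
    rw [hnorm, eC]
    exact h.int x y
  · intro x y
    rw [hnorm, hsub, hmul, eC, hone]
    exact h.sq x y
  · intro g x y
    rw [hnorm, hsub, hmul, hmul, hmul, hmul, hmul, hmul, eC, eA, eA', er, er]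
    exact h.com g x y
  · apply hinj
    show ((_ : Matrix (Fin n) (Fin n) E')ᵀ).map j = (-(_ : Matrix (Fin n) (Fin n) E')).map j
    have hneg : ∀ M : Matrix (Fin n) (Fin n) E', (-M).map j = -(M.map j) := by
      intro M
      ext x y
      exact map_neg j _
    rw [hneg, htr, hmul, hmul, hmul, htr, eA, eb, eC]
    exact h.alt

end Pool.Agent.Work.MP_787500_nt.RB
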