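import Mathlib

/-!
Residually self-dual representations: definition used in the statement of the theorem.
-/

set_option autoImplicit false

namespace Pool.Agent.Work.MP_787500_nt.Parity

open Matrix

/-- The characteristic polynomials of `ρ (g⁻¹)` and `ρ g` are congruent modulo the maximal ideal for all `g`. (Equivalently,
the semisimplification of the representation over the residue field is isomorphic to its dual.) -/
def ResSelfDual {G : Type*} [Group G] {E : Type*} [NormedField E] {n : ℕ}
    (ρ : G →* Matrix (Fin n) (Fin n) E) : Prop :=
  ∀ g i, ‖(ρ g⁻¹).charpoly.coeff i - (ρ g).charpoly.coeff i‖ < 1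

end Pool.Agent.Work.MP_787500_nt.Parity
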