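import Mathlib
import Pool.Agent.Work.MP_787500_nt.RB.Res
import Pool.Agent.Work.MP_787500_nt.RB.Om
import Pool.Agent.Work.MP_787500_nt.LX.X1_Sqrt
import Pool.Agent.Work.MP_787500_nt.LX.X3_Lat
import Pool.Agent.Work.MP_787500_nt.PL.Bas
import Pool.Agent.Work.MP_787500_nt.SH.Gen

/-!
# RB/Good0 (size M): a first good basis over `Ω`

`exists_unif E` gives `l`, `LX.exists_sqrtExt` gives `E' = E (√l)`, `ι'`, `m'`, `LX.exists_lat_sqrt` a self-dual stable lattice `T'` in `E' ^ n`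
(bounded and open), `exists_func E'` the functional `t`, so `Lat (b.map ι') m' t T'` (see the first half of the proof of
`QG.main_gen3` in QG/Gen3.lean: `hlat`), and `PL.exists_bas` matrices `Q`, `R` over `E'` with `x ∈ T' ↔ ∀ i, ‖(R *ᵥ x) i‖ ≤ 1`, Gram matrix
integral with unit determinant. `R * ρ g * Q` is integral: the columns `Q *ᵥ Pi.single j 1` are in `T'`.
An embedding `j : E' →ₐ[ℚ_[2]] Ω` with `j ∘ ι' = ι`: `E'` is generated over `ι' E` by `m'` with `m' * m' = ι' l` (`SqrtExt.split`, `SqrtExt.sq`); `Ω` is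
algebraically closed: `IsAlgClosed.lift` for the algebraic extension `E'` of `E` (make `E'` and `Ω` algebras over `E` by `ι'` and `ι`; `E'` is
finite over `E`). `‖j x‖ = ‖x‖` by `norm_map_eq`. Put `A = Q.map j`, `A' = R.map j`; `(mapRep ι' ρ g).map j = (ρ g).map ι`.
-/

set_option autoImplicit false
set_option linter.unusedSectionVars false

namespace Pool.Agent.Work.MP_787500_nt.RB

open Matrix Module
open Pool.Agent.Work.MP_787500_nt.PA (toE)
open Pool.Agent.Work.MP_787500_nt.GP (bil)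

universe v

theorem exists_good {G : Type*} [Group G] {S : KR.FSys G} {E : Type v} [NormedField E]
    [NormedAlgebra ℚ_[2] E] [FiniteDimensional ℚ_[2] E] {n : ℕ}
    {ρ : G →* Matrix (Fin n) (Fin n) E} (hρ : KR.SmallRep S (fun g => ρ g))
    {b : Matrix (Fin n) (Fin n) E} (hb : b.det ≠ 0) (hbs : bᵀ = b) {χ : G → ℤ_[2]} {κ : G →* G}
    (hd : ∀ g x y, bil b (ρ g *ᵥ x) (ρ (κ g) *ᵥ y) = toE E (χ g) * bil b x y)
    {Ω : Type v} [NormedField Ω] [NormedAlgebra ℚ_[2] Ω] [Algebra.IsAlgebraic ℚ_[2] Ω]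
    [IsAlgClosed Ω] (ι : E →ₐ[ℚ_[2]] Ω) :
    ∃ A A' : Matrix (Fin n) (Fin n) Ω, Good (fun g => (ρ g).map ι) (b.map ι) A A' := by
  obtain ⟨l, hl0, hl1, hlm⟩ := GP.exists_unif E
  obtain ⟨E', i1, i2, i3, ι', m', hx⟩ := LX.exists_sqrtExt hl0 hl1 hlm
  obtain ⟨T', hst, hdual, hbdd, hopn⟩ := LX.exists_lat_sqrt hρ hb hbs hd hl0 hl1 hlm hx
  obtain ⟨t, ht1, ht2, ht3⟩ := GP.exists_func E'
  have hsym : (b.map ι')ᵀ = b.map ι' := by rw [← Matrix.transpose_map, hbs]
  have hlat : GP.Lat (b.map ι') (⟨m', (hx.lt hl1).le⟩ : GP.OE E') t T' :=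
    ⟨hx.ne hl0, hx.lt hl1, hx.max hl0 hl1 hlm, ht1, ht2, ht3, hsym, hdual, hbdd, hopn⟩
  obtain ⟨Q, R, hRQ, hQR, hL, hM, hdet⟩ := PL.exists_bas hlat
  -- the embedding of `E'` in `Ω`
  obtain ⟨j, hj⟩ : ∃ j : E' →ₐ[ℚ_[2]] Ω, ∀ x, j (ι' x) = ι x := by
    letI : Algebra E E' := ι'.toRingHom.toAlgebra
    letI : Algebra E Ω := ι.toRingHom.toAlgebra
    haveI : IsScalarTower ℚ_[2] E E' := IsScalarTower.of_algebraMap_eq fun x => (ι'.commutes x).symm
    haveI : IsScalarTower ℚ_[2] E Ω := IsScalarTower.of_algebraMap_eq fun x => (ι.commutes x).symm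
    haveI : Module.Finite E E' := Module.Finite.of_restrictScalars_finite ℚ_[2] E E'
    refine ⟨(IsAlgClosed.lift (R := E) (S := E') (M := Ω)).restrictScalars ℚ_[2], fun x => ?_⟩
    exact (IsAlgClosed.lift (R := E) (S := E') (M := Ω)).commutes x
  have hn : ∀ x, ‖j x‖ = ‖x‖ := fun x => norm_map_eq j x
  have hmm : ∀ M N : Matrix (Fin n) (Fin n) E', (M * N).map j = M.map j * N.map j := fun M N =>
    Matrix.map_mul
  have h1 : (1 : Matrix (Fin n) (Fin n) E').map j = 1 := Matrix.map_one _ (map_zero _) (map_one _)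
  have hcomp : ∀ M : Matrix (Fin n) (Fin n) E, (M.map ι').map j = M.map ι := by
    intro M
    ext i k
    simp only [Matrix.map_apply, hj]
  have hQL : ∀ k, Q *ᵥ Pi.single k 1 ∈ T' := by
    intro k
    rw [hL, Matrix.mulVec_mulVec, hRQ, Matrix.one_mulVec]
    intro i
    by_cases hik : i = k
    · subst hik
      rw [Pi.single_eq_same, norm_one]
    · rw [Pi.single_eq_of_ne hik, norm_zero]
      exact zero_le_one
  have hG : (Q.map j)ᵀ * b.map ι * Q.map j = (Qᵀ * b.map ι' * Q).map j := by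
    rw [hmm, hmm, hcomp, Matrix.transpose_map]
  refine ⟨Q.map j, R.map j, ?_, ?_, fun g i k => ?_, fun i k => ?_, ?_⟩
  · rw [← hmm, hQR, h1]
  · rw [← hmm, hRQ, h1]
  · have h2 : R.map j * (ρ g).map ι * Q.map j = (R * (ρ g).map ι' * Q).map j := by
      rw [hmm, hmm, hcomp]
    show ‖(R.map j * (ρ g).map ι * Q.map j) i k‖ ≤ 1
    rw [h2, Matrix.map_apply, hn]
    have h3 := (hL _).1 (hst g _ (hQL k)) i
    rw [LX.mapRep_apply, Matrix.mulVec_mulVec, Matrix.mulVec_mulVec, Matrix.mulVec_single_one,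
      Matrix.mul_assoc] at h3
    rw [Matrix.mul_assoc]
    exact h3
  · rw [hG, Matrix.map_apply, hn]
    exact hM i k
  · have h2 : ((Qᵀ * b.map ι' * Q).map j).det = j (Qᵀ * b.map ι' * Q).det :=
      (AlgHom.map_det j _).symm
    rw [hG, h2, hn]
    exact hdet

end Pool.Agent.Work.MP_787500_nt.RB
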