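import Mathlib
import Pool.Agent.Work.MP_787500_nt.RB.Res

/-!
# RB/LiftC (size S-M): the lift of `C` (MATRICES ONLY)

`F = Aᵀ * b * A` is integral with `‖det F‖ = 1`, so `F' = (det F)⁻¹ • adjugate F` is integral and `F * F' = 1`. `M₀ = F.map rd * C₀` satisfies
`x ⬝ᵥ M₀ *ᵥ x = 0` for all `x`: its diagonal is 0 and `M₀ i j + M₀ j i = 0` (take `x = e_i`, `x = e_i + e_j`). Lift: choose integral `c i j` with
`rd (c i j) = M₀ i j`, `M i j = c i j` for `i < j`, `M i i = 0`, `M j i = - c i j` for `i < j`: `Mᵀ = - M`, `M` integral, `M.map rd = M₀`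
(`rd (-x) = - rd x` for integral `x`). Put `C = F' * M`: integral, `F * C = M`, `C.map rd = C₀` (because `F.map rd` is invertible:
`F.map rd * C.map rd = M₀ = F.map rd * C₀`). `sq`, `com`: an integral matrix with reduction 0 has entries of norm `< 1` (`hr.zero`).
-/

set_option autoImplicit false
set_option linter.unusedSectionVars false

namespace Pool.Agent.Work.MP_787500_nt.RB

open Matrix Module

variable {Ω : Type*} [NormedField Ω] [NormedAlgebra ℚ_[2] Ω] {k : Type*} [Field k]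
  {rd : Ω → k} {G : Type*} [Group G] {κ : G →* G} {n : ℕ} {ρ : G →* Matrix (Fin n) (Fin n) Ω}
  {b A A' : Matrix (Fin n) (Fin n) Ω}

private theorem norm_det_le {M : Matrix (Fin n) (Fin n) Ω} (hM : Int M) : ‖M.det‖ ≤ 1 := by
  rw [Matrix.det_apply]
  refine norm_sum_le _ _ fun σ _ => ?_
  have h1 : ‖(Equiv.Perm.sign σ : ℤˣ) • ∏ i, M (σ i) i‖ = ‖∏ i, M (σ i) i‖ := by
    rcases _root_.Int.units_eq_one_or (Equiv.Perm.sign σ) with h | h <;> rw [h] <;> simp
  rw [h1, norm_prod]
  exact Finset.prod_le_one (fun _ _ => norm_nonneg _) (fun i _ => hM _ _)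

private theorem int_adj {M : Matrix (Fin n) (Fin n) Ω} (hM : Int M) : Int M.adjugate := by
  intro i j
  rw [Matrix.adjugate_apply]
  refine norm_det_le fun a c => ?_
  by_cases h : a = j
  · subst h
    rw [Matrix.updateRow_self, Pi.single_apply]
    split_ifs
    · simp
    · simp
  · rw [Matrix.updateRow_ne h]
    exact hM a c

private theorem rd_neg (hr : Red rd) {x : Ω} (hx : ‖x‖ ≤ 1) : rd (-x) = - rd x := by
  have h1 := hr.add x (-x) hx (by rwa [norm_neg])
  rw [add_neg_cancel, hr.map_zero] at h1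
  exact (neg_eq_of_add_eq_zero_right h1.symm).symm

private theorem lt_of_red (hr : Red rd) {X Y : Matrix (Fin n) (Fin n) Ω} (hX : Int X) (hY : Int Y)
    (h : X.map rd = Y.map rd) (i j : Fin n) : ‖(X - Y) i j‖ < 1 := by
  have hu := Gn.ultra 2 Ω
  have hn : ‖-(Y i j)‖ ≤ 1 := by
    rw [norm_neg]
    exact hY i j
  have h1 : ‖X i j + -(Y i j)‖ ≤ 1 :=
    (IsUltrametricDist.norm_add_le_max _ _).trans (max_le (hX i j) hn)
  rw [Matrix.sub_apply, sub_eq_add_neg]
  refine (hr.zero _ h1).1 ?_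
  rw [hr.add _ _ (hX i j) hn, rd_neg hr (hY i j)]
  have h2 : rd (X i j) = rd (Y i j) := congrFun (congrFun h i) j
  rw [h2, add_neg_cancel]

private theorem skew_of_alt {M : Matrix (Fin n) (Fin n) k}
    (h : ∀ x : Fin n → k, x ⬝ᵥ (M *ᵥ x) = 0) :
    (∀ i, M i i = 0) ∧ ∀ i j, M i j = - M j i := by
  have hs : ∀ i j, (Pi.single i (1 : k) : Fin n → k) ⬝ᵥ (M *ᵥ Pi.single j 1) = M i j := by
    intro i j
    simp
  have h0 : ∀ i, M i i = 0 := fun i => by rw [← hs i i, h]
  refine ⟨h0, fun i j => ?_⟩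
  have h1 := h (Pi.single i 1 + Pi.single j 1)
  rw [Matrix.mulVec_add, dotProduct_add, add_dotProduct, add_dotProduct, hs, hs, hs, hs, h0, h0,
    zero_add, add_zero] at h1
  exact eq_neg_of_add_eq_zero_right h1

theorem exists_goodC (hr : Red rd) (h : Good (fun g => ρ g) b A A')
    {C₀ : Matrix (Fin n) (Fin n) k} (h2 : C₀ * C₀ = 1)
    (hc : ∀ g, C₀ * resR hr h (κ g) = resR hr h g * C₀)
    (ha : ∀ x : Fin n → k, x ⬝ᵥ ((Aᵀ * b * A).map rd *ᵥ (C₀ *ᵥ x)) = 0) :
    ∃ C : Matrix (Fin n) (Fin n) Ω, GoodC κ (fun g => ρ g) b A A' C := by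
  have hF : Int (Aᵀ * b * A) := h.un
  have hd : (Aᵀ * b * A).det ≠ 0 := by
    intro h0
    have h1 := h.det
    rw [h0, norm_zero] at h1
    exact zero_ne_one h1
  have hF'i : Int ((Aᵀ * b * A).det⁻¹ • (Aᵀ * b * A).adjugate) := by
    intro i j
    rw [Matrix.smul_apply, smul_eq_mul, norm_mul, norm_inv, h.det, inv_one, one_mul]
    exact int_adj hF i j
  have hFF' : (Aᵀ * b * A) * ((Aᵀ * b * A).det⁻¹ • (Aᵀ * b * A).adjugate) = 1 := by
    rw [Matrix.mul_smul, Matrix.mul_adjugate, smul_smul, inv_mul_cancel₀ hd, one_smul]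
  have hF'F : ((Aᵀ * b * A).det⁻¹ • (Aᵀ * b * A).adjugate) * (Aᵀ * b * A) = 1 := by
    rw [Matrix.smul_mul, Matrix.adjugate_mul, smul_smul, inv_mul_cancel₀ hd, one_smul]
  generalize hFdef : Aᵀ * b * A = F at *
  generalize F.det⁻¹ • F.adjugate = F' at *
  obtain ⟨h0, hsk⟩ := skew_of_alt (M := F.map rd * C₀) (fun x => by
    rw [← Matrix.mulVec_mulVec]
    exact ha x)
  choose c hc1 hc2 using fun i j => hr.surj ((F.map rd * C₀) i j)
  let M : Matrix (Fin n) (Fin n) Ω := fun i j => if i < j then c i j else if j < i then - c j i else 0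
  have hMi : Int M := by
    intro i j
    change ‖(if i < j then c i j else if j < i then - c j i else 0)‖ ≤ 1
    split_ifs
    · exact hc1 i j
    · rw [norm_neg]
      exact hc1 j i
    · simp
  have hMt : Mᵀ = - M := by
    ext i j
    change (if j < i then c j i else if i < j then - c i j else 0) =
      -(if i < j then c i j else if j < i then - c j i else 0)
    rcases lt_trichotomy i j with h1 | h1 | h1
    · rw [if_neg h1.not_gt, if_pos h1, if_pos h1]
    · subst h1
      rw [if_neg (lt_irrefl _), if_neg (lt_irrefl _), neg_zero]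
    · rw [if_pos h1, if_neg h1.not_gt, if_pos h1, neg_neg]
  have hMr : M.map rd = F.map rd * C₀ := by
    ext i j
    change rd (if i < j then c i j else if j < i then - c j i else 0) = _
    rcases lt_trichotomy i j with h1 | h1 | h1
    · rw [if_pos h1, hc2]
    · subst h1
      rw [if_neg (lt_irrefl _), if_neg (lt_irrefl _), hr.map_zero, h0]
    · rw [if_neg h1.not_gt, if_pos h1, rd_neg hr (hc1 j i), hc2, hsk i j]
  have hCi : Int (F' * M) := int_mul hF'i hMi
  have hCr : (F' * M).map rd = C₀ := by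
    rw [red_mul hr hF'i hMi, hMr, ← Matrix.mul_assoc, ← red_mul hr hF'i hF, hF'F, red_one hr,
      one_mul]
  have hFC : F * (F' * M) = M := by
    rw [← Matrix.mul_assoc, hFF', one_mul]
  refine ⟨F' * M, h, hCi, ?_, ?_, ?_⟩
  · intro i j
    refine lt_of_red hr (int_mul hCi hCi) int_one ?_ i j
    rw [red_mul hr hCi hCi, hCr, h2, red_one hr]
  · intro g i j
    refine lt_of_red hr (int_mul hCi (h.st (κ g))) (int_mul (h.st g) hCi) ?_ i j
    rw [red_mul hr hCi (h.st (κ g)), red_mul hr (h.st g) hCi, hCr]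
    exact hc g
  · rw [hFdef, hFC]
    exact hMt

end Pool.Agent.Work.MP_787500_nt.RB
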