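import Mathlib
import Pool.Agent.Work.MP_787500_nt.RB.Defs

/-!
# RB/Basic (size M, ANYBODY): elementary facts on subrepresentations and twisted forms

Only linear algebra. `κ (κ g) = g`.
* `exists_irrS_le`: a stable subspace `≠ ⊥` of minimal dimension (`Nat.find` or well-foundedness of `finrank`) inside `W`.
* `irr_sub`: `W' ↦ W'.map W.subtype`. `ss_sub`: for a stable `X ≤ W` (image in `V`) take a stable complement `X'` in `V`; `X' ⊓ W` is a
  complement in `W` (modular law). `ss_irr`: if `ρ` is semisimple and `W` stable, `≠ ⊥`.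
* `irr_comp`, `ss_comp`, `stab_comp`: `κ` is surjective (`g = κ (κ g)`), so the stable subspaces of `ρ.comp κ` are those of `ρ`.
* `orth B W = {y | ∀ x ∈ W, B x y = 0}` is Mathlib's `B.orthogonal W`. `stab_orth`: `B x (ρ g y) = B (ρ (κ g) (ρ (κ g)⁻¹ x)) (ρ g y)
  = B (ρ (κ g)⁻¹ x) y` by `dual` for `κ g`.
* `isCompl_orth`: Mathlib `LinearMap.BilinForm.isCompl_orthogonal_of_restrict_nondegenerate` (`B` is reflexive because symmetric).
* `finrank_orth`: `LinearMap.BilinForm.finrank_orthogonal` for nondegenerate reflexive `B`.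
* `orth_orth`. `nondeg_orth`: if `B` is nondegenerate on `X` (and on `V`) then it is nondegenerate on `X^⊥`.
* `charpoly_split`: `(X.prodEquivOfIsCompl Y hc)` conjugates `(sub X g).prodMap (sub Y g)` to `ρ g`; `LinearMap.charpoly_prodMap`,
  `LinearEquiv.charpoly_conj`.
-/

set_option autoImplicit false
set_option linter.unusedSectionVars false

namespace Pool.Agent.Work.MP_787500_nt.RB

open Matrix Module

variable {G : Type*} [Group G] {k : Type*} [Field k] {V V' : Type*} [AddCommGroup V] [Module k V]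
  [AddCommGroup V'] [Module k V'] {κ : G →* G} {ρ : Representation k G V}
  {B : LinearMap.BilinForm k V}

theorem exists_irrS_le [FiniteDimensional k V] {W : Submodule k V} (hW : Stab ρ W) (h0 : W ≠ ⊥) :
    ∃ W' : Submodule k V, W' ≤ W ∧ IrrS ρ W' := by
  induction hn : finrank k W using Nat.strong_induction_on generalizing W with
  | _ n ih =>
    by_cases h : ∀ W' : Submodule k V, Stab ρ W' → W' ≤ W → W' = ⊥ ∨ W' = W
    · exact ⟨W, le_rfl, hW, h0, h⟩
    · push Not at h
      obtain ⟨W', h1, h2, h3, h4⟩ := h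
      have h5 : finrank k W' < n := hn ▸ Submodule.finrank_lt_finrank_of_lt (lt_of_le_of_ne h2 h4)
      obtain ⟨W'', h6, h7⟩ := ih _ h5 h1 h3 rfl
      exact ⟨W'', h6.trans h2, h7⟩

private theorem stab_map {W : Submodule k V} (hW : Stab ρ W) {U : Submodule k W}
    (hU : Stab (sub ρ W hW) U) : Stab ρ (U.map W.subtype) := by
  rintro g _ ⟨u, hu, rfl⟩
  exact ⟨sub ρ W hW g u, hU g u hu, rfl⟩

private theorem stab_comap {W : Submodule k V} (hW : Stab ρ W) {X : Submodule k V}
    (hX : Stab ρ X) : Stab (sub ρ W hW) (X.comap W.subtype) := fun g x hx => hX g x hx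

theorem irr_sub {W : Submodule k V} (h : IrrS ρ W) : Irr (sub ρ W h.1) := by
  refine ⟨?_, fun U hU => ?_⟩
  · obtain ⟨x, hx, h0⟩ := (Submodule.ne_bot_iff W).1 h.2.1
    exact ⟨⟨x, hx⟩, fun h1 => h0 (congrArg Subtype.val h1)⟩
  · rcases h.2.2 _ (stab_map h.1 hU) (Submodule.map_subtype_le W U) with h1 | h1
    · left
      refine Submodule.map_injective_of_injective W.subtype_injective ?_
      rw [h1, Submodule.map_bot]
    · right
      refine Submodule.map_injective_of_injective W.subtype_injective ?_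
      rw [h1, Submodule.map_subtype_top]

theorem irrS_of_irr {W : Submodule k V} (hW : Stab ρ W) (h : Irr (sub ρ W hW)) : IrrS ρ W := by
  obtain ⟨⟨x, hx⟩, h2⟩ := h
  refine ⟨hW, ?_, fun W' h3 h4 => ?_⟩
  · refine (Submodule.ne_bot_iff W).2 ⟨x, x.2, fun h5 => hx (Subtype.ext h5)⟩
  · have h5 := Submodule.map_comap_subtype W W'
    rw [inf_eq_right.2 h4] at h5
    rcases h2 _ (stab_comap hW h3) with h6 | h6
    · left
      rw [← h5, h6, Submodule.map_bot]
    · right
      rw [← h5, h6, Submodule.map_subtype_top]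

theorem ss_sub (h : Ss ρ) {W : Submodule k V} (hW : Stab ρ W) : Ss (sub ρ W hW) := by
  intro U hU
  obtain ⟨X', hX', hc⟩ := h _ (stab_map hW hU)
  refine ⟨_, stab_comap hW hX', ?_, ?_⟩
  · rw [Submodule.disjoint_def]
    intro x hx hx'
    exact Subtype.ext ((Submodule.disjoint_def.1 hc.1) x ⟨x, hx, rfl⟩ hx')
  · rw [codisjoint_iff, eq_top_iff]
    intro w _
    have h1 : (w : V) ∈ U.map W.subtype ⊔ X' := by
      rw [codisjoint_iff.1 hc.2]
      exact Submodule.mem_top
    obtain ⟨_, ⟨u, hu, rfl⟩, x', hx', h2⟩ := Submodule.mem_sup.1 h1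
    refine Submodule.mem_sup.2 ⟨u, hu, w - u, ?_, add_sub_cancel u w⟩
    show (w : V) - u ∈ X'
    rw [← h2]
    show (u : V) + x' - u ∈ X'
    rw [add_sub_cancel_left]
    exact hx'

theorem stab_sup {W W' : Submodule k V} (h : Stab ρ W) (h' : Stab ρ W') : Stab ρ (W ⊔ W') := by
  intro g x hx
  obtain ⟨a, ha, b, hb, rfl⟩ := Submodule.mem_sup.1 hx
  rw [map_add]
  exact Submodule.mem_sup.2 ⟨_, h g a ha, _, h' g b hb, rfl⟩

theorem stab_inf {W W' : Submodule k V} (h : Stab ρ W) (h' : Stab ρ W') : Stab ρ (W ⊓ W') := by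
  exact fun g x hx => ⟨h g x hx.1, h' g x hx.2⟩

private theorem stab_of_comp (hκ : ∀ g, κ (κ g) = g) {W : Submodule k V}
    (h : Stab (ρ.comp κ) W) : Stab ρ W := by
  intro g x hx
  have h1 := h (κ g) x hx
  rwa [MonoidHom.comp_apply, hκ] at h1

private theorem comp_stab {W : Submodule k V} (h : Stab ρ W) : Stab (ρ.comp κ) W :=
  fun g x hx => h (κ g) x hx

theorem irr_comp (hκ : ∀ g, κ (κ g) = g) (h : Irr ρ) : Irr (ρ.comp κ) := by
  exact ⟨h.1, fun W hW => h.2 W (stab_of_comp hκ hW)⟩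

theorem ss_comp (hκ : ∀ g, κ (κ g) = g) (h : Ss ρ) : Ss (ρ.comp κ) := by
  intro W hW
  obtain ⟨W', h1, h2⟩ := h W (stab_of_comp hκ hW)
  exact ⟨W', comp_stab h1, h2⟩

theorem stab_orth (hκ : ∀ g, κ (κ g) = g) (hB : TwForm κ ρ B) {W : Submodule k V} (hW : Stab ρ W) :
    Stab ρ (B.orthogonal W) := by
  intro g y hy x hx
  have h1 := hB.dual (κ g) (ρ (κ g)⁻¹ x) y
  have h2 : ρ (κ g) (ρ (κ g)⁻¹ x) = x := by
    rw [← Module.End.mul_apply, ← map_mul, mul_inv_cancel, map_one, Module.End.one_apply]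
  rw [hκ, h2] at h1
  rw [h1]
  exact hy _ (hW _ _ hx)

theorem mem_orth {W : Submodule k V} {y : V} : y ∈ B.orthogonal W ↔ ∀ x ∈ W, B x y = 0 := by
  exact Iff.rfl

private theorem isRefl (hB : TwForm κ ρ B) : B.IsRefl := fun x y h => by rw [hB.symm]; exact h

private theorem nondeg (hB : TwForm κ ρ B) : B.Nondegenerate :=
  ⟨hB.nondeg, fun y hy => hB.nondeg y fun x => by rw [hB.symm]; exact hy x⟩

theorem isCompl_orth [FiniteDimensional k V] (hB : TwForm κ ρ B) {X : Submodule k V}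
    (h : ∀ x ∈ X, (∀ y ∈ X, B x y = 0) → x = 0) : IsCompl X (B.orthogonal X) := by
  refine LinearMap.BilinForm.isCompl_orthogonal_of_restrict_nondegenerate (isRefl hB) ⟨?_, ?_⟩
  · exact fun x hx => Subtype.ext (h x x.2 fun y hy => hx ⟨y, hy⟩)
  · refine fun x hx => Subtype.ext (h x x.2 fun y hy => ?_)
    rw [hB.symm]
    exact hx ⟨y, hy⟩

theorem finrank_orth [FiniteDimensional k V] (hB : TwForm κ ρ B) (W : Submodule k V) :
    finrank k W + finrank k (B.orthogonal W) = finrank k V := by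
  rw [LinearMap.BilinForm.finrank_orthogonal (nondeg hB)]
  exact Nat.add_sub_cancel' (Submodule.finrank_le W)

theorem nondeg_orth [FiniteDimensional k V] (hB : TwForm κ ρ B) {X : Submodule k V}
    (h : ∀ x ∈ X, (∀ y ∈ X, B x y = 0) → x = 0) :
    ∀ x ∈ B.orthogonal X, (∀ y ∈ B.orthogonal X, B x y = 0) → x = 0 := by
  intro x hx h1
  refine hB.nondeg x fun z => ?_
  have h2 : z ∈ X ⊔ B.orthogonal X := by
    rw [codisjoint_iff.1 (isCompl_orth hB h).2]
    exact Submodule.mem_top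
  obtain ⟨a, ha, b, hb, rfl⟩ := Submodule.mem_sup.1 h2
  rw [map_add, h1 b hb, add_zero, hB.symm]
  exact hx a ha

theorem twForm_sub (hB : TwForm κ ρ B) {X : Submodule k V} (hX : Stab ρ X)
    (h : ∀ x ∈ X, (∀ y ∈ X, B x y = 0) → x = 0) : TwForm κ (sub ρ X hX) (B.restrict X) := by
  exact ⟨fun x y => hB.symm x y, fun x hx => Subtype.ext (h x x.2 fun y hy => hx ⟨y, hy⟩),
    fun g x y => hB.dual g x y⟩

theorem restrict_apply {X : Submodule k V} (x y : X) : B.restrict X x y = B x y := by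
  rfl

theorem charpoly_split [FiniteDimensional k V] {X Y : Submodule k V} (hX : Stab ρ X)
    (hY : Stab ρ Y) (hc : IsCompl X Y) (g : G) :
    LinearMap.charpoly (ρ g) =
      LinearMap.charpoly (sub ρ X hX g) * LinearMap.charpoly (sub ρ Y hY g) := by
  rw [← LinearMap.charpoly_prodMap, ← LinearEquiv.charpoly_conj (X.prodEquivOfIsCompl Y hc)]
  congr 1
  refine LinearMap.ext fun v => ?_
  obtain ⟨⟨x, y⟩, rfl⟩ := (X.prodEquivOfIsCompl Y hc).surjective v
  rw [LinearEquiv.conj_apply_apply, LinearEquiv.symm_apply_apply]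
  show ρ g ((x : V) + y) = (ρ g x : V) + ρ g y
  rw [map_add]

theorem charpoly_eqv [FiniteDimensional k V] [FiniteDimensional k V'] {ρ' : Representation k G V'}
    (h : Eqv ρ ρ') (g : G) : LinearMap.charpoly (ρ g) = LinearMap.charpoly (ρ' g) := by
  obtain ⟨φ, h⟩ := h
  rw [← LinearEquiv.charpoly_conj φ]
  congr 1
  refine LinearMap.ext fun v => ?_
  rw [LinearEquiv.conj_apply_apply, h, LinearEquiv.apply_symm_apply]

end Pool.Agent.Work.MP_787500_nt.RB
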