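import Mathlib
import Pool.Agent.Work.MP_787500_nt.RB.Res

/-!
# RB/Lat (size M): a good basis that realises a degeneration (MATRICES ONLY)

Lift the entries of `P` to elements of norm `≤ 1` (`hr.surj`): `Q` integral with `Q.map rd = P`. `det Q` has residue `det P ≠ 0`
(the determinant of an integral matrix reduces to the determinant: `rd` is a ring homomorphism on the subring `{‖x‖ ≤ 1}`), so
`‖det Q‖ = 1` (`hr.zero`), and `Q' = (det Q)⁻¹ • adjugate Q` is integral, `Q * Q' = 1`, `Q'.map rd = P'`. `A₂ = A * Q`, `A₂' = Q' * A'` is good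
with residual representation `P' * R g * P` and residual form `Pᵀ * B * P` (`red_mul`). Let `N` be a bound for all `|a i|`.
`hd` with `s` = the entries of `A₂`, `A₂'`, `b`: all entries of `A₂' * ρ g * A₂` and of `A₂ᵀ * b * A₂` are in the subring, so if such an
entry has norm `< 1` it has norm `≤ r`. Choose `w : Ω` with `‖w‖ < 1` and `r < ‖w‖ ^ (2 * N + 1)`: `w ^ M = 2` (`Ω` algebraically closed,
`IsAlgClosed.exists_pow_nat_eq`), `‖w‖ = ‖2‖ ^ (1 / M)` tends to 1. `A₁ = A₂ * diagonal (w ^ a i)`, `A₁' = diagonal (w ^ (- a i)) * A₂'`.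
Entry `i j` of `A₁' * ρ g * A₁`: `w ^ (a j - a i) * x`, `x` = entry of `A₂' * ρ g * A₂`. If `a i = a j`: the entry is `x`. If `a i < a j`: norm
`≤ ‖w‖ < 1`, residue 0. If `a j < a i`: `rd x = 0` by `h1`, `‖x‖ ≤ r`, norm `≤ ‖w‖ ^ (- 2 N) * r < 1`. Entry of the form: `w ^ (a i + a j) * y`, the
same with `h2`. So the reductions are `grM a _` and `grB a _`. The determinant of `A₁ᵀ * b * A₁` has residue `det (grB ..) ≠ 0`, so it
has norm 1.
-/

set_option autoImplicit false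
set_option linter.unusedSectionVars false

namespace Pool.Agent.Work.MP_787500_nt.RB

open Matrix

section aux

variable {Ω : Type*} [NormedField Ω] [NormedAlgebra ℚ_[2] Ω] {k : Type*} [Field k] {rd : Ω → k}

/-- the subring of the integral elements -/
private def OO (Ω : Type*) [NormedField Ω] [NormedAlgebra ℚ_[2] Ω] : Subring Ω where
  carrier := {x | ‖x‖ ≤ 1}
  mul_mem' := by
    intro a b ha hb
    have ha' : ‖a‖ ≤ 1 := ha
    have hb' : ‖b‖ ≤ 1 := hb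
    change ‖a * b‖ ≤ 1
    rw [norm_mul]
    exact mul_le_one₀ ha' (norm_nonneg _) hb'
  one_mem' := by
    change ‖(1 : Ω)‖ ≤ 1
    simp
  add_mem' := by
    intro a b ha hb
    have ha' : ‖a‖ ≤ 1 := ha
    have hb' : ‖b‖ ≤ 1 := hb
    have hu := Gn.ultra 2 Ω
    exact (IsUltrametricDist.norm_add_le_max a b).trans (max_le ha' hb')
  zero_mem' := by
    change ‖(0 : Ω)‖ ≤ 1
    simp
  neg_mem' := by
    intro a ha
    have ha' : ‖a‖ ≤ 1 := ha
    change ‖-a‖ ≤ 1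
    rwa [norm_neg]

/-- reduction as a ring homomorphism -/
private def rdO (hr : Red rd) : OO Ω →+* k where
  toFun x := rd x
  map_one' := hr.one
  map_mul' x y := hr.mul _ _ x.2 y.2
  map_zero' := hr.map_zero
  map_add' x y := hr.add _ _ x.2 y.2

private theorem exists_O {n : ℕ} {M : Matrix (Fin n) (Fin n) Ω} (hM : Int M) :
    ∃ M' : Matrix (Fin n) (Fin n) (OO Ω), M = (OO Ω).subtype.mapMatrix M' :=
  ⟨Matrix.of fun i j => ⟨M i j, hM i j⟩, by ext i j; rfl⟩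

private theorem det_red (hr : Red rd) {n : ℕ} {M : Matrix (Fin n) (Fin n) Ω} (hM : Int M) :
    ‖M.det‖ ≤ 1 ∧ rd M.det = (M.map rd).det := by
  obtain ⟨M', rfl⟩ := exists_O hM
  have h1 : ((OO Ω).subtype.mapMatrix M').det = ((M'.det : OO Ω) : Ω) :=
    (RingHom.map_det (OO Ω).subtype M').symm
  rw [h1]
  refine ⟨M'.det.2, ?_⟩
  have h2 : ((OO Ω).subtype.mapMatrix M').map rd = (rdO hr).mapMatrix M' := by
    ext i j; rfl
  rw [h2, ← RingHom.map_det]
  rfl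

private theorem int_adj {n : ℕ} {M : Matrix (Fin n) (Fin n) Ω} (hM : Int M) : Int M.adjugate := by
  obtain ⟨M', rfl⟩ := exists_O hM
  rw [← RingHom.map_adjugate]
  intro i j
  exact (M'.adjugate i j).2

private theorem lift_inv (hr : Red rd) {n : ℕ} {P P' : Matrix (Fin n) (Fin n) k}
    (hP : P * P' = 1) :
    ∃ Q Q' : Matrix (Fin n) (Fin n) Ω, Int Q ∧ Int Q' ∧ Q * Q' = 1 ∧ Q.map rd = P ∧
      Q'.map rd = P' := by
  choose f hf1 hf2 using hr.surj
  obtain ⟨Q, hQdef⟩ : ∃ Q : Matrix (Fin n) (Fin n) Ω, ∀ i j, Q i j = f (P i j) :=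
    ⟨Matrix.of fun i j => f (P i j), fun i j => rfl⟩
  have hQ : Int Q := fun i j => by rw [hQdef]; exact hf1 _
  have hQr : Q.map rd = P := by
    ext i j
    rw [Matrix.map_apply, hQdef]
    exact hf2 _
  have hPd : P.det ≠ 0 := by
    intro h0
    have h := congrArg Matrix.det hP
    rw [Matrix.det_mul, h0, zero_mul, Matrix.det_one] at h
    exact zero_ne_one h
  obtain ⟨h1, h2⟩ := det_red hr hQ
  rw [hQr] at h2
  have h3 : ‖Q.det‖ = 1 := by
    refine le_antisymm h1 (not_lt.1 fun h => hPd ?_)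
    rw [← h2]
    exact (hr.zero _ h1).2 h
  have h4 : Q.det ≠ 0 := by
    rw [← norm_ne_zero_iff, h3]
    exact one_ne_zero
  have hQ' : Int ((Q.det)⁻¹ • Q.adjugate) := by
    intro i j
    rw [Matrix.smul_apply, smul_eq_mul, norm_mul, norm_inv, h3, inv_one, one_mul]
    exact int_adj hQ i j
  have hQQ : Q * ((Q.det)⁻¹ • Q.adjugate) = 1 := by
    rw [Matrix.mul_smul, Matrix.mul_adjugate, smul_smul, inv_mul_cancel₀ h4, one_smul]
  refine ⟨Q, (Q.det)⁻¹ • Q.adjugate, hQ, hQ', hQQ, hQr, ?_⟩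
  have h5 : P * ((Q.det)⁻¹ • Q.adjugate).map rd = 1 := by
    rw [← hQr, ← red_mul hr hQ hQ', hQQ, red_one hr]
  have h6 : P' * P = 1 := mul_eq_one_comm.1 hP
  calc ((Q.det)⁻¹ • Q.adjugate).map rd
      = (P' * P) * ((Q.det)⁻¹ • Q.adjugate).map rd := by rw [h6, Matrix.one_mul]
    _ = P' * (P * ((Q.det)⁻¹ • Q.adjugate).map rd) := Matrix.mul_assoc _ _ _
    _ = P' := by rw [h5, Matrix.mul_one]

/-- an element of norm close to 1 -/
private theorem exists_w [IsAlgClosed Ω] {r : ℝ} (hr0 : 0 < r) (hr1 : r < 1) (N : ℕ) :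
    ∃ w : Ω, w ≠ 0 ∧ ‖w‖ < 1 ∧ r < ‖w‖ ^ N := by
  have h2 : ‖(2 : Ω)‖ = 2⁻¹ := by
    have h : ‖(algebraMap ℚ_[2] Ω) 2‖ = ‖(2 : ℚ_[2])‖ := norm_algebraMap' Ω (2 : ℚ_[2])
    rw [map_ofNat] at h
    rw [h]
    have := Padic.norm_p (p := 2)
    simpa using this
  obtain ⟨M, hM⟩ := exists_pow_lt_of_lt_one (show (0 : ℝ) < 2⁻¹ ^ N by positivity) hr1
  obtain ⟨w, hw⟩ := IsAlgClosed.exists_pow_nat_eq (2 : Ω) (Nat.succ_pos M)
  have hw1 : ‖w‖ ^ (M + 1) = 2⁻¹ := by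
    rw [← norm_pow, hw, h2]
  have hw0 : w ≠ 0 := by
    rintro rfl
    rw [norm_zero, zero_pow (Nat.succ_ne_zero M)] at hw1
    norm_num at hw1
  refine ⟨w, hw0, ?_, ?_⟩
  · by_contra hc
    have h3 := one_le_pow₀ (n := M + 1) (not_lt.1 hc)
    rw [hw1] at h3
    norm_num at h3
  · refine lt_of_pow_lt_pow_left₀ (M + 1) (by positivity) ?_
    rw [← pow_mul, mul_comm N, pow_mul, hw1]
    refine lt_of_le_of_lt ?_ hM
    exact pow_le_pow_of_le_one hr0.le hr1.le (Nat.le_succ M)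

private theorem twist (hr : Red rd) {w v : Ω} {r : ℝ} {N : ℕ} (hw0 : w ≠ 0) (hw1 : ‖w‖ < 1)
    (hw : r < ‖w‖ ^ N) {c : ℤ} (hc : -(N : ℤ) ≤ c) (hv : ‖v‖ ≤ 1) (h : c < 0 → ‖v‖ ≤ r) :
    ‖w ^ c * v‖ ≤ 1 ∧ rd (w ^ c * v) = if c = 0 then rd v else 0 := by
  have hn : 0 < ‖w‖ := norm_pos_iff.2 hw0
  rcases lt_trichotomy c 0 with h0 | h0 | h0
  · have h1 : ‖w ^ c * v‖ < 1 := by
      rw [norm_mul, norm_zpow]
      have h2 : ‖w‖ ^ c * ‖w‖ ^ N ≤ 1 := by
        rw [← zpow_natCast, ← zpow_add₀ hn.ne']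
        obtain ⟨m, hm⟩ := Int.eq_ofNat_of_zero_le (show 0 ≤ c + (N : ℤ) by omega)
        rw [hm, zpow_natCast]
        exact pow_le_one₀ hn.le hw1.le
      have h3 : 0 < ‖w‖ ^ c := zpow_pos hn c
      calc ‖w‖ ^ c * ‖v‖ ≤ ‖w‖ ^ c * r := mul_le_mul_of_nonneg_left (h h0) h3.le
        _ < ‖w‖ ^ c * ‖w‖ ^ N := mul_lt_mul_of_pos_left hw h3
        _ ≤ 1 := h2
    refine ⟨h1.le, ?_⟩
    rw [if_neg h0.ne]
    exact (hr.zero _ h1.le).2 h1
  · subst h0
    simp [hv]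
  · have h1 : ‖w ^ c * v‖ < 1 := by
      rw [norm_mul, norm_zpow]
      obtain ⟨m, hm⟩ := Int.eq_ofNat_of_zero_le h0.le
      have hm0 : m ≠ 0 := by
        rintro rfl
        omega
      rw [hm, zpow_natCast]
      have h2 : ‖w‖ ^ m < 1 := pow_lt_one₀ hn.le hw1 hm0
      calc ‖w‖ ^ m * ‖v‖ ≤ ‖w‖ ^ m * 1 := mul_le_mul_of_nonneg_left hv (by positivity)
        _ < 1 := by rwa [mul_one]
    refine ⟨h1.le, ?_⟩
    rw [if_neg h0.ne']
    exact (hr.zero _ h1.le).2 h1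

private theorem mem_mul {n : ℕ} {S : Subring Ω} {M N : Matrix (Fin n) (Fin n) Ω}
    (hM : ∀ i j, M i j ∈ S) (hN : ∀ i j, N i j ∈ S) (i j : Fin n) : (M * N) i j ∈ S := by
  rw [Matrix.mul_apply]
  exact S.sum_mem fun a _ => S.mul_mem (hM i a) (hN a j)

end aux

variable {Ω : Type*} [NormedField Ω] [NormedAlgebra ℚ_[2] Ω] [IsAlgClosed Ω] {k : Type*} [Field k]
  {rd : Ω → k} {G : Type*} [Group G] {n : ℕ} {ρ : G →* Matrix (Fin n) (Fin n) Ω}
  {b A A' : Matrix (Fin n) (Fin n) Ω}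

theorem exists_lat (hr : Red rd) (hd : Disc (fun g => ρ g)) (h : Good (fun g => ρ g) b A A')
    {P P' : Matrix (Fin n) (Fin n) k} (hP : P * P' = 1) (a : Fin n → ℤ)
    (h1 : ∀ g i j, a j < a i → (P' * resR hr h g * P) i j = 0)
    (h2 : ∀ i j, a i + a j < 0 → (Pᵀ * (Aᵀ * b * A).map rd * P) i j = 0)
    (h3 : (grB a (Pᵀ * (Aᵀ * b * A).map rd * P)).det ≠ 0) :
    ∃ (A₁ A₁' : Matrix (Fin n) (Fin n) Ω) (h' : Good (fun g => ρ g) b A₁ A₁'),
      (∀ g, resR hr h' g = grM a (P' * resR hr h g * P)) ∧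
        (A₁ᵀ * b * A₁).map rd = grB a (Pᵀ * (Aᵀ * b * A).map rd * P) := by
  classical
  obtain ⟨Q, Q', hQ, hQ', hQQ, hQr, hQr'⟩ := lift_inv hr hP
  have hQQ' : Q' * Q = 1 := mul_eq_one_comm.1 hQQ
  -- the integral matrices
  have hx : ∀ g, Int (Q' * A' * ρ g * (A * Q)) ∧
      (Q' * A' * ρ g * (A * Q)).map rd = P' * resR hr h g * P := by
    intro g
    have e : Q' * A' * ρ g * (A * Q) = Q' * (A' * ρ g * A) * Q := by
      simp only [Matrix.mul_assoc]
    have hi : Int (A' * ρ g * A) := h.st g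
    rw [e]
    refine ⟨int_mul (int_mul hQ' hi) hQ, ?_⟩
    rw [red_mul hr (int_mul hQ' hi) hQ, red_mul hr hQ' hi, hQr, hQr', resR_apply]
  have hy : Int ((A * Q)ᵀ * b * (A * Q)) ∧
      ((A * Q)ᵀ * b * (A * Q)).map rd = Pᵀ * (Aᵀ * b * A).map rd * P := by
    have e : (A * Q)ᵀ * b * (A * Q) = Qᵀ * (Aᵀ * b * A) * Q := by
      rw [Matrix.transpose_mul]
      simp only [Matrix.mul_assoc]
    have hi : Int (Aᵀ * b * A) := h.un
    rw [e]
    refine ⟨int_mul (int_mul hQ.transpose hi) hQ, ?_⟩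
    rw [red_mul hr (int_mul hQ.transpose hi) hQ, red_mul hr hQ.transpose hi, hQr]
    rw [show Qᵀ.map rd = Pᵀ by rw [← hQr]; rfl]
  -- discreteness
  obtain ⟨r, hr0, hr1, hrS⟩ := hd
    ((Finset.univ.image fun p : Fin n × Fin n => (A * Q) p.1 p.2) ∪
      ((Finset.univ.image fun p : Fin n × Fin n => (Q' * A') p.1 p.2) ∪
      (Finset.univ.image fun p : Fin n × Fin n => b p.1 p.2)))
  obtain ⟨S, hS⟩ : ∃ S : Subring Ω, S = Subring.closure ({y | ∃ g i j, y = (fun g => ρ g) g i j} ∪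
    (((Finset.univ.image fun p : Fin n × Fin n => (A * Q) p.1 p.2) ∪
      ((Finset.univ.image fun p : Fin n × Fin n => (Q' * A') p.1 p.2) ∪
      (Finset.univ.image fun p : Fin n × Fin n => b p.1 p.2)) : Finset Ω) : Set Ω)) := ⟨_, rfl⟩
  rw [← hS] at hrS
  have m1 : ∀ g i j, ρ g i j ∈ S := fun g i j => by
    rw [hS]
    exact Subring.subset_closure (Or.inl ⟨g, i, j, rfl⟩)
  have m2 : ∀ i j, (A * Q) i j ∈ S := fun i j => by
    rw [hS]
    refine Subring.subset_closure (Or.inr ?_)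
    exact Finset.mem_coe.2 (Finset.mem_union_left _
      (Finset.mem_image.2 ⟨(i, j), Finset.mem_univ _, rfl⟩))
  have m3 : ∀ i j, (Q' * A') i j ∈ S := fun i j => by
    rw [hS]
    refine Subring.subset_closure (Or.inr ?_)
    exact Finset.mem_coe.2 (Finset.mem_union_right _ (Finset.mem_union_left _
      (Finset.mem_image.2 ⟨(i, j), Finset.mem_univ _, rfl⟩)))
  have m4 : ∀ i j, b i j ∈ S := fun i j => by
    rw [hS]
    refine Subring.subset_closure (Or.inr ?_)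
    exact Finset.mem_coe.2 (Finset.mem_union_right _ (Finset.mem_union_right _
      (Finset.mem_image.2 ⟨(i, j), Finset.mem_univ _, rfl⟩)))
  have mx : ∀ g i j, (Q' * A' * ρ g * (A * Q)) i j ∈ S := fun g =>
    mem_mul (mem_mul m3 (m1 g)) m2
  have my : ∀ i j, ((A * Q)ᵀ * b * (A * Q)) i j ∈ S :=
    mem_mul (mem_mul (fun i j => m2 j i) m4) m2
  -- the weights
  obtain ⟨N, hN⟩ : ∃ N : ℕ, ∀ i, |a i| ≤ N :=
    ⟨∑ i, (a i).natAbs, fun i => by
      rw [Int.abs_eq_natAbs]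
      exact_mod_cast Finset.single_le_sum (f := fun i => (a i).natAbs)
        (fun _ _ => Nat.zero_le _) (Finset.mem_univ i)⟩
  obtain ⟨w, hw0, hw1, hw⟩ := exists_w (Ω := Ω) hr0 hr1 (2 * N)
  have tx : ∀ g i j, ‖w ^ (a j - a i) * (Q' * A' * ρ g * (A * Q)) i j‖ ≤ 1 ∧
      rd (w ^ (a j - a i) * (Q' * A' * ρ g * (A * Q)) i j) =
        grM a (P' * resR hr h g * P) i j := by
    intro g i j
    obtain ⟨e1, e2⟩ := hx g
    have e3 : rd ((Q' * A' * ρ g * (A * Q)) i j) = (P' * resR hr h g * P) i j := by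
      rw [← e2]; rfl
    have ha := abs_le.1 (hN i)
    have ha' := abs_le.1 (hN j)
    obtain ⟨t1, t2⟩ := twist hr (c := a j - a i) hw0 hw1 hw (by push_cast; linarith [ha.2, ha'.1]) (e1 i j)
      (fun hc => hrS _ (mx g i j) ((hr.zero _ (e1 i j)).1 (by
        rw [e3]; exact h1 g i j (by linarith))))
    refine ⟨t1, ?_⟩
    rw [t2, e3]
    unfold grM
    by_cases hc : a i = a j
    · rw [if_pos (by linarith), if_pos hc]
    · rw [if_neg (fun hh => hc (by linarith)), if_neg hc]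
  have ty : ∀ i j, ‖w ^ (a i + a j) * ((A * Q)ᵀ * b * (A * Q)) i j‖ ≤ 1 ∧
      rd (w ^ (a i + a j) * ((A * Q)ᵀ * b * (A * Q)) i j) =
        grB a (Pᵀ * (Aᵀ * b * A).map rd * P) i j := by
    intro i j
    obtain ⟨e1, e2⟩ := hy
    have e3 : rd (((A * Q)ᵀ * b * (A * Q)) i j) = (Pᵀ * (Aᵀ * b * A).map rd * P) i j := by
      rw [← e2]; rfl
    have ha := abs_le.1 (hN i)
    have ha' := abs_le.1 (hN j)
    obtain ⟨t1, t2⟩ := twist hr (c := a i + a j) hw0 hw1 hw (by push_cast; linarith [ha.1, ha'.1]) (e1 i j)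
      (fun hc => hrS _ (my i j) ((hr.zero _ (e1 i j)).1 (by
        rw [e3]; exact h2 i j hc)))
    exact ⟨t1, by rw [t2, e3]; rfl⟩
  -- the new basis
  obtain ⟨D, hD⟩ : ∃ D : Matrix (Fin n) (Fin n) Ω, D = Matrix.diagonal fun i => w ^ a i :=
    ⟨_, rfl⟩
  obtain ⟨D', hD'⟩ : ∃ D' : Matrix (Fin n) (Fin n) Ω, D' = Matrix.diagonal fun i => w ^ (-a i) :=
    ⟨_, rfl⟩
  have hDD : D * D' = 1 := by
    rw [hD, hD', Matrix.diagonal_mul_diagonal, ← Matrix.diagonal_one]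
    congr 1
    funext i
    rw [← zpow_add₀ hw0, add_neg_cancel, zpow_zero]
  have ex : ∀ g i j, (D' * (Q' * A') * ρ g * (A * Q * D)) i j =
      w ^ (a j - a i) * (Q' * A' * ρ g * (A * Q)) i j := by
    intro g i j
    have e : D' * (Q' * A') * ρ g * (A * Q * D) = D' * (Q' * A' * ρ g * (A * Q)) * D := by
      simp only [Matrix.mul_assoc]
    rw [e, hD, hD', Matrix.mul_diagonal, Matrix.diagonal_mul, sub_eq_neg_add, zpow_add₀ hw0]
    ring
  have ey : ∀ i j, ((A * Q * D)ᵀ * b * (A * Q * D)) i j =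
      w ^ (a i + a j) * ((A * Q)ᵀ * b * (A * Q)) i j := by
    intro i j
    have e : (A * Q * D)ᵀ * b * (A * Q * D) = D * ((A * Q)ᵀ * b * (A * Q)) * D := by
      rw [Matrix.transpose_mul (A * Q) D, hD, Matrix.diagonal_transpose]
      simp only [Matrix.mul_assoc]
    rw [e, hD, Matrix.mul_diagonal, Matrix.diagonal_mul, zpow_add₀ hw0]
    ring
  have hinv : A * Q * D * (D' * (Q' * A')) = 1 := by
    calc A * Q * D * (D' * (Q' * A')) = A * (Q * (D * D') * Q') * A' := by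
          simp only [Matrix.mul_assoc]
      _ = 1 := by rw [hDD, Matrix.mul_one, hQQ, Matrix.mul_one, h.inv]
  have hIy : Int ((A * Q * D)ᵀ * b * (A * Q * D)) := fun i j => by
    rw [ey]; exact (ty i j).1
  have hry : ((A * Q * D)ᵀ * b * (A * Q * D)).map rd = grB a (Pᵀ * (Aᵀ * b * A).map rd * P) := by
    ext i j
    rw [Matrix.map_apply, ey]
    exact (ty i j).2
  have hdet : ‖((A * Q * D)ᵀ * b * (A * Q * D)).det‖ = 1 := by
    obtain ⟨d1, d2⟩ := det_red hr hIy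
    rw [hry] at d2
    refine le_antisymm d1 (not_lt.1 fun hc => h3 ?_)
    rw [← d2]
    exact (hr.zero _ d1).2 hc
  have h' : Good (fun g => ρ g) b (A * Q * D) (D' * (Q' * A')) :=
    { inv := hinv
      inv' := mul_eq_one_comm.1 hinv
      st := fun g i j => by
        change ‖(D' * (Q' * A') * ρ g * (A * Q * D)) i j‖ ≤ 1
        rw [ex]; exact (tx g i j).1
      un := hIy
      det := hdet }
  refine ⟨A * Q * D, D' * (Q' * A'), h', ?_, hry⟩
  intro g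
  rw [resR_apply]
  ext i j
  rw [Matrix.map_apply, ex]
  exact (tx g i j).2

end Pool.Agent.Work.MP_787500_nt.RB
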