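import Mathlib
import Pool.Agent.Work.MP_787500_nt.RB.Basic
import Pool.Agent.Work.MP_787500_nt.RB.Res
import Pool.Agent.Work.MP_787500_nt.RB.Lat

/-!
# RB/OfData (size M): from `HasData` of the residual representation to a good basis with a residual matrix `C`

`HasData` gives a basis `e : Basis ι k (Fin n → k)`, so `ι` has `n` elements: reindex by `Fin n` (weights too). `P` = matrix with columns `e_j`
(`P i j = e j i`), `P'` its inverse: `(P' *ᵥ x) i = e.repr x i`. `(P' * R g * P) i j = e.repr (R g *ᵥ e j) i`, which is 0 for `a i ≠ a j`;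
`(Pᵀ * F * P) i j = B (e i) (e j)`, `B = Matrix.toBilin' F`. So `h1`, `h2` of `exists_lat` hold, `grM a (P' * R g * P) = P' * R g * P`, and
`grB a (Pᵀ * F * P) i j = B' (e i) (e j)` is the Gram matrix of the nondegenerate `B'`, so its determinant is not 0 (`h3`).
`C₀` = the matrix of `C` in the basis `e`: `C₀ = P' * (matrix of C) * P`. `C₀ * C₀ = 1`, `C₀ * (P' * R (κ g) * P) = P' * R g * P * C₀`,
and `x ⬝ᵥ (grB .. *ᵥ (C₀ *ᵥ x)) = B' v (C v)` for `v = ∑ x_i e_i`.
-/

set_option autoImplicit false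
set_option linter.unusedSectionVars false

namespace Pool.Agent.Work.MP_787500_nt.RB

open Matrix Module

variable {Ω : Type*} [NormedField Ω] [NormedAlgebra ℚ_[2] Ω] [IsAlgClosed Ω] {k : Type*} [Field k]
  {rd : Ω → k} {G : Type*} [Group G] {κ : G →* G} {n : ℕ} {ρ : G →* Matrix (Fin n) (Fin n) Ω}
  {b A A' : Matrix (Fin n) (Fin n) Ω}

private theorem of_fin (hr : Red rd) (hd : Disc (fun g => ρ g)) (h : Good (fun g => ρ g) b A A')
    (e : Basis (Fin n) k (Fin n → k)) (a : Fin n → ℤ) (B' : LinearMap.BilinForm k (Fin n → k))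
    (C : (Fin n → k) →ₗ[k] (Fin n → k))
    (h1 : ∀ g i j, a i ≠ a j → e.repr (toRep (resR hr h) g (e j)) i = 0)
    (h2 : ∀ i j, a i + a j < 0 → Matrix.toBilin' ((Aᵀ * b * A).map rd) (e i) (e j) = 0)
    (h3 : ∀ i j, B' (e i) (e j) =
      if a i + a j = 0 then Matrix.toBilin' ((Aᵀ * b * A).map rd) (e i) (e j) else 0)
    (h4 : ∀ x, (∀ y, B' x y = 0) → x = 0) (h5 : ∀ x, C (C x) = x)
    (h6 : ∀ g x, C (toRep (resR hr h) (κ g) x) = toRep (resR hr h) g (C x))
    (h7 : ∀ x, B' x (C x) = 0) :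
    ∃ (A₁ A₁' : Matrix (Fin n) (Fin n) Ω) (h' : Good (fun g => ρ g) b A₁ A₁')
      (C : Matrix (Fin n) (Fin n) k), C * C = 1 ∧ (∀ g, C * resR hr h' (κ g) = resR hr h' g * C) ∧
        ∀ x : Fin n → k, x ⬝ᵥ ((A₁ᵀ * b * A₁).map rd *ᵥ (C *ᵥ x)) = 0 := by
  classical
  set F := (Aᵀ * b * A).map rd with hF
  set P := (Pi.basisFun k (Fin n)).toMatrix e with hP
  set P' := e.toMatrix (Pi.basisFun k (Fin n)) with hP'
  have hPP : P * P' = 1 := Basis.toMatrix_mul_toMatrix_flip _ _
  have hR : ∀ g, P' * resR hr h g * P = LinearMap.toMatrix e e (toRep (resR hr h) g) := by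
    intro g
    rw [← basis_toMatrix_mul_linearMap_toMatrix_mul_basis_toMatrix e (Pi.basisFun k (Fin n)) e
      (Pi.basisFun k (Fin n)), LinearMap.toMatrix_eq_toMatrix']
    congr 2
    exact (LinearMap.toMatrix'_toLin' _).symm
  have hFF : Pᵀ * F * P = LinearMap.BilinForm.toMatrix e (Matrix.toBilin' F) := by
    rw [← LinearMap.BilinForm.toMatrix_mul_basis_toMatrix (Pi.basisFun k (Fin n)) e,
      LinearMap.BilinForm.toMatrix_basisFun, LinearMap.BilinForm.toMatrix'_toBilin']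
  have hgr : ∀ g, grM a (P' * resR hr h g * P) =
      LinearMap.toMatrix e e (toRep (resR hr h) g) := by
    intro g
    rw [hR]
    ext i j
    rw [grM]
    split_ifs with hij
    · rfl
    · rw [LinearMap.toMatrix_apply, h1 g i j hij]
  have hgB : grB a (Pᵀ * F * P) = LinearMap.BilinForm.toMatrix e B' := by
    rw [hFF]
    ext i j
    rw [grB, LinearMap.BilinForm.toMatrix_apply, LinearMap.BilinForm.toMatrix_apply, h3]
  have hdet : (grB a (Pᵀ * F * P)).det ≠ 0 := by
    rw [hgB]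
    exact (LinearMap.BilinForm.nondegenerate_iff_det_ne_zero e).1
      (LinearMap.BilinForm.Nondegenerate.ofSeparatingLeft h4)
  obtain ⟨A₁, A₁', h', h8, h9⟩ := exists_lat hr hd h hPP a
    (fun g i j hij => by rw [hR, LinearMap.toMatrix_apply, h1 g i j hij.ne'])
    (fun i j hij => by rw [hFF, LinearMap.BilinForm.toMatrix_apply, h2 i j hij]) hdet
  refine ⟨A₁, A₁', h', LinearMap.toMatrix e e C, ?_, fun g => ?_, fun x => ?_⟩
  · rw [← LinearMap.toMatrix_comp e e e, show C ∘ₗ C = LinearMap.id from LinearMap.ext h5,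
      LinearMap.toMatrix_id]
  · rw [h8, h8, hgr, hgr, ← LinearMap.toMatrix_comp e e e, ← LinearMap.toMatrix_comp e e e]
    congr 1
    exact LinearMap.ext (h6 g)
  · rw [h9, hgB, LinearMap.BilinForm.dotProduct_toMatrix_mulVec]
    have h10 : e.equivFun.symm (LinearMap.toMatrix e e C *ᵥ x) = C (e.equivFun.symm x) := by
      have h11 := LinearMap.toMatrix_mulVec_repr e e C (e.equivFun.symm x)
      have h12 : (e.repr (e.equivFun.symm x) : Fin n → k) = x := e.equivFun.apply_symm_apply x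
      rw [h12] at h11
      rw [h11]
      exact e.equivFun.symm_apply_apply _
    rw [h10]
    exact h7 _

theorem exists_of_data (hr : Red rd) (hd : Disc (fun g => ρ g)) (h : Good (fun g => ρ g) b A A')
    (hD : HasData κ (toRep (resR hr h)) (Matrix.toBilin' ((Aᵀ * b * A).map rd))) :
    ∃ (A₁ A₁' : Matrix (Fin n) (Fin n) Ω) (h' : Good (fun g => ρ g) b A₁ A₁')
      (C : Matrix (Fin n) (Fin n) k), C * C = 1 ∧ (∀ g, C * resR hr h' (κ g) = resR hr h' g * C) ∧
        ∀ x : Fin n → k, x ⬝ᵥ ((A₁ᵀ * b * A₁).map rd *ᵥ (C *ᵥ x)) = 0 := by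
  obtain ⟨ι, _, e, a, B', C, h1, h2, h3, h4, h5, h6, h7⟩ := hD
  have hc : Fintype.card ι = n := by
    rw [← Module.finrank_eq_card_basis e, Module.finrank_fin_fun]
  let q : ι ≃ Fin n := Fintype.equivFinOfCardEq hc
  refine of_fin hr hd h (e.reindex q) (a ∘ q.symm) B' C ?_ ?_ ?_ h4 h5 h6 h7
  · intro g i j hij
    rw [Basis.reindex_apply, Basis.repr_reindex_apply]
    exact h1 g _ _ hij
  · intro i j hij
    rw [Basis.reindex_apply, Basis.reindex_apply]
    exact h2 _ _ hij
  · intro i j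
    rw [Basis.reindex_apply, Basis.reindex_apply]
    exact h3 _ _

end Pool.Agent.Work.MP_787500_nt.RB
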