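import Mathlib
import Pool.Agent.Work.MP_787500_nt.RB.Basic

/-!
# RB/Alg (size M, ANYBODY): a representation that is not semisimple has a good isotropic subspace

`𝒜` = the span over `k` of the `ρ g` in `Module.End k V`: a subalgebra (`Algebra.adjoin k (range ρ)`, the span of a submonoid), finite
dimensional. If its Jacobson radical is 0, `𝒜` is a semisimple ring (`IsArtinianRing.isSemisimpleRing_iff_jacobson`), so `V` is a
semisimple module over `𝒜` and `Ss ρ` (stable subspaces are the `𝒜`-submodules). Otherwise the radical `J` is nilpotent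
(`IsArtinianRing.isNilpotent_jacobson_bot` or `Ring.jacobson` is nilpotent for Artinian rings), so there is a two-sided ideal
`N = J ^ s ≠ 0` with `N * N = 0` (`s` maximal with `J ^ s ≠ 0`).
The adjoint for `B`: `B (ρ g x) y = B x (ρ (κ g)⁻¹ y)` (`dual` for `g`, `y = ρ (κ g) (ρ (κ g)⁻¹ y)`), so every `r ∈ 𝒜` has an adjoint
`r' ∈ 𝒜` with `B (r x) y = B x (r' y)` for all `x`, `y`; `r ↦ r'` is an involution that reverses products (`B` symmetric and
nondegenerate).
If `B (r x) (s y) = 0` for all `r, s ∈ N` (i.e. `r' s = 0`), put `N₁ = N`. Otherwise let `N₁` be the span of the products `r' s` (`r, s ∈ N`): a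
nonzero two-sided ideal contained in `N` (`N` is a left ideal), stable under the adjoint (`(r' s)' = s' r`), and `N₁ * N₁ = 0`
(inside `N * N`); so `B (r x) (s y) = B x (r' s y) = 0` for `r, s ∈ N₁`.
`W = N₁ V` (span of the `r x`): stable, isotropic. Take any `r ∈ N₁`, `r ≠ 0`: `r` maps `V` to `W`, and `r` is 0 on `W` (`N₁ N₁ = 0`); it maps
`W^⊥` to `W`. These are the assertions (`r` is a linear combination of the `ρ g`).
-/

set_option autoImplicit false
set_option linter.unusedSectionVars false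

namespace Pool.Agent.Work.MP_787500_nt.RB

open Matrix Module

variable {G : Type*} [Group G] {k : Type*} [Field k] {V : Type*} [AddCommGroup V]
  [Module k V] [FiniteDimensional k V] {κ : G →* G} {ρ : Representation k G V}
  {B : LinearMap.BilinForm k V}

private def sp (ρ : Representation k G V) : Submodule k (Module.End k V) :=
  Submodule.span k (Set.range fun g => ρ g)

private theorem one_mem_sp : (1 : Module.End k V) ∈ sp ρ :=
  Submodule.subset_span ⟨1, map_one ρ⟩

private theorem mul_mem_sp {a b : Module.End k V} (ha : a ∈ sp ρ) (hb : b ∈ sp ρ) :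
    a * b ∈ sp ρ := by
  have h : sp ρ * sp ρ ≤ sp ρ := by
    rw [sp, Submodule.span_mul_span, Submodule.span_le]
    rintro _ ⟨_, ⟨g, rfl⟩, _, ⟨g', rfl⟩, rfl⟩
    exact Submodule.subset_span ⟨g * g', map_mul ρ g g'⟩
  exact h (Submodule.mul_mem_mul ha hb)

private def al (ρ : Representation k G V) : Subalgebra k (Module.End k V) :=
  (sp ρ).toSubalgebra one_mem_sp fun _ _ => mul_mem_sp

private theorem mem_al {a : Module.End k V} : a ∈ al ρ ↔ a ∈ sp ρ := Iff.rfl

private theorem rho_mem (g : G) : ρ g ∈ sp ρ := Submodule.subset_span ⟨g, rfl⟩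

private theorem stab_sp {W : Submodule k V} (hW : Stab ρ W) {a : Module.End k V} (ha : a ∈ sp ρ)
    {x : V} (hx : x ∈ W) : a x ∈ W := by
  induction ha using Submodule.span_induction with
  | mem a ha =>
    obtain ⟨g, rfl⟩ := ha
    exact hW g x hx
  | zero => exact W.zero_mem
  | add a b _ _ h1 h2 => exact W.add_mem h1 h2
  | smul c a _ h1 => exact W.smul_mem c h1

private theorem ss_of_semisimple (h : IsSemisimpleRing (al ρ)) : Ss ρ := by
  intro W hW
  let W₁ : Submodule (al ρ) V :=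
    { carrier := W
      add_mem' := W.add_mem
      zero_mem' := W.zero_mem
      smul_mem' := fun a x hx => stab_sp hW a.2 hx }
  obtain ⟨W₂, h2⟩ := exists_isCompl W₁
  let W' : Submodule k V :=
    { carrier := W₂
      add_mem' := W₂.add_mem
      zero_mem' := W₂.zero_mem
      smul_mem' := fun c x hx => by
        have h3 := W₂.smul_mem (algebraMap k (al ρ) c) hx
        exact h3 }
  refine ⟨W', fun g x hx => W₂.smul_mem (⟨ρ g, rho_mem g⟩ : al ρ) hx, ?_, ?_⟩
  · rw [Submodule.disjoint_def]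
    intro x hx hx'
    exact Submodule.disjoint_def.1 h2.1 x hx hx'
  · rw [codisjoint_iff, eq_top_iff]
    intro x _
    have h1 : x ∈ W₁ ⊔ W₂ := by
      rw [codisjoint_iff.1 h2.2]
      exact Submodule.mem_top
    obtain ⟨y, hy, z, hz, h3⟩ := Submodule.mem_sup.1 h1
    exact Submodule.mem_sup.2 ⟨y, hy, z, hz, h3⟩

private theorem exists_N (h : Ring.jacobson (al ρ) ≠ ⊥) :
    ∃ N : Submodule k (Module.End k V), N ≠ ⊥ ∧ N ≤ sp ρ ∧ (∀ a ∈ sp ρ, ∀ x ∈ N, a * x ∈ N) ∧
      (∀ a ∈ sp ρ, ∀ x ∈ N, x * a ∈ N) ∧ ∀ x ∈ N, ∀ y ∈ N, x * y = 0 := by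
  classical
  haveI : IsArtinianRing (al ρ) := IsArtinianRing.of_finite k (al ρ)
  have hnil : ∃ m : ℕ, Ring.jacobson (al ρ) ^ m = 0 := IsSemiprimaryRing.isNilpotent
  obtain ⟨t, ht, hmin⟩ : ∃ t : ℕ, Ring.jacobson (al ρ) ^ t = 0 ∧
      ∀ s < t, Ring.jacobson (al ρ) ^ s ≠ 0 :=
    ⟨Nat.find hnil, Nat.find_spec hnil, fun s hs => Nat.find_min hnil hs⟩
  have ht2 : 2 ≤ t := by
    by_contra hlt
    have h01 : t = 0 ∨ t = 1 := by omega
    have htop : Ring.jacobson (al ρ) ^ 1 = 0 := by
      rcases h01 with rfl | rfl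
      · rw [Submodule.pow_zero] at ht
        rw [Submodule.pow_one, Submodule.zero_eq_bot, ← le_bot_iff]
        intro x _
        have h1 : (1 : al ρ) ∈ (1 : Ideal (al ρ)) := by
          rw [Ideal.one_eq_top]
          exact Submodule.mem_top
        rw [ht] at h1
        have h2 : (1 : al ρ) = 0 := h1
        rw [Submodule.mem_bot, ← mul_one x, h2, mul_zero]
      · exact ht
    rw [Submodule.pow_one] at htop
    exact h htop
  obtain ⟨s, rfl⟩ : ∃ s, t = s + 1 := ⟨t - 1, by omega⟩
  have hne := hmin s (Nat.lt_succ_self s)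
  set I := Ring.jacobson (al ρ) ^ s with hI
  have hII : ∀ x ∈ I, ∀ y ∈ I, x * y = 0 := by
    intro x hx y hy
    have h1 : x * y ∈ I * I := Ideal.mul_mem_mul hx hy
    have h2 : I * I ≤ Ring.jacobson (al ρ) ^ (s + 1) := by
      rw [hI, ← Ideal.IsTwoSided.pow_add]
      exact Ideal.pow_le_pow_right (by omega)
    have h3 := h2 h1
    rw [ht] at h3
    exact h3
  have htwo : I.IsTwoSided := by
    rw [hI]
    infer_instance
  refine ⟨(I.restrictScalars k).map (al ρ).val.toLinearMap, ?_, ?_, ?_, ?_, ?_⟩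
  · intro h0
    refine hne ?_
    rw [Submodule.zero_eq_bot, eq_bot_iff]
    intro x hx
    have h1 : (x : Module.End k V) ∈ (I.restrictScalars k).map (al ρ).val.toLinearMap :=
      ⟨x, hx, rfl⟩
    rw [h0] at h1
    exact Subtype.ext h1
  · rintro _ ⟨x, _, rfl⟩
    exact x.2
  · rintro a ha _ ⟨x, hx, rfl⟩
    exact ⟨⟨a, ha⟩ * x, I.mul_mem_left _ hx, rfl⟩
  · rintro a ha _ ⟨x, hx, rfl⟩
    exact ⟨x * ⟨a, ha⟩, I.mul_mem_right _ hx, rfl⟩
  · rintro _ ⟨x, hx, rfl⟩ _ ⟨y, hy, rfl⟩
    exact congrArg Subtype.val (hII x hx y hy)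

private def Adj (B : LinearMap.BilinForm k V) (r r' : Module.End k V) : Prop :=
  ∀ x y, B (r x) y = B x (r' y)

private theorem Adj.symm (hB : TwForm κ ρ B) {r r' : Module.End k V} (h : Adj B r r') :
    Adj B r' r := fun x y => by rw [hB.symm, ← h, hB.symm]

private theorem exists_adj (hB : TwForm κ ρ B) {r : Module.End k V} (hr : r ∈ sp ρ) :
    ∃ r' ∈ sp ρ, Adj B r r' := by
  induction hr using Submodule.span_induction with
  | mem a ha =>
    obtain ⟨g, rfl⟩ := ha
    refine ⟨_, rho_mem (κ g)⁻¹, fun x y => ?_⟩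
    have h1 := hB.dual g x (ρ (κ g)⁻¹ y)
    have h2 : ρ (κ g) (ρ (κ g)⁻¹ y) = y := by
      rw [← Module.End.mul_apply, ← map_mul, mul_inv_cancel, map_one, Module.End.one_apply]
    rw [h2] at h1
    exact h1
  | zero => exact ⟨0, Submodule.zero_mem _, fun x y => by simp⟩
  | add a b _ _ h1 h2 =>
    obtain ⟨a', ha', h1⟩ := h1
    obtain ⟨b', hb', h2⟩ := h2
    refine ⟨a' + b', Submodule.add_mem _ ha' hb', fun x y => ?_⟩
    rw [LinearMap.add_apply, LinearMap.add_apply, map_add, map_add, LinearMap.add_apply, h1, h2]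
  | smul c a _ h1 =>
    obtain ⟨a', ha', h1⟩ := h1
    refine ⟨c • a', Submodule.smul_mem _ c ha', fun x y => ?_⟩
    rw [LinearMap.smul_apply, LinearMap.smul_apply, map_smul, map_smul, LinearMap.smul_apply, h1]

private theorem concl {M : Submodule k (Module.End k V)} (h0 : M ≠ ⊥) (hM : M ≤ sp ρ)
    (h1 : ∀ g, ∀ t ∈ M, ρ g * t ∈ M) (h2 : ∀ t ∈ M, ∀ t' ∈ M, t * t' = 0)
    (h3 : ∀ t ∈ M, ∀ t' ∈ M, ∀ x y, B (t x) (t' y) = 0) :
    ∃ (W : Submodule k V) (r : V →ₗ[k] V), Stab ρ W ∧ (∀ x ∈ W, ∀ y ∈ W, B x y = 0) ∧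
      r ∈ Submodule.span k (Set.range fun g => ρ g) ∧ r ≠ 0 ∧ (∀ x, r x ∈ W) ∧
      ∀ x ∈ W, r x = 0 := by
  obtain ⟨r, hr, hr0⟩ := (Submodule.ne_bot_iff M).1 h0
  refine ⟨Submodule.span k {v | ∃ t ∈ M, ∃ x, v = t x}, r, ?_, ?_, hM hr, hr0,
    fun x => Submodule.subset_span ⟨r, hr, x, rfl⟩, ?_⟩
  · intro g x hx
    induction hx using Submodule.span_induction with
    | mem x hx =>
      obtain ⟨t, ht, y, rfl⟩ := hx
      exact Submodule.subset_span ⟨_, h1 g t ht, y, rfl⟩
    | zero =>
      rw [map_zero]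
      exact Submodule.zero_mem _
    | add x y _ _ hx hy =>
      rw [map_add]
      exact Submodule.add_mem _ hx hy
    | smul c x _ hx =>
      rw [map_smul]
      exact Submodule.smul_mem _ c hx
  · intro x hx y hy
    induction hx using Submodule.span_induction with
    | mem x hx =>
      obtain ⟨t, ht, z, rfl⟩ := hx
      induction hy using Submodule.span_induction with
      | mem y hy =>
        obtain ⟨t', ht', z', rfl⟩ := hy
        exact h3 t ht t' ht' z z'
      | zero => rw [map_zero]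
      | add x y _ _ hx hy => rw [map_add, hx, hy, add_zero]
      | smul c x _ hx => rw [map_smul, hx, smul_zero]
    | zero => rw [map_zero, LinearMap.zero_apply]
    | add x y _ _ hx hy => rw [map_add, LinearMap.add_apply, hx, hy, add_zero]
    | smul c x _ hx => rw [map_smul, LinearMap.smul_apply, hx, smul_zero]
  · intro x hx
    induction hx using Submodule.span_induction with
    | mem x hx =>
      obtain ⟨t, ht, z, rfl⟩ := hx
      rw [← Module.End.mul_apply, h2 r hr t ht, LinearMap.zero_apply]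
    | zero => rw [map_zero]
    | add x y _ _ hx hy => rw [map_add, hx, hy, add_zero]
    | smul c x _ hx => rw [map_smul, hx, smul_zero]

theorem ss_or_exists (hκ : ∀ g, κ (κ g) = g) (hB : TwForm κ ρ B) :
    Ss ρ ∨ ∃ (W : Submodule k V) (r : V →ₗ[k] V), Stab ρ W ∧ (∀ x ∈ W, ∀ y ∈ W, B x y = 0) ∧
      r ∈ Submodule.span k (Set.range fun g => ρ g) ∧ r ≠ 0 ∧ (∀ x, r x ∈ W) ∧ ∀ x ∈ W, r x = 0 := by
  haveI : IsArtinianRing (al ρ) := IsArtinianRing.of_finite k (al ρ)
  by_cases hJ : Ring.jacobson (al ρ) = ⊥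
  · left
    exact ss_of_semisimple (IsArtinianRing.isSemisimpleRing_iff_jacobson.2 hJ)
  right
  obtain ⟨N, hN0, hNs, hl, hr, hNN⟩ := exists_N hJ
  by_cases hc : ∀ r ∈ N, ∀ r' ∈ sp ρ, Adj B r r' → ∀ s ∈ N, r' * s = 0
  · refine concl hN0 hNs (fun g t ht => hl _ (rho_mem g) t ht) hNN fun t ht t' ht' x y => ?_
    obtain ⟨r', hr', ha⟩ := exists_adj hB (hNs ht)
    rw [ha, ← Module.End.mul_apply, hc t ht r' hr' ha t' ht', LinearMap.zero_apply, map_zero]
  · push Not at hc
    obtain ⟨r₀, hr₀, r₀', hr₀', ha₀, s₀, hs₀, hne⟩ := hc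
    have hle : Submodule.span k {t | ∃ r ∈ N, ∃ r' ∈ sp ρ, Adj B r r' ∧ ∃ s ∈ N, t = r' * s} ≤
        N := by
      rw [Submodule.span_le]
      rintro _ ⟨r, _, r', hr', _, s, hs, rfl⟩
      exact hl r' hr' s hs
    refine concl (M := Submodule.span k
      {t | ∃ r ∈ N, ∃ r' ∈ sp ρ, Adj B r r' ∧ ∃ s ∈ N, t = r' * s}) ?_ (hle.trans hNs) ?_
      (fun t ht t' ht' => hNN t (hle ht) t' (hle ht')) ?_
    · refine (Submodule.ne_bot_iff _).2 ⟨_, Submodule.subset_span
        ⟨r₀, hr₀, r₀', hr₀', ha₀, s₀, hs₀, rfl⟩, hne⟩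
    · intro g t ht
      induction ht using Submodule.span_induction with
      | mem t ht =>
        obtain ⟨r, hr1, r', hr', ha, s, hs, rfl⟩ := ht
        obtain ⟨c, hc, hac⟩ := exists_adj hB (rho_mem g)
        refine Submodule.subset_span ⟨r * c, hr c hc r hr1, ρ g * r', mul_mem_sp (rho_mem g) hr',
          fun x y => ?_, s, hs, (mul_assoc _ _ _).symm⟩
        rw [Module.End.mul_apply, Module.End.mul_apply, ha, hac.symm hB]
      | zero =>
        rw [mul_zero]
        exact Submodule.zero_mem _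
      | add x y _ _ hx hy =>
        rw [mul_add]
        exact Submodule.add_mem _ hx hy
      | smul c x _ hx =>
        rw [mul_smul_comm]
        exact Submodule.smul_mem _ c hx
    · intro t ht t' ht' x y
      induction ht using Submodule.span_induction with
      | mem t ht =>
        obtain ⟨r, hr1, r', hr', ha, s, hs, rfl⟩ := ht
        induction ht' using Submodule.span_induction with
        | mem t' ht' =>
          obtain ⟨r₁, hr11, r₁', hr1', ha1, s₁, hs1, rfl⟩ := ht'
          have h4 : r * r₁' * s₁ = 0 := hNN _ (hr r₁' hr1' r hr1) s₁ hs1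
          rw [Module.End.mul_apply, ha.symm hB, ← Module.End.mul_apply, ← mul_assoc, h4,
            LinearMap.zero_apply, map_zero]
        | zero => rw [LinearMap.zero_apply, map_zero]
        | add x y _ _ hx hy => rw [LinearMap.add_apply, map_add, hx, hy, add_zero]
        | smul c x _ hx => rw [LinearMap.smul_apply, map_smul, hx, smul_zero]
      | zero => rw [LinearMap.zero_apply, map_zero, LinearMap.zero_apply]
      | add x y _ _ hx hy =>
        rw [LinearMap.add_apply, map_add, LinearMap.add_apply, hx, hy, add_zero]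
      | smul c x _ hx =>
        rw [LinearMap.smul_apply, map_smul, LinearMap.smul_apply, hx, smul_zero]

end Pool.Agent.Work.MP_787500_nt.RB
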