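import Mathlib
import Pool.Agent.Work.MP_787500_nt.RB.Basic
import Pool.Agent.Work.MP_787500_nt.RB.Res
import Pool.Agent.Work.MP_787500_nt.RB.Lat
import Pool.Agent.Work.MP_787500_nt.RB.Alg

/-!
# RB/St1 (size M-L): a good basis with semisimple residual representation

* `res_dual`, `res_symm`, `res_det`: the residual form `F = (Aᵀ * b * A).map rd` satisfies `(R g)ᵀ * F * R (κ g) = F` (`hdual`: multiply by
  `Aᵀ`, `A`; the scalar reduces to 1), it is symmetric and `det F ≠ 0` (`h.det`, `hr.zero`; the determinant of an integral matrix reduces to the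
  determinant). `twForm_res`: so `TwForm κ (toRep R) (Matrix.toBilin' F)`.
* `charpoly_res`: `A' * ρ g * A` has the same characteristic polynomial as `ρ g` (`Matrix.charpoly` of a conjugate:
  `Matrix.charpoly_mul_comm`), and the coefficients of the characteristic polynomial of an integral matrix reduce to those of the
  reduction (`Matrix.charpoly_map` for the ring homomorphism given by `rd` on the subring of integral elements; write
  `A' * ρ g * A` as the image of a matrix over the subring). `hch`: the coefficients of `charpoly (ρ (κ g))` and `charpoly (ρ g)` are congruent.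
* `exists_ss`: among all good bases choose one for which `d(A)` = dimension of the span of the matrices `R g` in `Matrix (Fin n) (Fin n) k` is
  minimal (`Nat.find`). If the residual representation is not semisimple, `ss_or_exists` gives `W`, `r`. `W ≤ W^⊥` and `W^⊥` is stable
  (`stab_orth`). Choose a basis `e` of `k ^ n` indexed by `Fin n` and weights `a : Fin n → {-1, 0, 1}` such that the `e_i` with `a i = -1` are a
  basis of `W` and the `e_i` with `a i ≤ 0` a basis of `W^⊥` (extend a basis of `W` to `W^⊥` and to `k ^ n`; the index type `ι₁ ⊕ ι₂ ⊕ ι₃` has `n`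
  elements, reindex). `P` = matrix with columns `e_i`, `P' = P⁻¹`. `h1`: `W` and `W^⊥` are stable. `h2`: `B = 0` on `W × W^⊥`.
  `h3`: `grB` is nondegenerate: it is the sum of the pairing of `W` with `V / W^⊥` and the form of `W^⊥ / W`: if `x` (coordinates `x₋, x₀, x₊`) is
  in the kernel, pairing with the `e_i` of weight -1 gives that `x₊`-part pairs to zero with `W`, so `x₊ ∈ W^⊥` and `x₊ = 0`; then pairing
  with weight 0: the `x₀`-part is orthogonal to `W^⊥`, so it is in `W^⊥^⊥ = W` (`finrank_orth`) and `x₀ = 0`; then `x₋` pairs to zero with all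
  `e_i` of weight 1 (and with `W^⊥`), so `x₋ = 0`. `exists_lat` gives a good basis with residual representation `grM a (P' * R g * P)`.
  On the matrices `P' * R g * P`, which are block upper triangular (`h1`), the linear map `grM a` has a nonzero kernel on their span: it
  kills `P' * r * P` (`r` maps `V` to `W`, and kills `W`; so its entries `i j` with `a i = a j` vanish). So the new dimension is smaller.
-/

set_option autoImplicit false
set_option linter.unusedSectionVars false

namespace Pool.Agent.Work.MP_787500_nt.RB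

open Matrix Module

variable {Ω : Type*} [NormedField Ω] [NormedAlgebra ℚ_[2] Ω] {k : Type*} [Field k]
  {rd : Ω → k} {G : Type*} [Group G] {κ : G →* G} {n : ℕ} {ρ : G →* Matrix (Fin n) (Fin n) Ω}
  {b A A' : Matrix (Fin n) (Fin n) Ω}

private def O (Ω : Type*) [NormedField Ω] [NormedAlgebra ℚ_[2] Ω] : Subring Ω where
  carrier := {x | ‖x‖ ≤ 1}
  mul_mem' {x y} hx hy := by
    show ‖x * y‖ ≤ 1
    rw [norm_mul]
    exact mul_le_one₀ hx (norm_nonneg _) hy
  one_mem' := by
    show ‖(1 : Ω)‖ ≤ 1
    simp
  add_mem' {x y} hx hy := by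
    have hu := Gn.ultra 2 Ω
    exact (IsUltrametricDist.norm_add_le_max _ _).trans (max_le hx hy)
  zero_mem' := by
    show ‖(0 : Ω)‖ ≤ 1
    simp
  neg_mem' {x} hx := by
    show ‖-x‖ ≤ 1
    rw [norm_neg]
    exact hx

private def rdO (hr : Red rd) : O Ω →+* k where
  toFun x := rd x
  map_one' := hr.one
  map_mul' x y := hr.mul _ _ x.2 y.2
  map_zero' := hr.map_zero
  map_add' x y := hr.add _ _ x.2 y.2

private theorem rd_eq (hr : Red rd) {x y : Ω} (hx : ‖x‖ ≤ 1) (hxy : ‖x - y‖ < 1) :
    rd x = rd y := by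
  have hu := Gn.ultra 2 Ω
  have hy : ‖y‖ ≤ 1 := by
    have h1 : y = x + (y - x) := by ring
    rw [h1]
    refine (IsUltrametricDist.norm_add_le_max _ _).trans (max_le hx ?_)
    rw [← norm_neg, neg_sub]
    exact hxy.le
  have h2 := hr.add (x - y) y hxy.le hy
  rw [sub_add_cancel, (hr.zero _ hxy.le).2 hxy, zero_add] at h2
  exact h2

private theorem lift_mat {M : Matrix (Fin n) (Fin n) Ω} (hM : Int M) :
    ∃ N : Matrix (Fin n) (Fin n) (O Ω), N.map (O Ω).subtype = M ∧
      ∀ hr : Red rd, N.map (rdO hr) = M.map rd :=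
  ⟨Matrix.of fun i j => ⟨M i j, hM i j⟩, rfl, fun _ => rfl⟩

private theorem det_red (hr : Red rd) {M : Matrix (Fin n) (Fin n) Ω} (hM : Int M) :
    ‖M.det‖ ≤ 1 ∧ (M.map rd).det = rd M.det := by
  obtain ⟨N, rfl, h2⟩ := lift_mat (rd := rd) hM
  have h3 : (N.map (O Ω).subtype).det = (O Ω).subtype N.det :=
    ((O Ω).subtype.map_det N).symm
  have h4 : (N.map (rdO hr)).det = rdO hr N.det := ((rdO hr).map_det N).symm
  rw [h3]
  refine ⟨N.det.2, ?_⟩
  rw [← h2 hr, h4]
  rfl

private theorem coeff_red (hr : Red rd) {M : Matrix (Fin n) (Fin n) Ω} (hM : Int M) (i : ℕ) :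
    ‖M.charpoly.coeff i‖ ≤ 1 ∧ (M.map rd).charpoly.coeff i = rd (M.charpoly.coeff i) := by
  obtain ⟨N, rfl, h2⟩ := lift_mat (rd := rd) hM
  have h3 : (N.map (O Ω).subtype).charpoly.coeff i = (O Ω).subtype (N.charpoly.coeff i) := by
    rw [Matrix.charpoly_map, Polynomial.coeff_map]
  have h4 : (N.map (rdO hr)).charpoly.coeff i = rdO hr (N.charpoly.coeff i) := by
    rw [Matrix.charpoly_map, Polynomial.coeff_map]
  rw [h3]
  refine ⟨(N.charpoly.coeff i).2, ?_⟩
  rw [← h2 hr, h4]
  rfl

theorem twForm_res (hr : Red rd) (h : Good (fun g => ρ g) b A A') (hbs : bᵀ = b) {χ : G → Ω}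
    (hχ : ∀ g, ‖χ g - 1‖ < 1) (hdual : ∀ g, (ρ g)ᵀ * b * ρ (κ g) = χ g • b) :
    TwForm κ (toRep (resR hr h)) (Matrix.toBilin' ((Aᵀ * b * A).map rd)) := by
  set F := (Aᵀ * b * A).map rd with hF
  have hFs : Fᵀ = F := by
    rw [hF, ← Matrix.transpose_map, Matrix.transpose_mul, Matrix.transpose_mul,
      Matrix.transpose_transpose, hbs, Matrix.mul_assoc]
  have hFd : F.det ≠ 0 := by
    rw [hF, (det_red hr h.un).2]
    intro h0
    exact absurd ((hr.zero _ (det_red hr h.un).1).1 h0) (by rw [h.det]; exact lt_irrefl 1)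
  refine ⟨fun x y => ?_, fun x hx => ?_, fun g x y => ?_⟩
  · rw [Matrix.toBilin'_apply', Matrix.toBilin'_apply', Matrix.dotProduct_mulVec,
      ← Matrix.mulVec_transpose, hFs, dotProduct_comm]
  · exact (LinearMap.BilinForm.nondegenerate_toBilin'_iff_det_ne_zero.2 hFd).1 x hx
  · have hd : (resR hr h g)ᵀ * F * resR hr h (κ g) = F := by
      rw [resR_apply, resR_apply, ← Matrix.transpose_map, hF,
        ← red_mul hr (Int.transpose (h.st g)) h.un,
        ← red_mul hr (int_mul (Int.transpose (h.st g)) h.un) (h.st (κ g))]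
      have h1 : (A' * ρ g * A)ᵀ * (Aᵀ * b * A) * (A' * ρ (κ g) * A) = χ g • (Aᵀ * b * A) := by
        calc (A' * ρ g * A)ᵀ * (Aᵀ * b * A) * (A' * ρ (κ g) * A)
            = Aᵀ * (ρ g)ᵀ * (A'ᵀ * Aᵀ) * b * (A * A') * ρ (κ g) * A := by
              rw [Matrix.transpose_mul, Matrix.transpose_mul]
              noncomm_ring
          _ = Aᵀ * ((ρ g)ᵀ * b * ρ (κ g)) * A := by
              rw [← Matrix.transpose_mul A A', h.inv, Matrix.transpose_one]
              noncomm_ring
          _ = χ g • (Aᵀ * b * A) := by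
              rw [hdual, Matrix.mul_smul, Matrix.smul_mul]
      rw [h1]
      ext i j
      have h2 : ‖χ g‖ ≤ 1 := by
        have hu := Gn.ultra 2 Ω
        have h3 : χ g = (χ g - 1) + 1 := by ring
        rw [h3]
        exact (IsUltrametricDist.norm_add_le_max _ _).trans (max_le (hχ g).le (by simp))
      rw [Matrix.map_apply, Matrix.smul_apply, smul_eq_mul, hr.mul _ _ h2 (h.un i j),
        rd_eq hr h2 (hχ g), hr.one, one_mul, Matrix.map_apply]
    rw [toRep_apply, toRep_apply, Matrix.toBilin'_apply', Matrix.toBilin'_apply']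
    conv_rhs => rw [← hd]
    rw [← Matrix.mulVec_mulVec, ← Matrix.mulVec_mulVec, Matrix.dotProduct_mulVec x,
      Matrix.vecMul_transpose]

theorem charpoly_res (hr : Red rd) (h : Good (fun g => ρ g) b A A')
    (hch : ∀ g i, ‖(ρ (κ g)).charpoly.coeff i - (ρ g).charpoly.coeff i‖ < 1) (g : G) :
    (resR hr h (κ g)).charpoly = (resR hr h g).charpoly := by
  have h1 : ∀ g, (A' * ρ g * A).charpoly = (ρ g).charpoly := by
    intro g
    rw [Matrix.mul_assoc, Matrix.charpoly_mul_comm, Matrix.mul_assoc, h.inv, Matrix.mul_one]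
  ext i
  have h2 := coeff_red hr (h.st (κ g)) i
  have h3 := coeff_red hr (h.st g) i
  rw [resR_apply, resR_apply, h2.2, h3.2]
  refine rd_eq hr h2.1 ?_
  have h4 := hch g i
  rw [← h1 g, ← h1 (κ g)] at h4
  exact h4

section bases

variable {V : Type*} [AddCommGroup V] [Module k V]

private noncomputable def cb {U Y : Submodule k V} (hY : IsCompl U Y) {ι ι' : Type*}
    (u : Basis ι k U) (y : Basis ι' k Y) : Basis (ι ⊕ ι') k V :=
  (u.prod y).map (Submodule.prodEquivOfIsCompl U Y hY)

private theorem cb_repr_inl {U Y : Submodule k V} (hY : IsCompl U Y) {ι ι' : Type*}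
    (u : Basis ι k U) (y : Basis ι' k Y) (x : U) (i : ι) :
    (cb hY u y).repr (x : V) (Sum.inl i) = u.repr x i := by
  rw [cb, Basis.map_repr, LinearEquiv.trans_apply, Submodule.prodEquivOfIsCompl_symm_apply_left,
    Basis.prod_repr_inl]

private theorem cb_mem {U Y : Submodule k V} (hY : IsCompl U Y) {ι ι' : Type*}
    (u : Basis ι k U) (y : Basis ι' k Y) (x : V) :
    x ∈ U ↔ ∀ j, (cb hY u y).repr x (Sum.inr j) = 0 := by
  constructor
  · intro hx j
    have h1 := Submodule.prodEquivOfIsCompl_symm_apply_left U Y hY ⟨x, hx⟩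
    rw [cb, Basis.map_repr, LinearEquiv.trans_apply, h1, Basis.prod_repr_inr]
    simp
  · intro h
    have h1 : ((Submodule.prodEquivOfIsCompl U Y hY).symm x).2 = 0 := by
      refine y.ext_elem fun j => ?_
      have h2 := h j
      rw [cb, Basis.map_repr, LinearEquiv.trans_apply, Basis.prod_repr_inr] at h2
      rw [h2, map_zero]
      rfl
    exact (Submodule.prodEquivOfIsCompl_symm_apply_snd_eq_zero (h := hY)).1 h1

private theorem exists_basis [FiniteDimensional k V] (hn : finrank k V = n) {W U : Submodule k V}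
    (hWU : W ≤ U) : ∃ (e : Basis (Fin n) k V) (a : Fin n → ℤ),
      (∀ i, a i = -1 ∨ a i = 0 ∨ a i = 1) ∧
      (∀ x, x ∈ W ↔ ∀ i, a i ≠ -1 → e.repr x i = 0) ∧
      (∀ x, x ∈ U ↔ ∀ i, a i = 1 → e.repr x i = 0) := by
  obtain ⟨X, hX⟩ := exists_isCompl (W.comap U.subtype)
  obtain ⟨Y, hY⟩ := exists_isCompl U
  let eU := cb hX (finBasis k (W.comap U.subtype)) (finBasis k X)
  let e := cb hY eU (finBasis k Y)
  let a' : (Fin (finrank k (W.comap U.subtype)) ⊕ Fin (finrank k X)) ⊕ Fin (finrank k Y) → ℤ :=
    Sum.elim (Sum.elim (fun _ => -1) (fun _ => 0)) (fun _ => 1)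
  have hc : Fintype.card ((Fin (finrank k (W.comap U.subtype)) ⊕ Fin (finrank k X)) ⊕
      Fin (finrank k Y)) = n := by
    rw [← Module.finrank_eq_card_basis e, hn]
  let q := Fintype.equivFinOfCardEq hc
  have hUm : ∀ x, x ∈ U ↔ ∀ s, a' s = 1 → e.repr x s = 0 := by
    intro x
    rw [cb_mem hY eU (finBasis k Y)]
    constructor
    · intro h s hs
      rcases s with (s | s) | s
      · exact absurd hs (by show ¬ ((-1 : ℤ) = 1); norm_num)
      · exact absurd hs (by show ¬ ((0 : ℤ) = 1); norm_num)
      · exact h s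
    · exact fun h j => h (Sum.inr j) rfl
  have hWm : ∀ x, x ∈ W ↔ ∀ s, a' s ≠ -1 → e.repr x s = 0 := by
    intro x
    constructor
    · intro hx s hs
      rcases s with (s | s) | s
      · exact absurd rfl hs
      · have h1 := cb_repr_inl hY eU (finBasis k Y) ⟨x, hWU hx⟩ (Sum.inr s)
        exact h1.trans ((cb_mem hX _ _ _).1 (show (⟨x, hWU hx⟩ : U) ∈ W.comap U.subtype from hx) s)
      · exact (hUm x).1 (hWU hx) _ rfl
    · intro h
      have hxU : x ∈ U := (hUm x).2 fun s hs => h s (by rw [hs]; norm_num)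
      have h2 : (⟨x, hxU⟩ : U) ∈ W.comap U.subtype := by
        refine (cb_mem hX (finBasis k (W.comap U.subtype)) (finBasis k X) _).2 fun j => ?_
        rw [← cb_repr_inl hY eU (finBasis k Y) ⟨x, hxU⟩ (Sum.inr j)]
        exact h _ (by show ¬ ((0 : ℤ) = -1); norm_num)
      exact h2
  refine ⟨e.reindex q, a' ∘ q.symm, fun i => ?_, fun x => ?_, fun x => ?_⟩
  · show a' (q.symm i) = -1 ∨ a' (q.symm i) = 0 ∨ a' (q.symm i) = 1
    rcases q.symm i with (s | s) | s
    · exact Or.inl rfl
    · exact Or.inr (Or.inl rfl)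
    · exact Or.inr (Or.inr rfl)
  · rw [hWm]
    constructor
    · intro h i hi
      rw [Basis.repr_reindex_apply]
      exact h _ hi
    · intro h s hs
      have h1 := h (q s) (by rw [Function.comp_apply, Equiv.symm_apply_apply]; exact hs)
      rwa [Basis.repr_reindex_apply, Equiv.symm_apply_apply] at h1
  · rw [hUm]
    constructor
    · intro h i hi
      rw [Basis.repr_reindex_apply]
      exact h _ hi
    · intro h s hs
      have h1 := h (q s) (by rw [Function.comp_apply, Equiv.symm_apply_apply]; exact hs)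
      rwa [Basis.repr_reindex_apply, Equiv.symm_apply_apply] at h1

end bases

/-- the form of weight 0 is nondegenerate -/
private theorem gr_nondeg {V : Type*} [AddCommGroup V] [Module k V] [FiniteDimensional k V]
    {R : Representation k G V} {B : LinearMap.BilinForm k V} (hB : TwForm κ R B)
    {W : Submodule k V} (hiso : ∀ x ∈ W, ∀ y ∈ W, B x y = 0)
    (e : Basis (Fin n) k V) (a : Fin n → ℤ) (ha : ∀ i, a i = -1 ∨ a i = 0 ∨ a i = 1)
    (hW : ∀ x, x ∈ W ↔ ∀ i, a i ≠ -1 → e.repr x i = 0)
    (hU : ∀ x, x ∈ B.orthogonal W ↔ ∀ i, a i = 1 → e.repr x i = 0) :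
    (grB a (LinearMap.BilinForm.toMatrix e B)).det ≠ 0 := by
  classical
  have hWU : W ≤ B.orthogonal W := fun x hx y hy => hiso y hy x hx
  have hUW : B.orthogonal (B.orthogonal W) = W := by
    symm
    refine Submodule.eq_of_le_of_finrank_eq (fun x hx y hy => ?_) ?_
    · rw [hB.symm]
      exact hy x hx
    · have h1 := finrank_orth hB W
      have h2 := finrank_orth hB (B.orthogonal W)
      omega
  have heW : ∀ j, a j = -1 → e j ∈ W := by
    intro j hj
    refine (hW _).2 fun i hi => ?_
    rw [Basis.repr_self, Finsupp.single_apply, if_neg]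
    rintro rfl
    exact hi hj
  have heU : ∀ j, a j ≠ 1 → e j ∈ B.orthogonal W := by
    intro j hj
    refine (hU _).2 fun i hi => ?_
    rw [Basis.repr_self, Finsupp.single_apply, if_neg]
    rintro rfl
    exact hj hi
  have hext : ∀ x : V, (∀ j, B x (e j) = 0) → x = 0 := by
    intro x hx
    refine hB.nondeg x fun y => ?_
    rw [← e.sum_repr y, map_sum]
    exact Finset.sum_eq_zero fun j _ => by rw [map_smul, hx, smul_zero]
  have hUm : ∀ x : V, (∀ j, a j = -1 → B x (e j) = 0) → x ∈ B.orthogonal W := by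
    intro x hx y hy
    rw [← e.sum_repr y, map_sum, LinearMap.sum_apply]
    refine Finset.sum_eq_zero fun j _ => ?_
    rw [map_smul, LinearMap.smul_apply, hB.symm]
    by_cases hj : a j = -1
    · rw [hx j hj, smul_zero]
    · rw [(hW y).1 hy j hj, zero_smul]
  have hWm : ∀ x : V, (∀ j, a j ≠ 1 → B x (e j) = 0) → x ∈ W := by
    intro x hx
    rw [← hUW]
    intro y hy
    rw [← e.sum_repr y, map_sum, LinearMap.sum_apply]
    refine Finset.sum_eq_zero fun j _ => ?_
    rw [map_smul, LinearMap.smul_apply, hB.symm]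
    by_cases hj : a j = 1
    · rw [(hU y).1 hy j hj, zero_smul]
    · rw [hx j hj, smul_zero]
  intro hdet
  obtain ⟨v, hv0, hv⟩ := Matrix.exists_vecMul_eq_zero_iff.2 hdet
  refine hv0 ?_
  let x : ℤ → V := fun c => ∑ i, (if a i = c then v i else 0) • e i
  have hx1 : ∀ j, B (x (-a j)) (e j) = 0 := by
    intro j
    have h1 := congrFun hv j
    rw [Matrix.vecMul, dotProduct, Pi.zero_apply] at h1
    rw [← h1]
    simp only [x]
    rw [map_sum, LinearMap.sum_apply]
    refine Finset.sum_congr rfl fun i _ => ?_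
    rw [map_smul, LinearMap.smul_apply, grB, LinearMap.BilinForm.toMatrix_apply, smul_eq_mul]
    by_cases hij : a i + a j = 0
    · rw [if_pos hij, if_pos (by omega)]
    · rw [if_neg hij, if_neg (by omega), zero_mul, mul_zero]
  have hrepr : ∀ c i, e.repr (x c) i = if a i = c then v i else 0 := by
    intro c i
    simp only [x]
    rw [map_sum, Finset.sum_apply']
    rw [Finset.sum_eq_single i]
    · rw [map_smul, Basis.repr_self, Finsupp.smul_single, Finsupp.single_eq_same, smul_eq_mul,
        mul_one]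
    · intro j _ hji
      rw [map_smul, Basis.repr_self, Finsupp.smul_single, Finsupp.single_eq_of_ne hji.symm]
    · exact fun h => absurd (Finset.mem_univ i) h
  -- weight 1
  have h1 : ∀ i, a i = 1 → v i = 0 := by
    intro i hi
    have h2 : x 1 ∈ B.orthogonal W := by
      refine hUm _ fun j hj => ?_
      have h3 := hx1 j
      rw [hj, neg_neg] at h3
      exact h3
    have h4 := (hU _).1 h2 i hi
    rwa [hrepr, if_pos hi] at h4
  have hx0U : x 0 ∈ B.orthogonal W := by
    refine (hU _).2 fun i hi => ?_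
    rw [hrepr, if_neg (by omega)]
  have h0 : ∀ i, a i = 0 → v i = 0 := by
    intro i hi
    have h2 : x 0 ∈ W := by
      refine hWm _ fun j hj => ?_
      rcases ha j with hj1 | hj1 | hj1
      · rw [hB.symm]
        exact hx0U _ (heW j hj1)
      · have h3 := hx1 j
        rw [hj1, neg_zero] at h3
        exact h3
      · exact absurd hj1 hj
    have h4 := (hW _).1 h2 i (by omega)
    rwa [hrepr, if_pos hi] at h4
  have hxW : x (-1) ∈ W := by
    refine (hW _).2 fun i hi => ?_
    rw [hrepr, if_neg hi]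
  have hm : x (-1) = 0 := by
    refine hext _ fun j => ?_
    rcases eq_or_ne (a j) 1 with hj | hj
    · have h3 := hx1 j
      rw [hj] at h3
      exact h3
    · exact heU j hj _ hxW
  funext i
  rcases ha i with hi | hi | hi
  · have h5 := hrepr (-1) i
    rw [hm, if_pos hi, map_zero] at h5
    exact h5.symm
  · exact h0 i hi
  · exact h1 i hi

variable [IsAlgClosed Ω]

private theorem step (hκ : ∀ g, κ (κ g) = g) (hr : Red rd) (hd : Disc (fun g => ρ g))
    (h : Good (fun g => ρ g) b A A')
    (hB : TwForm κ (toRep (resR hr h)) (Matrix.toBilin' ((Aᵀ * b * A).map rd)))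
    (hs : ¬ Ss (toRep (resR hr h))) :
    ∃ (A₁ A₁' : Matrix (Fin n) (Fin n) Ω) (h' : Good (fun g => ρ g) b A₁ A₁'),
      finrank k (Submodule.span k (Set.range fun g => resR hr h' g)) <
        finrank k (Submodule.span k (Set.range fun g => resR hr h g)) := by
  classical
  obtain ⟨W, r, hWs, hiso, hrs, hr0, hrW, hrk⟩ := (ss_or_exists hκ hB).resolve_left hs
  set F := (Aᵀ * b * A).map rd with hF
  set B := Matrix.toBilin' F with hBd
  have hWU : W ≤ B.orthogonal W := fun x hx y hy => hiso y hy x hx
  obtain ⟨e, a, ha, hW, hU⟩ := exists_basis (n := n) (Module.finrank_fin_fun k) hWU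
  have heW : ∀ j, a j = -1 → e j ∈ W := by
    intro j hj
    refine (hW _).2 fun i hi => ?_
    rw [Basis.repr_self, Finsupp.single_apply, if_neg]
    rintro rfl
    exact hi hj
  have heU : ∀ j, a j ≠ 1 → e j ∈ B.orthogonal W := by
    intro j hj
    refine (hU _).2 fun i hi => ?_
    rw [Basis.repr_self, Finsupp.single_apply, if_neg]
    rintro rfl
    exact hj hi
  set P := (Pi.basisFun k (Fin n)).toMatrix e with hP
  set P' := e.toMatrix (Pi.basisFun k (Fin n)) with hP'
  have hPP : P * P' = 1 := Basis.toMatrix_mul_toMatrix_flip _ _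
  have hM : ∀ f : (Fin n → k) →ₗ[k] (Fin n → k), P' * LinearMap.toMatrix' f * P =
      LinearMap.toMatrix e e f := by
    intro f
    rw [← basis_toMatrix_mul_linearMap_toMatrix_mul_basis_toMatrix e (Pi.basisFun k (Fin n)) e
      (Pi.basisFun k (Fin n)), LinearMap.toMatrix_eq_toMatrix']
  have hRm : ∀ g, LinearMap.toMatrix' (toRep (resR hr h) g) = resR hr h g :=
    fun g => LinearMap.toMatrix'_toLin' _
  have hR : ∀ g, P' * resR hr h g * P = LinearMap.toMatrix e e (toRep (resR hr h) g) := by
    intro g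
    rw [← hM, hRm]
  have hFF : Pᵀ * F * P = LinearMap.BilinForm.toMatrix e B := by
    rw [← LinearMap.BilinForm.toMatrix_mul_basis_toMatrix (Pi.basisFun k (Fin n)) e,
      LinearMap.BilinForm.toMatrix_basisFun, hBd, LinearMap.BilinForm.toMatrix'_toBilin']
  have hh1 : ∀ g i j, a j < a i → (P' * resR hr h g * P) i j = 0 := by
    intro g i j hij
    rw [hR, LinearMap.toMatrix_apply]
    rcases ha j with hj | hj | hj
    · exact (hW _).1 (hWs g _ (heW j hj)) i (by omega)
    · exact (hU _).1 (stab_orth hκ hB hWs g _ (heU j (by omega))) i (by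
        rcases ha i with hi | hi | hi <;> omega)
    · rcases ha i with hi | hi | hi <;> omega
  have hh2 : ∀ i j, a i + a j < 0 → (Pᵀ * F * P) i j = 0 := by
    intro i j hij
    rw [hFF, LinearMap.BilinForm.toMatrix_apply]
    rcases ha i with hi | hi | hi
    · exact heU j (by rcases ha j with hj | hj | hj <;> omega) _ (heW i hi)
    · have hj : a j = -1 := by rcases ha j with hj | hj | hj <;> omega
      rw [hB.symm]
      exact heU i (by omega) _ (heW j hj)
    · rcases ha j with hj | hj | hj <;> omega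
  obtain ⟨A₁, A₁', h', h8, h9⟩ := exists_lat hr hd h hPP a hh1 hh2 (by
    rw [← hF, hFF]
    exact gr_nondeg hB hiso e a ha hW hU)
  refine ⟨A₁, A₁', h', ?_⟩
  let L : Matrix (Fin n) (Fin n) k →ₗ[k] Matrix (Fin n) (Fin n) k :=
    { toFun := fun M => grM a (P' * M * P)
      map_add' := fun M N => by
        ext i j
        rw [grM, Matrix.mul_add, Matrix.add_mul, Matrix.add_apply, Matrix.add_apply, grM, grM]
        split_ifs
        · rfl
        · rw [add_zero]
      map_smul' := fun c M => by
        ext i j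
        rw [grM, Matrix.mul_smul, Matrix.smul_mul, Matrix.smul_apply, RingHom.id_apply,
          Matrix.smul_apply, grM]
        split_ifs
        · rfl
        · rw [smul_zero] }
  have hspan : Submodule.span k (Set.range fun g => resR hr h' g) =
      (Submodule.span k (Set.range fun g => resR hr h g)).map L := by
    rw [Submodule.map_span, ← Set.range_comp]
    congr 2
    funext g
    exact h8 g
  rw [hspan]
  set S := Submodule.span k (Set.range fun g => resR hr h g) with hS
  have hrS : LinearMap.toMatrix' r ∈ S := by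
    have h10 : S = (Submodule.span k (Set.range fun g => toRep (resR hr h) g)).map
        (LinearMap.toMatrix' (R := k) (n := Fin n) (m := Fin n)).toLinearMap := by
      rw [Submodule.map_span, ← Set.range_comp, hS]
      congr 2
      funext g
      exact (hRm g).symm
    rw [h10]
    exact ⟨r, hrs, rfl⟩
  have hLr : L (LinearMap.toMatrix' r) = 0 := by
    ext i j
    show grM a (P' * LinearMap.toMatrix' r * P) i j = 0
    rw [hM, grM]
    split_ifs with hij
    · rw [LinearMap.toMatrix_apply]
      by_cases hj : a j = -1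
      · rw [hrk _ (heW j hj), map_zero]
        rfl
      · exact (hW _).1 (hrW _) i (by rw [hij]; exact hj)
    · rfl
  have hrank := LinearMap.finrank_range_add_finrank_ker (L.domRestrict S)
  have hrange : LinearMap.range (L.domRestrict S) = S.map L := by
    rw [LinearMap.domRestrict, LinearMap.range_comp, Submodule.range_subtype]
  rw [hrange] at hrank
  have hker : 0 < finrank k (LinearMap.ker (L.domRestrict S)) := by
    have hnt : Nontrivial (LinearMap.ker (L.domRestrict S)) := by
      refine (Submodule.nontrivial_iff_ne_bot).2 ?_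
      refine (Submodule.ne_bot_iff _).2 ⟨⟨_, hrS⟩, hLr, fun h0 => hr0 ?_⟩
      have h11 : LinearMap.toMatrix' r = 0 := congrArg Subtype.val h0
      exact (LinearEquiv.map_eq_zero_iff _).1 h11
    exact Module.finrank_pos (R := k) (M := LinearMap.ker (L.domRestrict S))
  omega

theorem exists_ss (hκ : ∀ g, κ (κ g) = g) (hr : Red rd) (hd : Disc (fun g => ρ g))
    (h : Good (fun g => ρ g) b A A') (hbs : bᵀ = b) {χ : G → Ω} (hχ : ∀ g, ‖χ g - 1‖ < 1)
    (hdual : ∀ g, (ρ g)ᵀ * b * ρ (κ g) = χ g • b) :
    ∃ (A₁ A₁' : Matrix (Fin n) (Fin n) Ω) (h' : Good (fun g => ρ g) b A₁ A₁'),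
      Ss (toRep (resR hr h')) := by
  induction hm : finrank k (Submodule.span k (Set.range fun g => resR hr h g)) using
    Nat.strong_induction_on generalizing A A' with
  | _ m ih =>
    by_cases hs : Ss (toRep (resR hr h))
    · exact ⟨A, A', h, hs⟩
    · obtain ⟨A₁, A₁', h', hlt⟩ := step hκ hr hd h (twForm_res hr h hbs hχ hdual) hs
      exact ih _ (hm ▸ hlt) h' rfl

end Pool.Agent.Work.MP_787500_nt.RB
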