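import Mathlib
import Pool.Agent.Work.MP_787500_nt.RB.Defs
import Pool.Agent.Work.MP_787500_nt.RB.Basic

/-!
# RB/BNa (size M-L, ANYBODY): multiplicities modulo 2 and traces (density theorem)

`hom τ ρ` = the space of intertwining maps from `τ` to `ρ` (its dimension is the multiplicity of the irreducible `τ` in the
semisimple `ρ`). `k` is algebraically closed of characteristic 2, all spaces are finite dimensional.

`hom_mod_two`: if `ρ`, `ρ'` are semisimple with the same traces and `τ` is irreducible then the multiplicities are congruent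
modulo 2. PROOF. `R = MonoidAlgebra k G`; `M = asModule` of `ρ × ρ' × τ` (a semisimple `R`-module; Mathlib:
`Representation.isSemisimpleRepresentation_iff_isSemisimpleModule_asModule`, `Representation.asModule`; `Ss` is
`ComplementedLattice` of the lattice of stable subspaces). Let `e : T → T` be a `k`-linear projection of rank 1. The isotypic
component of type `τ` of `ρ` is `⊕ f_i (T)` for a basis `f_1, ..., f_m` of `hom τ ρ` (Schur), let `E_ρ` be `f_i ∘ e ∘ f_i⁻¹` on
`f_i (T)` and 0 on a stable complement that has no nonzero map from `τ`; the trace of `E_ρ` is `m`. The map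
`(E_ρ, E_ρ', e)` of `M` commutes with all `R`-endomorphisms of `M` (Schur: an endomorphism maps the isotypic component to
itself by a matrix of scalars, and the complement to the complement), so by the density theorem (`jacobson_density`, `M` is
finitely generated over `End_R M` because it is finite dimensional over `k`; or `Module.Finite.toModuleEnd_moduleEnd_surjective`)
there is `r : R` that acts on `M` as this map. The trace of the action of `r = ∑ c_g g` on `ρ` is `∑ c_g trace (ρ g)`, the same for
`ρ'`. So `(m : k) = (m' : k)`, and `k` has characteristic 2. (Variant: use Mathlib's `isotypicComponent`,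
`IsIsotypicOfType.linearEquiv_fun`, `iSupIndep.algEquiv`, whatever is shorter. It is enough to know the trace of `r` on a
semisimple module is `m • trace e` if `r` acts on every submodule isomorphic to `T` as a conjugate of `e` and on every simple
submodule not isomorphic to `T` as 0.)
-/

set_option autoImplicit false
set_option linter.unusedSectionVars false

namespace Pool.Agent.Work.MP_787500_nt.RB

open Matrix Module

section defs

variable {G : Type*} [Group G] {k : Type*} [Field k] {V V' : Type*} [AddCommGroup V] [Module k V]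
  [AddCommGroup V'] [Module k V']

/-- the intertwining maps -/
def hom (ρ : Representation k G V) (ρ' : Representation k G V') : Submodule k (V →ₗ[k] V') where
  carrier := {f | ∀ g x, f (ρ g x) = ρ' g (f x)}
  add_mem' := fun {f f'} hf hf' g x => by
    rw [LinearMap.add_apply, LinearMap.add_apply, hf, hf', map_add]
  zero_mem' := fun g x => by
    rw [LinearMap.zero_apply, LinearMap.zero_apply, map_zero]
  smul_mem' := fun c f hf g x => by
    rw [LinearMap.smul_apply, LinearMap.smul_apply, hf, map_smul]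

end defs

universe u

section semisimple

variable {R : Type*} [Ring R] {M P : Type*} [AddCommGroup M] [Module R M] [AddCommGroup P]
  [Module R P]

private theorem ss_prodM [IsSemisimpleModule R M] [IsSemisimpleModule R P] :
    IsSemisimpleModule R (M × P) := by
  have h1 : IsSemisimpleModule R (LinearMap.range (LinearMap.inl R M P)) :=
    IsSemisimpleModule.of_surjective (LinearMap.inl R M P).rangeRestrict
      (LinearMap.surjective_rangeRestrict _)
  have h2 : IsSemisimpleModule R (LinearMap.range (LinearMap.inr R M P)) :=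
    IsSemisimpleModule.of_surjective (LinearMap.inr R M P).rangeRestrict
      (LinearMap.surjective_rangeRestrict _)
  have h3 := IsSemisimpleModule.sup h1 h2
  rw [LinearMap.sup_range_inl_inr] at h3
  exact IsSemisimpleModule.congr Submodule.topEquiv.symm

private theorem density2 [IsSemisimpleModule R M] [IsSemisimpleModule R P]
    (h1 : ∀ φ : M →ₗ[R] P, φ = 0) (h2 : ∀ φ : P →ₗ[R] M, φ = 0) (e : M →+ M)
    (he : ∀ (φ : M →ₗ[R] M) x, φ (e x) = e (φ x)) (s : Finset M) (s' : Finset P) :
    ∃ r : R, (∀ t ∈ s, r • t = e t) ∧ ∀ p ∈ s', r • p = 0 := by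
  classical
  have : IsSemisimpleModule R (M × P) := ss_prodM
  have key : ∀ (φ : M × P →ₗ[R] M × P) (x : M × P), φ (e x.1, 0) = (e (φ x).1, 0) := by
    intro φ x
    have h3 : ∀ y : M, (φ (y, 0)).2 = 0 := fun y =>
      LinearMap.congr_fun (h1 ((LinearMap.snd R M P).comp (φ.comp (LinearMap.inl R M P)))) y
    have h4 : ∀ p : P, (φ (0, p)).1 = 0 := fun p =>
      LinearMap.congr_fun (h2 ((LinearMap.fst R M P).comp (φ.comp (LinearMap.inr R M P)))) p
    have h5 : (φ x).1 = (φ (x.1, 0)).1 := by
      have h6 : x = (x.1, 0) + (0, x.2) := by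
        rw [Prod.mk_add_mk, add_zero, zero_add]
      conv_lhs => rw [h6]
      rw [map_add, Prod.fst_add, h4, add_zero]
    have h7 := he ((LinearMap.fst R M P).comp (φ.comp (LinearMap.inl R M P))) x.1
    change (φ (e x.1, 0)).1 = e (φ (x.1, 0)).1 at h7
    exact Prod.ext (by rw [h7, h5]) (h3 _)
  let f : Module.End (Module.End R (M × P)) (M × P) :=
    { toFun := fun x => (e x.1, 0)
      map_add' := fun x y => by rw [Prod.fst_add, map_add, Prod.mk_add_mk, add_zero]
      map_smul' := fun φ x => (key φ x).symm }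
  obtain ⟨r, hr⟩ := jacobson_density f (s.image (fun t => (t, (0 : P))) ∪
    s'.image (fun p => ((0 : M), p)))
  refine ⟨r, fun t ht => ?_, fun p hp => ?_⟩
  · have h := hr (t, 0) (Finset.mem_union_left _ (Finset.mem_image_of_mem _ ht))
    exact (congrArg Prod.fst h).symm
  · have h := hr (0, p) (Finset.mem_union_right _ (Finset.mem_image_of_mem _ hp))
    exact (congrArg Prod.snd h).symm

end semisimple

section rep

variable {G : Type*} [Group G] {k : Type*} [Field k] {U U' : Type*} [AddCommGroup U] [Module k U]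
  [AddCommGroup U'] [Module k U'] {σ : Representation k G U} {σ' : Representation k G U'}

private theorem ss_asModule (h : Ss σ) : IsSemisimpleModule (MonoidAlgebra k G) σ.asModule := by
  rw [← Representation.isSemisimpleRepresentation_iff_isSemisimpleModule_asModule]
  refine ⟨fun W => ?_⟩
  obtain ⟨W', hW', hc⟩ := h W.toSubmodule fun g x hx => W.apply_mem_toSubmodule g hx
  refine ⟨⟨W', fun g v hv => hW' g v hv⟩, ?_, ?_⟩
  · rw [disjoint_iff]
    exact Subrepresentation.toSubmodule_injective hc.inf_eq_bot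
  · rw [codisjoint_iff]
    exact Subrepresentation.toSubmodule_injective hc.sup_eq_top

private theorem hom_nat {f : U →ₗ[k] U'} (hf : f ∈ hom σ σ') (a : MonoidAlgebra k G) (x : U) :
    f (σ.asAlgebraHom a x) = σ'.asAlgebraHom a (f x) := by
  induction a using MonoidAlgebra.induction_linear with
  | zero => rw [map_zero, map_zero, LinearMap.zero_apply, LinearMap.zero_apply, map_zero]
  | add a b ha hb =>
    rw [map_add, map_add, LinearMap.add_apply, LinearMap.add_apply, map_add, ha, hb]
  | single g c =>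
    rw [Representation.asAlgebraHom_single, Representation.asAlgebraHom_single,
      LinearMap.smul_apply, LinearMap.smul_apply, map_smul, hf g x]

private theorem sub_mem_hom {W : Submodule k U} (hW : Stab σ W) : W.subtype ∈ hom (sub σ W hW) σ :=
  fun _ _ => rfl

private theorem toHom (φ : σ.asModule →ₗ[MonoidAlgebra k G] σ'.asModule) (h : hom σ σ' = ⊥) :
    φ = 0 := by
  let f : U →ₗ[k] U' :=
    { toFun := fun x => σ'.asModuleEquiv (φ (σ.asModuleEquiv.symm x))
      map_add' := fun x y => by rw [map_add, map_add, map_add]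
      map_smul' := fun c x => by
        rw [Representation.asModuleEquiv_symm_map_smul, map_smul,
          Representation.asModuleEquiv_map_smul, AlgHom.commutes]
        rfl }
  have hf : f ∈ hom σ σ' := by
    intro g x
    change σ'.asModuleEquiv (φ (σ.asModuleEquiv.symm (σ g x))) = _
    rw [Representation.asModuleEquiv_symm_map_rho, map_smul,
      Representation.asModuleEquiv_map_smul, Representation.asAlgebraHom_of]
    rfl
  rw [h, Submodule.mem_bot] at hf
  ext x
  have h1 := LinearMap.congr_fun hf (σ.asModuleEquiv x)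
  change σ'.asModuleEquiv (φ (σ.asModuleEquiv.symm (σ.asModuleEquiv x))) = 0 at h1
  rw [LinearEquiv.symm_apply_apply] at h1
  exact (LinearEquiv.map_eq_zero_iff _).1 h1

private theorem fromEnd (φ : σ.asModule →ₗ[MonoidAlgebra k G] σ.asModule)
    (h : ∀ f ∈ hom σ σ, ∃ c : k, ∀ x, f x = c • x) (e : U →ₗ[k] U) (x : σ.asModule) :
    φ (σ.asModuleEquiv.symm (e (σ.asModuleEquiv x))) =
      σ.asModuleEquiv.symm (e (σ.asModuleEquiv (φ x))) := by
  let f : U →ₗ[k] U :=
    { toFun := fun x => σ.asModuleEquiv (φ (σ.asModuleEquiv.symm x))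
      map_add' := fun x y => by rw [map_add, map_add, map_add]
      map_smul' := fun c x => by
        rw [Representation.asModuleEquiv_symm_map_smul, map_smul,
          Representation.asModuleEquiv_map_smul, AlgHom.commutes]
        rfl }
  have hf : f ∈ hom σ σ := by
    intro g x
    change σ.asModuleEquiv (φ (σ.asModuleEquiv.symm (σ g x))) = _
    rw [Representation.asModuleEquiv_symm_map_rho, map_smul,
      Representation.asModuleEquiv_map_smul, Representation.asAlgebraHom_of]
    rfl
  obtain ⟨c, hc⟩ := h f hf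
  have h1 : ∀ y : U, φ (σ.asModuleEquiv.symm y) = σ.asModuleEquiv.symm (c • y) := by
    intro y
    rw [LinearEquiv.eq_symm_apply]
    exact hc y
  have h2 : φ x = σ.asModuleEquiv.symm (c • σ.asModuleEquiv x) := by
    rw [← h1, LinearEquiv.symm_apply_apply]
  rw [h1, h2, LinearEquiv.apply_symm_apply, map_smul e]

end rep

section lin

variable {k : Type*} [Field k] {U : Type*} [AddCommGroup U] [Module k U] [FiniteDimensional k U]

private theorem trace_split {X Y : Submodule k U} (hc : IsCompl X Y) (F : U →ₗ[k] U)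
    (hX : ∀ x ∈ X, F x ∈ X) (hY : ∀ x ∈ Y, F x ∈ Y) :
    LinearMap.trace k U F = LinearMap.trace k X (F.restrict hX) +
      LinearMap.trace k Y (F.restrict hY) := by
  rw [← LinearMap.trace_prodMap', ← LinearMap.trace_conj' _ (Submodule.prodEquivOfIsCompl X Y hc)]
  congr 1
  ext x
  obtain ⟨⟨a, b⟩, rfl⟩ := (Submodule.prodEquivOfIsCompl X Y hc).surjective x
  rw [LinearEquiv.conj_apply_apply, LinearEquiv.symm_apply_apply, LinearMap.prodMap_apply,
    Submodule.coe_prodEquivOfIsCompl', Submodule.coe_prodEquivOfIsCompl', map_add]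
  rfl

end lin

section main

variable {G : Type*} [Group G] {k : Type*} [Field k] [IsAlgClosed k]
  {T : Type u} [AddCommGroup T] [Module k T] [FiniteDimensional k T] {τ : Representation k G T}

private theorem schur (hτ : Irr τ) {f : T →ₗ[k] T} (hf : f ∈ hom τ τ) : ∃ c : k, ∀ x, f x = c • x := by
  obtain ⟨x0, hx0⟩ := hτ.1
  have : Nontrivial T := ⟨⟨x0, 0, hx0⟩⟩
  obtain ⟨c, hc⟩ := Module.End.exists_eigenvalue f
  refine ⟨c, fun x => ?_⟩
  have hs : Stab τ (Module.End.eigenspace f c) := by
    intro g x hx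
    rw [Module.End.mem_eigenspace_iff] at hx ⊢
    rw [hf g x, hx, map_smul]
  rcases hτ.2 _ hs with h | h
  · exact absurd h hc
  · exact Module.End.mem_eigenspace_iff.1 (by rw [h]; exact Submodule.mem_top)

omit [IsAlgClosed k] [FiniteDimensional k T] in
private theorem ker_bot (hτ : Irr τ) {V : Type*} [AddCommGroup V] [Module k V]
    {ρ : Representation k G V} {f : T →ₗ[k] V} (hf : f ∈ hom τ ρ) (h0 : f ≠ 0) :
    Function.Injective f := by
  have hk : Stab τ (LinearMap.ker f) := by
    intro g x hx
    rw [LinearMap.mem_ker] at hx ⊢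
    rw [hf g x, hx, map_zero]
  rcases hτ.2 _ hk with h | h
  · exact LinearMap.ker_eq_bot.1 h
  · exact absurd (LinearMap.ker_eq_top.1 h) h0

omit [IsAlgClosed k] [FiniteDimensional k T] in
private theorem hom_rev (hτ : Irr τ) {V : Type*} [AddCommGroup V] [Module k V]
    {σ : Representation k G V} (hs : Ss σ) (h : hom τ σ = ⊥) : hom σ τ = ⊥ := by
  rw [Submodule.eq_bot_iff]
  intro f hf
  by_contra h0
  have hr : Stab τ (LinearMap.range f) := by
    rintro g _ ⟨x, rfl⟩
    exact ⟨σ g x, hf g x⟩
  have hsurj : LinearMap.range f = ⊤ := by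
    rcases hτ.2 _ hr with h1 | h1
    · exact absurd (LinearMap.range_eq_bot.1 h1) h0
    · exact h1
  have hk : Stab σ (LinearMap.ker f) := by
    intro g x hx
    rw [LinearMap.mem_ker] at hx ⊢
    rw [hf g x, hx, map_zero]
  obtain ⟨C, hC, hc⟩ := hs _ hk
  have hbij : Function.Bijective (f.domRestrict C) := by
    constructor
    · rw [← LinearMap.ker_eq_bot, Submodule.eq_bot_iff]
      intro x hx
      have h1 : (x : V) ∈ LinearMap.ker f ⊓ C := ⟨hx, x.2⟩
      rw [hc.inf_eq_bot, Submodule.mem_bot] at h1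
      exact Subtype.ext h1
    · intro t
      have h1 : t ∈ LinearMap.range f := by rw [hsurj]; exact Submodule.mem_top
      obtain ⟨u, rfl⟩ := h1
      have h2 : u ∈ LinearMap.ker f ⊔ C := by rw [hc.sup_eq_top]; exact Submodule.mem_top
      obtain ⟨a, ha, b, hb, rfl⟩ := Submodule.mem_sup.1 h2
      refine ⟨⟨b, hb⟩, ?_⟩
      rw [map_add, LinearMap.mem_ker.1 ha, zero_add]
      rfl
  let E := LinearEquiv.ofBijective (f.domRestrict C) hbij
  have hE : ∀ t, f (E.symm t : V) = t := fun t => by
    have h1 := E.apply_symm_apply t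
    exact h1
  have hh : C.subtype.comp (E.symm : T →ₗ[k] C) ∈ hom τ σ := by
    intro s t
    change (E.symm (τ s t) : V) = σ s (E.symm t : V)
    have h1 : E.symm (τ s t) = ⟨σ s (E.symm t : V), hC s _ (E.symm t).2⟩ := by
      rw [LinearEquiv.symm_apply_eq]
      change _ = f (σ s (E.symm t : V))
      rw [hf, hE]
    rw [h1]
  rw [h, Submodule.mem_bot] at hh
  obtain ⟨t, ht⟩ := hτ.1
  apply ht
  rw [← hE t]
  have h1 := LinearMap.congr_fun hh t
  change (E.symm t : V) = 0 at h1
  rw [h1, map_zero]

private theorem finrank_hom (hτ : Irr τ) {V U₁ : Type*} [AddCommGroup V] [Module k V]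
    [FiniteDimensional k V] [AddCommGroup U₁] [Module k U₁] [FiniteDimensional k U₁]
    {ρ : Representation k G V} {ρ₁ : Representation k G U₁} {f0 : T →ₗ[k] V} (hf0 : f0 ∈ hom τ ρ)
    (h0 : f0 ≠ 0) {j : U₁ →ₗ[k] V} (hj : ∀ g x, j (ρ₁ g x) = ρ g (j x))
    (hji : Function.Injective j) (hc : IsCompl (LinearMap.range f0) (LinearMap.range j)) :
    finrank k (hom τ ρ) = 1 + finrank k (hom τ ρ₁) := by
  have hinj := ker_bot hτ hf0 h0
  have hmem : ∀ p : k × hom τ ρ₁,
      p.1 • f0 + j.comp (p.2 : T →ₗ[k] U₁) ∈ hom τ ρ := by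
    intro p
    refine Submodule.add_mem _ (Submodule.smul_mem _ _ hf0) fun g x => ?_
    rw [LinearMap.comp_apply, LinearMap.comp_apply, p.2.2 g x, hj]
  let Φ : (k × hom τ ρ₁) →ₗ[k] hom τ ρ :=
    { toFun := fun p => ⟨p.1 • f0 + j.comp (p.2 : T →ₗ[k] U₁), hmem p⟩
      map_add' := fun p q => by
        apply Subtype.ext
        ext x
        change (p.1 + q.1) • f0 x + j ((p.2 : T →ₗ[k] U₁) x + (q.2 : T →ₗ[k] U₁) x) =
          (p.1 • f0 x + j ((p.2 : T →ₗ[k] U₁) x)) + (q.1 • f0 x + j ((q.2 : T →ₗ[k] U₁) x))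
        rw [add_smul, map_add]
        abel
      map_smul' := fun c p => by
        apply Subtype.ext
        ext x
        change (c * p.1) • f0 x + j (c • ((p.2 : T →ₗ[k] U₁) x)) =
          c • (p.1 • f0 x + j ((p.2 : T →ₗ[k] U₁) x))
        rw [smul_add, mul_smul, map_smul] }
  have hΦ : ∀ p x, (Φ p : T →ₗ[k] V) x = p.1 • f0 x + j ((p.2 : T →ₗ[k] U₁) x) := fun _ _ => rfl
  have hbij : Function.Bijective Φ := by
    constructor
    · rw [← LinearMap.ker_eq_bot, Submodule.eq_bot_iff]
      intro p hp
      have h1 : ∀ x, p.1 • f0 x + j ((p.2 : T →ₗ[k] U₁) x) = 0 := fun x => by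
        rw [← hΦ, LinearMap.mem_ker.1 hp]
        rfl
      have h2 : ∀ x, p.1 • f0 x = 0 := by
        intro x
        have h3 : p.1 • f0 x ∈ LinearMap.range f0 ⊓ LinearMap.range j := by
          refine ⟨Submodule.smul_mem _ _ ⟨x, rfl⟩, ?_⟩
          rw [eq_neg_of_add_eq_zero_left (h1 x)]
          exact Submodule.neg_mem _ ⟨_, rfl⟩
        rwa [hc.inf_eq_bot, Submodule.mem_bot] at h3
      obtain ⟨x0, hx0⟩ := hτ.1
      have h4 : p.1 = 0 := by
        rcases smul_eq_zero.1 (h2 x0) with h5 | h5
        · exact h5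
        · exact absurd (hinj (by rw [h5, map_zero])) hx0
      have h6 : p.2 = 0 := by
        apply Subtype.ext
        ext x
        have h7 := h1 x
        rw [h2, zero_add] at h7
        exact hji (by rw [h7, Submodule.coe_zero, LinearMap.zero_apply, map_zero])
      exact Prod.ext h4 h6
    · rintro ⟨g, hg⟩
      let π := Submodule.projectionOnto (LinearMap.range f0) (LinearMap.range j) hc
      let E := LinearEquiv.ofInjective f0 hinj
      let J := LinearEquiv.ofInjective j hji
      have hdec : ∀ v : V, ∃ w ∈ LinearMap.range j, v = (π v : V) + w := by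
        intro v
        have h1 : v ∈ LinearMap.range f0 ⊔ LinearMap.range j := by
          rw [hc.sup_eq_top]
          exact Submodule.mem_top
        obtain ⟨a, ha, b, hb, rfl⟩ := Submodule.mem_sup.1 h1
        refine ⟨b, hb, ?_⟩
        rw [map_add, Submodule.projectionOnto_apply_of_mem_left hc ha,
          Submodule.projectionOnto_apply_of_mem_right hc hb, add_zero]
      have hπ : ∀ g v, (π (ρ g v) : V) = ρ g (π v : V) := by
        intro g v
        obtain ⟨w, hw, h1⟩ := hdec v
        have h2 : ρ g (π v : V) ∈ LinearMap.range f0 := by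
          obtain ⟨x, hx⟩ := (π v).2
          rw [← hx]
          exact ⟨τ g x, hf0 g x⟩
        have h3 : ρ g w ∈ LinearMap.range j := by
          obtain ⟨x, rfl⟩ := hw
          exact ⟨ρ₁ g x, hj g x⟩
        conv_lhs => rw [h1]
        rw [map_add, map_add, Submodule.projectionOnto_apply_of_mem_left hc h2,
          Submodule.projectionOnto_apply_of_mem_right hc h3, add_zero]
      have hEs : ∀ y : LinearMap.range f0, f0 (E.symm y) = y := fun y => by
        have h1 := E.apply_symm_apply y
        exact congrArg Subtype.val h1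
      have hJs : ∀ y : LinearMap.range j, j (J.symm y) = y := fun y => by
        have h1 := J.apply_symm_apply y
        exact congrArg Subtype.val h1
      have hcomp : (E.symm : LinearMap.range f0 →ₗ[k] T).comp (π.comp g) ∈ hom τ τ := by
        intro s x
        apply hinj
        change f0 (E.symm (π (g (τ s x)))) = f0 (τ s (E.symm (π (g x))))
        rw [hEs, hf0, hEs, hg s x, hπ]
      obtain ⟨c, hcs⟩ := schur hτ hcomp
      have h3 : ∀ x, (π (g x) : V) = c • f0 x := by
        intro x
        have h4 : E.symm (π (g x)) = c • x := hcs x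
        rw [← hEs (π (g x)), h4, map_smul]
      have h5 : ∀ x, (g - c • f0) x ∈ LinearMap.range j := by
        intro x
        obtain ⟨w, hw, h6⟩ := hdec (g x)
        rw [LinearMap.sub_apply, LinearMap.smul_apply, h6, h3, add_sub_cancel_left]
        exact hw
      have h6 : (J.symm : LinearMap.range j →ₗ[k] U₁).comp
          ((g - c • f0).codRestrict _ h5) ∈ hom τ ρ₁ := by
        intro s x
        apply hji
        change j (J.symm ((g - c • f0).codRestrict _ h5 (τ s x))) =
          j (ρ₁ s (J.symm ((g - c • f0).codRestrict _ h5 x)))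
        rw [hJs, hj, hJs]
        change g (τ s x) - c • f0 (τ s x) = ρ s (g x - c • f0 x)
        rw [hg s x, hf0 s x, map_sub, map_smul]
      refine ⟨(c, ⟨_, h6⟩), ?_⟩
      apply Subtype.ext
      ext x
      rw [hΦ]
      change c • f0 x + j (J.symm ((g - c • f0).codRestrict _ h5 x)) = g x
      rw [hJs]
      change c • f0 x + (g x - c • f0 x) = g x
      rw [add_sub_cancel]
  have h8 := (LinearEquiv.ofBijective Φ hbij).finrank_eq
  rw [← h8, finrank_prod, finrank_self]

private theorem decomp (hτ : Irr τ) (n : ℕ) : ∀ (V : Type u) [AddCommGroup V] [Module k V]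
    [FiniteDimensional k V] (ρ : Representation k G V), finrank k V = n → Ss ρ →
    ∃ (N : Submodule k V) (hN : Stab ρ N), hom τ (sub ρ N hN) = ⊥ ∧
      ∀ (F : V →ₗ[k] V) (E : T →ₗ[k] T), (∀ W, Stab ρ W → ∀ x ∈ W, F x ∈ W) →
        (∀ x ∈ N, F x = 0) → (∀ f ∈ hom τ ρ, ∀ x, F (f x) = f (E x)) →
        LinearMap.trace k V F = finrank k (hom τ ρ) * LinearMap.trace k T E := by
  induction n using Nat.strong_induction_on with
  | _ n ih =>
  intro V _ _ _ ρ hn hs
  by_cases hb : hom τ ρ = ⊥
  · refine ⟨⊤, fun _ _ _ => Submodule.mem_top, ?_, fun F E _ h2 _ => ?_⟩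
    · rw [Submodule.eq_bot_iff]
      intro f hf
      have h1 : (⊤ : Submodule k V).subtype.comp f ∈ hom τ ρ := fun g x =>
        congrArg Subtype.val (hf g x)
      rw [hb, Submodule.mem_bot] at h1
      ext x
      exact LinearMap.congr_fun h1 x
    · have h3 : F = 0 := LinearMap.ext fun x => h2 x Submodule.mem_top
      rw [h3, map_zero, hb, finrank_bot, Nat.cast_zero, zero_mul]
  obtain ⟨f0, hf0, h0⟩ := Submodule.exists_mem_ne_zero_of_ne_bot hb
  have hinj := ker_bot hτ hf0 h0
  have hW : Stab ρ (LinearMap.range f0) := by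
    rintro g _ ⟨x, rfl⟩
    exact ⟨τ g x, hf0 g x⟩
  obtain ⟨W₁, hW₁, hc⟩ := hs _ hW
  have hlt : finrank k W₁ < n := by
    have h3 := Submodule.finrank_add_eq_of_isCompl hc
    have h4 : 0 < finrank k (LinearMap.range f0) := by
      rw [Nat.pos_iff_ne_zero]
      intro h5
      exact h0 (LinearMap.range_eq_bot.1 (Submodule.finrank_eq_zero.1 h5))
    omega
  obtain ⟨N₁, hN₁, hN₁b, hF₁⟩ := ih _ hlt W₁ (sub ρ W₁ hW₁) rfl (ss_sub hs hW₁)
  have hstab : ∀ X : Submodule k W₁, Stab (sub ρ W₁ hW₁) X → Stab ρ (X.map W₁.subtype) := by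
    rintro X hX g _ ⟨x, hx, rfl⟩
    exact ⟨sub ρ W₁ hW₁ g x, hX g x hx, rfl⟩
  refine ⟨N₁.map W₁.subtype, hstab N₁ hN₁, ?_, fun F E h1 h2 h3 => ?_⟩
  · rw [Submodule.eq_bot_iff]
    intro f hf
    have h1 : ∀ x, ∃ y : N₁, ((y : W₁) : V) = (f x : V) := by
      intro x
      obtain ⟨y, hy, h2⟩ := (f x).2
      exact ⟨⟨y, hy⟩, h2⟩
    have h2 : ∀ x, (f x : V) ∈ W₁ := fun x => by
      obtain ⟨y, hy⟩ := h1 x
      rw [← hy]
      exact (y : W₁).2
    let f₁ : T →ₗ[k] W₁ := ((N₁.map W₁.subtype).subtype.comp f).codRestrict W₁ h2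
    have h3 : ∀ x, f₁ x ∈ N₁ := fun x => by
      obtain ⟨y, hy⟩ := h1 x
      have h4 : f₁ x = (y : W₁) := Subtype.ext hy.symm
      rw [h4]
      exact y.2
    have h5 : f₁.codRestrict N₁ h3 ∈ hom τ (sub (sub ρ W₁ hW₁) N₁ hN₁) := by
      intro g x
      have h7 : (f (τ g x) : V) = ρ g (f x : V) := congrArg Subtype.val (hf g x)
      exact Subtype.ext (Subtype.ext h7)
    rw [hN₁b, Submodule.mem_bot] at h5
    ext x
    have h6 := LinearMap.congr_fun h5 x
    exact congrArg (fun y : N₁ => ((y : W₁) : V)) h6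
  · rw [trace_split hc F (h1 _ hW) (h1 _ hW₁), finrank_hom hτ hf0 h0 (ρ₁ := sub ρ W₁ hW₁)
      (j := W₁.subtype) (fun _ _ => rfl) W₁.subtype_injective (by rwa [Submodule.range_subtype])]
    have h4 : LinearMap.trace k (LinearMap.range f0) (F.restrict (h1 _ hW)) =
        LinearMap.trace k T E := by
      rw [← LinearMap.trace_conj' E (LinearEquiv.ofInjective f0 hinj)]
      congr 1
      ext y
      obtain ⟨x, rfl⟩ := (LinearEquiv.ofInjective f0 hinj).surjective y
      rw [LinearEquiv.conj_apply_apply, LinearEquiv.symm_apply_apply]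
      exact h3 f0 hf0 x
    have h5 := hF₁ (F.restrict (h1 _ hW₁)) E (fun X hX x hx => by
      have h6 := h1 _ (hstab X hX) x ⟨x, hx, rfl⟩
      obtain ⟨y, hy, h7⟩ := h6
      have h8 : F.restrict (h1 _ hW₁) x = y := Subtype.ext h7.symm
      rw [h8]
      exact hy) (fun x hx => Subtype.ext (h2 x ⟨x, hx, rfl⟩)) (fun f hf x => by
      apply Subtype.ext
      exact h3 (W₁.subtype.comp f) (fun g y => congrArg Subtype.val (hf g y)) x)
    rw [h4, h5, Nat.cast_add, Nat.cast_one]
    ring

end main

variable {G : Type*} [Group G] {k : Type*} [Field k] [IsAlgClosed k] [CharP k 2]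
  {T V V' : Type u} [AddCommGroup T] [Module k T] [FiniteDimensional k T] [AddCommGroup V]
  [Module k V] [FiniteDimensional k V] [AddCommGroup V'] [Module k V'] [FiniteDimensional k V']

theorem hom_mod_two {τ : Representation k G T} {ρ : Representation k G V}
    {ρ' : Representation k G V'} (hτ : Irr τ) (hs : Ss ρ) (hs' : Ss ρ')
    (htr : ∀ g, LinearMap.trace k V (ρ g) = LinearMap.trace k V' (ρ' g)) :
    finrank k (hom τ ρ) ≡ finrank k (hom τ ρ') [MOD 2] := by
  classical
  obtain ⟨N, hN, hN0, hF⟩ := decomp hτ _ V ρ rfl hs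
  obtain ⟨N', hN', hN0', hF'⟩ := decomp hτ _ V' ρ' rfl hs'
  have hsN := ss_sub hs hN
  have hsN' := ss_sub hs' hN'
  have : IsSemisimpleModule (MonoidAlgebra k G) (sub ρ N hN).asModule := ss_asModule hsN
  have : IsSemisimpleModule (MonoidAlgebra k G) (sub ρ' N' hN').asModule := ss_asModule hsN'
  have : IsSemisimpleModule (MonoidAlgebra k G) τ.asModule := ss_asModule fun W hW => by
    rcases hτ.2 W hW with h | h
    · exact ⟨⊤, fun _ _ _ => Submodule.mem_top, by rw [h]; exact isCompl_bot_top⟩
    · exact ⟨⊥, fun g x hx => by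
        rw [Submodule.mem_bot] at hx ⊢
        rw [hx, map_zero], by rw [h]; exact isCompl_top_bot⟩
  have : IsSemisimpleModule (MonoidAlgebra k G)
    ((sub ρ N hN).asModule × (sub ρ' N' hN').asModule) := ss_prodM
  obtain ⟨x0, hx0⟩ := hτ.1
  have : Nontrivial T := ⟨⟨x0, 0, hx0⟩⟩
  let b := Module.finBasis k T
  have hpos : 0 < finrank k T := finrank_pos
  let i0 : Fin (finrank k T) := ⟨0, hpos⟩
  let e : T →ₗ[k] T := Matrix.toLin b b (Matrix.single i0 i0 1)
  have he : LinearMap.trace k T e = 1 := by
    rw [LinearMap.trace_eq_matrix_trace k b e, LinearMap.toMatrix_toLin,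
      Matrix.trace_single_eq_same]
  have hh1 : ∀ φ : τ.asModule →ₗ[MonoidAlgebra k G]
      ((sub ρ N hN).asModule × (sub ρ' N' hN').asModule), φ = 0 := by
    intro φ
    have h1 := toHom ((LinearMap.fst _ _ _).comp φ) hN0
    have h2 := toHom ((LinearMap.snd _ _ _).comp φ) hN0'
    ext x
    · exact LinearMap.congr_fun h1 x
    · exact LinearMap.congr_fun h2 x
  have hh2 : ∀ φ : ((sub ρ N hN).asModule × (sub ρ' N' hN').asModule)
      →ₗ[MonoidAlgebra k G] τ.asModule, φ = 0 := by
    intro φ
    have h1 := toHom (φ.comp (LinearMap.inl _ _ _)) (hom_rev hτ hsN hN0)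
    have h2 := toHom (φ.comp (LinearMap.inr _ _ _)) (hom_rev hτ hsN' hN0')
    ext x
    · exact LinearMap.congr_fun h1 x
    · exact LinearMap.congr_fun h2 x
  let bN := Module.finBasis k N
  let bN' := Module.finBasis k N'
  obtain ⟨r, hr1, hr2⟩ := density2 hh1 hh2
    (((τ.asModuleEquiv.symm : T →ₗ[k] τ.asModule).comp
      (e.comp (τ.asModuleEquiv : τ.asModule →ₗ[k] T))).toAddMonoidHom)
    (fun φ x => fromEnd φ (fun f hf => schur hτ hf) e x)
    (Finset.univ.image fun i => τ.asModuleEquiv.symm (b i))
    ((Finset.univ.image fun i => ((sub ρ N hN).asModuleEquiv.symm (bN i),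
      (0 : (sub ρ' N' hN').asModule))) ∪
      (Finset.univ.image fun i => ((0 : (sub ρ N hN).asModule),
        (sub ρ' N' hN').asModuleEquiv.symm (bN' i))))
  have ht : τ.asAlgebraHom r = e := by
    apply b.ext
    intro i
    have h1 := hr1 _ (Finset.mem_image_of_mem _ (Finset.mem_univ i))
    have h2 := congrArg τ.asModuleEquiv h1
    rw [Representation.asModuleEquiv_map_smul, LinearEquiv.apply_symm_apply] at h2
    rw [h2]
    change τ.asModuleEquiv (τ.asModuleEquiv.symm (e (τ.asModuleEquiv
      (τ.asModuleEquiv.symm (b i))))) = e (b i)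
    rw [LinearEquiv.apply_symm_apply, LinearEquiv.apply_symm_apply]
  have hz : (sub ρ N hN).asAlgebraHom r = 0 := by
    apply bN.ext
    intro i
    have h1 := hr2 _ (Finset.mem_union_left _ (Finset.mem_image_of_mem _ (Finset.mem_univ i)))
    have h2 := congrArg (fun y => (sub ρ N hN).asModuleEquiv (Prod.fst y)) h1
    change (sub ρ N hN).asModuleEquiv (r • (sub ρ N hN).asModuleEquiv.symm (bN i)) =
      (sub ρ N hN).asModuleEquiv 0 at h2
    rw [Representation.asModuleEquiv_map_smul, LinearEquiv.apply_symm_apply, map_zero] at h2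
    exact h2
  have hz' : (sub ρ' N' hN').asAlgebraHom r = 0 := by
    apply bN'.ext
    intro i
    have h1 := hr2 _ (Finset.mem_union_right _ (Finset.mem_image_of_mem _ (Finset.mem_univ i)))
    have h2 := congrArg (fun y => (sub ρ' N' hN').asModuleEquiv (Prod.snd y)) h1
    change (sub ρ' N' hN').asModuleEquiv (r • (sub ρ' N' hN').asModuleEquiv.symm (bN' i)) =
      (sub ρ' N' hN').asModuleEquiv 0 at h2
    rw [Representation.asModuleEquiv_map_smul, LinearEquiv.apply_symm_apply, map_zero] at h2
    exact h2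
  have h1 := hF (ρ.asAlgebraHom r) (τ.asAlgebraHom r) (fun W hW x hx => by
    have h2 := hom_nat (sub_mem_hom hW) r ⟨x, hx⟩
    change ((sub ρ W hW).asAlgebraHom r ⟨x, hx⟩ : V) = ρ.asAlgebraHom r x at h2
    rw [← h2]
    exact Subtype.mem _) (fun x hx => by
    have h2 := hom_nat (sub_mem_hom hN) r ⟨x, hx⟩
    rw [hz] at h2
    exact h2.symm) (fun f hf x => (hom_nat hf r x).symm)
  have h1' := hF' (ρ'.asAlgebraHom r) (τ.asAlgebraHom r) (fun W hW x hx => by
    have h2 := hom_nat (sub_mem_hom hW) r ⟨x, hx⟩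
    change ((sub ρ' W hW).asAlgebraHom r ⟨x, hx⟩ : V') = ρ'.asAlgebraHom r x at h2
    rw [← h2]
    exact Subtype.mem _) (fun x hx => by
    have h2 := hom_nat (sub_mem_hom hN') r ⟨x, hx⟩
    rw [hz'] at h2
    exact h2.symm) (fun f hf x => (hom_nat hf r x).symm)
  have htrr : ∀ a : MonoidAlgebra k G, LinearMap.trace k V (ρ.asAlgebraHom a) =
      LinearMap.trace k V' (ρ'.asAlgebraHom a) := by
    intro a
    induction a using MonoidAlgebra.induction_linear with
    | zero => simp
    | add a b ha hb => rw [map_add, map_add, map_add, map_add, ha, hb]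
    | single g c =>
      rw [Representation.asAlgebraHom_single, Representation.asAlgebraHom_single, map_smul,
        map_smul, htr]
  rw [ht, he, mul_one] at h1 h1'
  have h3 : ((finrank k (hom τ ρ) : ℕ) : k) = (finrank k (hom τ ρ') : ℕ) := by
    rw [← h1, ← h1', htrr]
  exact (CharP.natCast_eq_natCast k 2).1 h3

end Pool.Agent.Work.MP_787500_nt.RB
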