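import Mathlib
import Pool.Agent.Work.MP_787500_nt.RB.Defs

/-!
# RB/Schur (size M, ANYBODY): Schur's lemma for maps and pairings, Fong's lemma

Only linear algebra.
* `schur_iso`: kernel and range are stable. `schur_scalar`: an eigenvalue (`Module.End.exists_eigenvalue`), the eigenspace is
  stable.
* `pair_nondeg`: left kernel `{x | ∀ y, B x y = 0}` is stable: `B (ρ g x) y = B (ρ g x) (ρ' g (ρ' g⁻¹ y)) = B x (ρ' g⁻¹ y)`; same for
  the right kernel (`B.flip`).
* `pair_unique`: `B` gives an injective linear map `V → Dual V'`, bijective because the right kernel is zero (dimension), so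
  `f = B⁻¹ ∘ B₂ : V → V` (`B (f x) y = B₂ x y`) commutes with `ρ` and is a scalar. (For `B₂ = 0` take `c = 0`.)
* `form_symm` (characteristic 2): `B.flip = c • B` by `pair_unique` (`ρ' = ρ`), `B x y = c (B y x) = c² (B x y)`, so `c² = 1`, `c = 1`.
* `fong` (characteristic 2): by `form_symm`, `x ↦ B x x` is additive; `lam x` = the square root of `B x x` (`k` is algebraically closed;
  square roots are unique in characteristic 2: `frobenius` injective) is `k`-linear and `lam (ρ g x) = lam x`. If `lam ≠ 0`, its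
  kernel is a stable subspace `≠ ⊤`, so it is `⊥`; `ρ g x - x` is in the kernel, so `ρ g x = x` and the action is trivial.
* `exists_sqrt`: for `c : k` there is `d` with `d * d = c` (`IsAlgClosed.exists_pow_nat_eq` or `exists_eq_mul_self`).
-/

set_option autoImplicit false
set_option linter.unusedSectionVars false

namespace Pool.Agent.Work.MP_787500_nt.RB

open Matrix Module

variable {G : Type*} [Group G] {k : Type*} [Field k] {V V' : Type*} [AddCommGroup V] [Module k V]
  [AddCommGroup V'] [Module k V'] {ρ : Representation k G V} {ρ' : Representation k G V'}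

private theorem inv_ap (ρ : Representation k G V) (g : G) (y : V) : ρ g (ρ g⁻¹ y) = y := by
  have h : (ρ g * ρ g⁻¹) y = y := by
    rw [← map_mul, mul_inv_cancel, map_one]
    rfl
  exact h

theorem schur_iso (h : Irr ρ) (h' : Irr ρ') {f : V →ₗ[k] V'} (hf : ∀ g x, f (ρ g x) = ρ' g (f x))
    (h0 : f ≠ 0) : Function.Bijective f := by
  constructor
  · have h1 : Stab ρ (LinearMap.ker f) := fun g x hx => by
      rw [LinearMap.mem_ker] at hx ⊢
      rw [hf, hx, map_zero]
    rcases h.2 _ h1 with h2 | h2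
    · exact LinearMap.ker_eq_bot.1 h2
    · exact absurd (LinearMap.ker_eq_top.1 h2) h0
  · have h1 : Stab ρ' (LinearMap.range f) := by
      rintro g y ⟨x, rfl⟩
      exact ⟨ρ g x, hf g x⟩
    rcases h'.2 _ h1 with h2 | h2
    · exact absurd (LinearMap.range_eq_bot.1 h2) h0
    · exact LinearMap.range_eq_top.1 h2

theorem pair_nondeg (h : Irr ρ) (h' : Irr ρ') {B : V →ₗ[k] V' →ₗ[k] k}
    (hB : ∀ g x y, B (ρ g x) (ρ' g y) = B x y) (h0 : B ≠ 0) :
    (∀ x, (∀ y, B x y = 0) → x = 0) ∧ ∀ y, (∀ x, B x y = 0) → y = 0 := by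
  constructor
  · have h1 : Stab ρ (LinearMap.ker B) := fun g x hx => by
      rw [LinearMap.mem_ker] at hx ⊢
      ext y
      have e : B (ρ g x) y = B x (ρ' g⁻¹ y) := by
        rw [← hB g x (ρ' g⁻¹ y), inv_ap]
      rw [e, hx]
      rfl
    intro x hx
    have h3 : x ∈ LinearMap.ker B := by
      rw [LinearMap.mem_ker]
      ext y
      exact hx y
    rcases h.2 _ h1 with h2 | h2
    · rw [h2] at h3
      exact (Submodule.mem_bot k).1 h3
    · exact absurd (LinearMap.ker_eq_top.1 h2) h0
  · have h1 : Stab ρ' (LinearMap.ker B.flip) := fun g y hy => by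
      rw [LinearMap.mem_ker] at hy ⊢
      ext x
      have e : B x (ρ' g y) = B (ρ g⁻¹ x) y := by
        rw [← hB g (ρ g⁻¹ x) y, inv_ap]
      rw [LinearMap.flip_apply, e, ← LinearMap.flip_apply, hy]
      rfl
    intro y hy
    have h3 : y ∈ LinearMap.ker B.flip := by
      rw [LinearMap.mem_ker]
      ext x
      exact hy x
    rcases h'.2 _ h1 with h2 | h2
    · rw [h2] at h3
      exact (Submodule.mem_bot k).1 h3
    · refine absurd ?_ h0
      have h4 := LinearMap.ker_eq_top.1 h2
      ext x y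
      rw [← LinearMap.flip_apply, h4]
      rfl

variable [IsAlgClosed k] [FiniteDimensional k V] [FiniteDimensional k V']

theorem schur_scalar (h : Irr ρ) {f : V →ₗ[k] V} (hf : ∀ g x, f (ρ g x) = ρ g (f x)) :
    ∃ c : k, ∀ x, f x = c • x := by
  obtain ⟨x0, hx0⟩ := h.1
  have : Nontrivial V := ⟨⟨x0, 0, hx0⟩⟩
  obtain ⟨c, hc⟩ := Module.End.exists_eigenvalue f
  refine ⟨c, fun x => ?_⟩
  have h1 : Stab ρ (Module.End.eigenspace f c) := fun g x hx => by
    rw [Module.End.mem_eigenspace_iff] at hx ⊢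
    rw [hf, hx, map_smul]
  rcases h.2 _ h1 with h2 | h2
  · exact absurd h2 hc
  · exact Module.End.mem_eigenspace_iff.1 (h2 ▸ Submodule.mem_top)

theorem pair_unique (h : Irr ρ) (h' : Irr ρ') {B B₂ : V →ₗ[k] V' →ₗ[k] k}
    (hB : ∀ g x y, B (ρ g x) (ρ' g y) = B x y) (hB₂ : ∀ g x y, B₂ (ρ g x) (ρ' g y) = B₂ x y)
    (h0 : B ≠ 0) : ∃ c : k, ∀ x y, B₂ x y = c * B x y := by
  obtain ⟨hl, hr⟩ := pair_nondeg h h' hB h0
  have i1 : Function.Injective B := by
    rw [← LinearMap.ker_eq_bot, LinearMap.ker_eq_bot']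
    intro x hx
    exact hl x fun y => by rw [hx]; rfl
  have i2 : Function.Injective B.flip := by
    rw [← LinearMap.ker_eq_bot, LinearMap.ker_eq_bot']
    intro y hy
    exact hr y fun x => by rw [← LinearMap.flip_apply, hy]; rfl
  have d1 : finrank k V ≤ finrank k V' := by
    have := LinearMap.finrank_le_finrank_of_injective (f := B) i1
    rwa [Subspace.dual_finrank_eq] at this
  have d2 : finrank k V' ≤ finrank k V := by
    have := LinearMap.finrank_le_finrank_of_injective (f := B.flip) i2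
    rwa [Subspace.dual_finrank_eq] at this
  have d3 : finrank k V = finrank k (V' →ₗ[k] k) :=
    (le_antisymm d1 d2).trans (Subspace.dual_finrank_eq (K := k) (V := V')).symm
  let e : V ≃ₗ[k] (V' →ₗ[k] k) := LinearEquiv.ofInjectiveOfFinrankEq B i1 d3
  have he : ∀ x, e x = B x := fun x => rfl
  let f : V →ₗ[k] V := e.symm.toLinearMap.comp B₂
  have hf : ∀ x, B (f x) = B₂ x := fun x => by
    rw [← he]
    exact e.apply_symm_apply _
  obtain ⟨c, hc⟩ := schur_scalar h (f := f) (by
    intro g x
    apply i1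
    ext y
    calc B (f (ρ g x)) y = B₂ (ρ g x) (ρ' g (ρ' g⁻¹ y)) := by rw [hf, inv_ap]
      _ = B (f x) (ρ' g⁻¹ y) := by rw [hB₂, hf]
      _ = B (ρ g (f x)) (ρ' g (ρ' g⁻¹ y)) := (hB _ _ _).symm
      _ = B (ρ g (f x)) y := by rw [inv_ap])
  refine ⟨c, fun x y => ?_⟩
  rw [← hf, hc, map_smul]
  rfl

theorem exists_sqrt (c : k) : ∃ d : k, d * d = c := by
  obtain ⟨d, hd⟩ := IsAlgClosed.exists_eq_mul_self c
  exact ⟨d, hd.symm⟩

variable [CharP k 2]

theorem form_symm (h : Irr ρ) {B : LinearMap.BilinForm k V}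
    (hB : ∀ g x y, B (ρ g x) (ρ g y) = B x y) (x y : V) : B x y = B y x := by
  by_cases h0 : B = 0
  · rw [h0]
    rfl
  obtain ⟨c, hc⟩ := pair_unique (B₂ := B.flip) h h hB (fun g x y => hB g y x) h0
  have hc' : ∀ x y, B y x = c * B x y := hc
  have h1 : ∃ u v, B u v ≠ 0 := by
    by_contra hn
    push Not at hn
    exact h0 (by ext u v; exact hn u v)
  obtain ⟨u, v, huv⟩ := h1
  have h2 : B u v = c * (c * B u v) := by
    rw [← hc' u v, ← hc' v u]
  have h3 : c * c = 1 := by
    have h4 : (c * c - 1) * B u v = 0 := by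
      rw [sub_mul, one_mul, mul_assoc, ← h2, sub_self]
    rcases mul_eq_zero.1 h4 with h5 | h5
    · exact sub_eq_zero.1 h5
    · exact absurd h5 huv
  have h6 : c = 1 := by
    have h7 : (c + 1) * (c + 1) = 0 := by
      have h8 : (c + 1) * (c + 1) = c * c + (c + c) + 1 := by ring
      rw [h8, h3, CharTwo.add_self_eq_zero, add_zero, CharTwo.add_self_eq_zero]
    have h9 : c + 1 = 0 := by simpa using h7
    rw [← CharTwo.sub_eq_add] at h9
    exact sub_eq_zero.1 h9
  rw [hc' y x, h6, one_mul]

/-- FONG'S LEMMA -/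
theorem fong (h : Irr ρ) {B : LinearMap.BilinForm k V} (hB : ∀ g x y, B (ρ g x) (ρ g y) = B x y)
    (ht : ¬ TrivA ρ) (x : V) : B x x = 0 := by
  have hs := form_symm h hB
  have hadd : ∀ x y, B (x + y) (x + y) = B x x + B y y := by
    intro x y
    rw [map_add (B (x + y)), map_add B, LinearMap.add_apply, LinearMap.add_apply, hs y x]
    have h1 : B x x + B x y + (B x y + B y y) = B x x + B y y + (B x y + B x y) := by ring
    rw [h1, CharTwo.add_self_eq_zero, add_zero]
  let W : Submodule k V :=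
    { carrier := {x | B x x = 0}
      add_mem' := fun {x y} hx hy => by
        have hx' : B x x = 0 := hx
        have hy' : B y y = 0 := hy
        change B (x + y) (x + y) = 0
        rw [hadd, hx', hy', add_zero]
      zero_mem' := by
        change B 0 0 = 0
        simp
      smul_mem' := fun c x hx => by
        have hx' : B x x = 0 := hx
        change B (c • x) (c • x) = 0
        rw [map_smul, map_smul, LinearMap.smul_apply, hx', smul_zero, smul_zero] }
  have hW : ∀ x, x ∈ W ↔ B x x = 0 := fun x => Iff.rfl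
  have h1 : Stab ρ W := fun g x hx => by
    rw [hW] at hx ⊢
    rw [hB, hx]
  rcases h.2 _ h1 with h2 | h2
  · refine absurd ?_ ht
    intro g y
    have h3 : ρ g y + -y ∈ W := by
      rw [hW, hadd, hB, map_neg, map_neg, LinearMap.neg_apply, neg_neg,
        CharTwo.add_self_eq_zero]
    rw [h2, Submodule.mem_bot, ← sub_eq_add_neg] at h3
    exact sub_eq_zero.1 h3
  · exact (hW x).1 (h2 ▸ Submodule.mem_top)

end Pool.Agent.Work.MP_787500_nt.RB
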