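import Mathlib
import Pool.Agent.Work.MP_787500_nt.RB.Basic
import Pool.Agent.Work.MP_787500_nt.RB.Schur
import Pool.Agent.Work.MP_787500_nt.RB.BNa

/-!
# RB/BNb (size M, ANYBODY): a semisimple representation with even multiplicities is a double

`prodR ρ₀ ρ₀` = the sum of two copies. PROOF by strong induction on `finrank k V`. `V = 0`: `V₀ = V`. Otherwise let `W ⊂ V` be
irreducible (`exists_irrS_le` for `⊤`). `hom (sub W) ρ` contains the inclusion `i`, its dimension is even, so it has an element
`f` that is not a multiple of `i`. `f` is injective (Schur), `W₂ = f (W)` is irreducible, and `W ⊓ W₂ = ⊥`: otherwise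
`W = W₂` and `f : W → W` is a scalar (`schur_scalar`), a multiple of `i`. Let `V₁` be a stable complement of `W ⊔ W₂`;
it is semisimple (`ss_sub`), and for all irreducible `τ`: `dim hom τ ρ = 2 dim hom τ (sub W) + dim hom τ (sub V₁)` (a direct sum
decomposition of the target; `W₂` is equivalent to `W`), so the multiplicities of `V₁` are even. Induction: `V₁` is equivalent to the
double of `(V₀', ρ₀')`, and `V` to the double of `W × V₀'` (`prodR (sub W) ρ₀'`), which is semisimple.
(`ss_prod`: the product of semisimple representations is semisimple: prove it here, e.g. by Mathlib's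
`IsSemisimpleModule` for products, or directly: `V = V₁ ⊕ V₂` stable semisimple implies `Ss`; see also `IsSemisimpleModule.sup`.)
-/

set_option autoImplicit false
set_option linter.unusedSectionVars false

namespace Pool.Agent.Work.MP_787500_nt.RB

open Matrix Module

section defs

variable {G : Type*} [Group G] {k : Type*} [Field k] {V V' : Type*} [AddCommGroup V] [Module k V]
  [AddCommGroup V'] [Module k V']

/-- the direct sum of two representations -/
def prodR (ρ : Representation k G V) (ρ' : Representation k G V') : Representation k G (V × V') where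
  toFun g := (ρ g).prodMap (ρ' g)
  map_one' := by
    rw [map_one, map_one]
    exact LinearMap.ext fun x => rfl
  map_mul' g h := by
    rw [map_mul, map_mul]
    exact LinearMap.ext fun x => rfl

theorem prodR_apply (ρ : Representation k G V) (ρ' : Representation k G V') (g : G) (x : V × V') :
    prodR ρ ρ' g x = (ρ g x.1, ρ' g x.2) := rfl

theorem ss_prod {ρ : Representation k G V} {ρ' : Representation k G V'} (h : Ss ρ) (h' : Ss ρ') :
    Ss (prodR ρ ρ') := by
  intro W hW
  have hA : Stab ρ' (W.map (LinearMap.snd k V V')) := by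
    rintro g _ ⟨w, hw, rfl⟩
    exact ⟨_, hW g w hw, rfl⟩
  have hK : Stab ρ (W.comap (LinearMap.inl k V V')) := by
    intro g x hx
    have h1 := hW g _ hx
    rw [prodR_apply] at h1
    show ((ρ g x, 0) : V × V') ∈ W
    rw [← map_zero (ρ' g)]
    exact h1
  obtain ⟨A', hA', hcA⟩ := h' _ hA
  obtain ⟨K', hK', hcK⟩ := h _ hK
  refine ⟨K'.prod A', fun g x hx => ⟨hK' g _ hx.1, hA' g _ hx.2⟩, ?_, ?_⟩
  · rw [Submodule.disjoint_def]
    rintro ⟨x, x'⟩ hx ⟨hx1, hx2⟩
    have h1 : x' = 0 := (Submodule.disjoint_def.1 hcA.1) x' ⟨_, hx, rfl⟩ hx2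
    subst h1
    have h2 : x = 0 := (Submodule.disjoint_def.1 hcK.1) x hx hx1
    rw [h2]
    rfl
  · rw [codisjoint_iff, eq_top_iff]
    rintro ⟨x, x'⟩ _
    have h1 : x' ∈ W.map (LinearMap.snd k V V') ⊔ A' := by
      rw [codisjoint_iff.1 hcA.2]
      exact Submodule.mem_top
    obtain ⟨_, ⟨⟨w, a⟩, hw, rfl⟩, a', ha', h2⟩ := Submodule.mem_sup.1 h1
    have h3 : x - w ∈ W.comap (LinearMap.inl k V V') ⊔ K' := by
      rw [codisjoint_iff.1 hcK.2]
      exact Submodule.mem_top
    obtain ⟨y, hy, y', hy', h4⟩ := Submodule.mem_sup.1 h3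
    have hy2 : ((y, 0) : V × V') ∈ W := hy
    refine Submodule.mem_sup.2 ⟨(w, a) + (y, 0), W.add_mem hw hy2, (y', a'), ⟨hy', ha'⟩, ?_⟩
    refine Prod.ext ?_ ?_
    · show w + y + y' = x
      rw [add_assoc, h4, add_sub_cancel]
    · show a + 0 + a' = x'
      rw [add_zero]
      exact h2

end defs

universe u

private theorem eqv_symm {G : Type*} [Group G] {k : Type*} [Field k] {V V' : Type*}
    [AddCommGroup V] [Module k V] [AddCommGroup V'] [Module k V'] {ρ : Representation k G V}
    {ρ' : Representation k G V'} (h : Eqv ρ ρ') : Eqv ρ' ρ := by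
  obtain ⟨φ, h⟩ := h
  refine ⟨φ.symm, fun g x => ?_⟩
  obtain ⟨y, rfl⟩ := φ.surjective x
  rw [← h, φ.symm_apply_apply, φ.symm_apply_apply]

private theorem eqv_trans {G : Type*} [Group G] {k : Type*} [Field k] {V V' V'' : Type*}
    [AddCommGroup V] [Module k V] [AddCommGroup V'] [Module k V'] [AddCommGroup V'']
    [Module k V''] {ρ : Representation k G V} {ρ' : Representation k G V'}
    {ρ'' : Representation k G V''} (h : Eqv ρ ρ') (h' : Eqv ρ' ρ'') : Eqv ρ ρ'' := by
  obtain ⟨φ, h⟩ := h
  obtain ⟨ψ, h'⟩ := h'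
  exact ⟨φ.trans ψ, fun g x => by
    rw [LinearEquiv.trans_apply, LinearEquiv.trans_apply, h, h']⟩

private theorem eqv_prod {G : Type*} [Group G] {k : Type*} [Field k] {V V' U U' : Type*}
    [AddCommGroup V] [Module k V] [AddCommGroup V'] [Module k V'] [AddCommGroup U]
    [Module k U] [AddCommGroup U'] [Module k U'] {ρ : Representation k G V}
    {ρ' : Representation k G V'} {σ : Representation k G U} {σ' : Representation k G U'}
    (h : Eqv ρ ρ') (h' : Eqv σ σ') : Eqv (prodR ρ σ) (prodR ρ' σ') := by
  obtain ⟨φ, h⟩ := h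
  obtain ⟨ψ, h'⟩ := h'
  exact ⟨φ.prodCongr ψ, fun g x => Prod.ext (h g x.1) (h' g x.2)⟩

private theorem eqv_swap {G : Type*} [Group G] {k : Type*} [Field k] {V V' U U' : Type*}
    [AddCommGroup V] [Module k V] [AddCommGroup V'] [Module k V'] [AddCommGroup U]
    [Module k U] [AddCommGroup U'] [Module k U'] (a : Representation k G V)
    (b : Representation k G V') (c : Representation k G U) (d : Representation k G U') :
    Eqv (prodR (prodR a b) (prodR c d)) (prodR (prodR a c) (prodR b d)) :=
  ⟨LinearEquiv.prodProdProdComm k V V' U U', fun _ _ => rfl⟩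

private theorem finrank_hom_eqv {G : Type*} [Group G] {k : Type*} [Field k] {T V V' : Type*}
    [AddCommGroup T] [Module k T] [AddCommGroup V] [Module k V] [AddCommGroup V'] [Module k V']
    (τ : Representation k G T) {ρ : Representation k G V} {ρ' : Representation k G V'}
    (h : Eqv ρ ρ') : finrank k (hom τ ρ) = finrank k (hom τ ρ') := by
  obtain ⟨φ, h⟩ := h
  refine LinearEquiv.finrank_eq
    { toFun := fun f => ⟨φ.toLinearMap ∘ₗ f.1, fun g x => ?_⟩
      map_add' := fun f f' => Subtype.ext (LinearMap.ext fun x => map_add φ _ _)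
      map_smul' := fun c f => Subtype.ext (LinearMap.ext fun x => map_smul φ _ _)
      invFun := fun f => ⟨φ.symm.toLinearMap ∘ₗ f.1, fun g x => ?_⟩
      left_inv := fun f => Subtype.ext (LinearMap.ext fun x => φ.symm_apply_apply _)
      right_inv := fun f => Subtype.ext (LinearMap.ext fun x => φ.apply_symm_apply _) }
  · show φ (f.1 (τ g x)) = ρ' g (φ (f.1 x))
    rw [f.2 g x, h]
  · show φ.symm (f.1 (τ g x)) = ρ g (φ.symm (f.1 x))
    apply φ.injective
    rw [h, φ.apply_symm_apply, φ.apply_symm_apply, f.2 g x]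

private theorem finrank_hom_prod {G : Type*} [Group G] {k : Type*} [Field k] {T V V' : Type*}
    [AddCommGroup T] [Module k T] [FiniteDimensional k T] [AddCommGroup V] [Module k V]
    [FiniteDimensional k V] [AddCommGroup V'] [Module k V'] [FiniteDimensional k V']
    (τ : Representation k G T) (ρ : Representation k G V) (ρ' : Representation k G V') :
    finrank k (hom τ (prodR ρ ρ')) = finrank k (hom τ ρ) + finrank k (hom τ ρ') := by
  rw [← Module.finrank_prod]
  refine LinearEquiv.finrank_eq
    { toFun := fun f => (⟨LinearMap.fst k V V' ∘ₗ f.1, fun g x => ?_⟩,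
        ⟨LinearMap.snd k V V' ∘ₗ f.1, fun g x => ?_⟩)
      map_add' := fun f f' => rfl
      map_smul' := fun c f => rfl
      invFun := fun p => ⟨p.1.1.prod p.2.1, fun g x => ?_⟩
      left_inv := fun f => rfl
      right_inv := fun p => rfl }
  · exact congrArg Prod.fst (f.2 g x)
  · exact congrArg Prod.snd (f.2 g x)
  · exact Prod.ext (p.1.2 g x) (p.2.2 g x)

private theorem double_aux {G : Type*} [Group G] {k : Type*} [Field k] [IsAlgClosed k] (n : ℕ) :
    ∀ (V : Type u) [AddCommGroup V] [Module k V] [FiniteDimensional k V]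
      (ρ : Representation k G V), finrank k V = n → Ss ρ →
      (∀ (T : Type u) [AddCommGroup T] [Module k T] [FiniteDimensional k T]
        (τ : Representation k G T), Irr τ → Even (finrank k (hom τ ρ))) →
      ∃ (V₀ : Type u) (_ : AddCommGroup V₀) (_ : Module k V₀) (_ : FiniteDimensional k V₀)
        (ρ₀ : Representation k G V₀), Ss ρ₀ ∧ Eqv ρ (prodR ρ₀ ρ₀) := by
  induction n using Nat.strong_induction_on with
  | _ n ih =>
    intro V _ _ _ ρ hn hs hev
    by_cases h0 : n = 0
    · have hV : Subsingleton V := Module.finrank_zero_iff.1 (hn.trans h0)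
      exact ⟨V, inferInstance, inferInstance, inferInstance, ρ, hs,
        ⟨0, fun g x => Subsingleton.elim _ _⟩⟩
    · obtain ⟨W, -, hW⟩ := exists_irrS_le (ρ := ρ) (W := ⊤) (fun g x _ => Submodule.mem_top)
        (by
          intro h1
          have h2 := congrArg (fun W : Submodule k V => finrank k W) h1
          simp only [finrank_top, finrank_bot] at h2
          exact h0 (hn.symm.trans h2))
      obtain ⟨τ, hτe⟩ : ∃ τ, τ = sub ρ W hW.1 := ⟨_, rfl⟩
      have hτa : ∀ g (x : W), ((τ g x : W) : V) = ρ g x := fun g x => by rw [hτe]; rfl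
      have hτ : Irr τ := by
        rw [hτe]
        exact irr_sub hW
      have hi : W.subtype ∈ hom τ ρ := fun g x => hτa g x
      have hi0 : W.subtype ≠ 0 := by
        intro h1
        obtain ⟨x, hx, h2⟩ := (Submodule.ne_bot_iff W).1 hW.2.1
        have h3 : W.subtype ⟨x, hx⟩ = 0 := by
          rw [h1]
          rfl
        exact h2 h3
      obtain ⟨f, hf, hfs⟩ : ∃ f ∈ hom τ ρ, f ∉ Submodule.span k {W.subtype} := by
        by_contra hcon
        push Not at hcon
        have h1 : hom τ ρ = Submodule.span k {W.subtype} :=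
          le_antisymm hcon ((Submodule.span_singleton_le_iff_mem _ _).2 hi)
        have h2 := hev W τ hτ
        rw [h1, finrank_span_singleton hi0] at h2
        exact Nat.not_even_one h2
      have hker : LinearMap.ker f = ⊥ := by
        rcases hτ.2 (LinearMap.ker f) (fun g x hx => by
          rw [LinearMap.mem_ker] at hx ⊢
          rw [hf g x, hx, map_zero]) with h1 | h1
        · exact h1
        · exfalso
          apply hfs
          rw [LinearMap.ker_eq_top.1 h1]
          exact Submodule.zero_mem _
      have hinj : Function.Injective f := LinearMap.ker_eq_bot.1 hker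
      have hW₂ : Stab ρ (LinearMap.range f) := by
        rintro g _ ⟨x, rfl⟩
        exact ⟨τ g x, hf g x⟩
      have hdis : W ⊓ LinearMap.range f = ⊥ := by
        rcases hW.2.2 _ (stab_inf hW.1 hW₂) inf_le_left with h1 | h1
        · exact h1
        · exfalso
          have h2 : W ≤ LinearMap.range f := inf_eq_left.1 h1
          have h3 : W = LinearMap.range f :=
            Submodule.eq_of_le_of_finrank_eq h2 (LinearMap.finrank_range_of_inj hinj).symm
          have h4 : ∀ x, f x ∈ W := fun x => h3.ge (LinearMap.mem_range_self f x)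
          obtain ⟨c, hc⟩ := schur_scalar hτ (f := f.codRestrict W h4) fun g x => by
            apply Subtype.ext
            show f (τ g x) = ((τ g ((f.codRestrict W h4) x) : W) : V)
            rw [hf g x, hτa]
            rfl
          refine hfs (Submodule.mem_span_singleton.2 ⟨c, LinearMap.ext fun x => ?_⟩)
          exact (congrArg Subtype.val (hc x)).symm
      obtain ⟨V₁, hV₁, hc⟩ := hs _ (stab_sup hW.1 hW₂)
      have E1 : Eqv (prodR (prodR τ τ) (sub ρ V₁ hV₁)) ρ := by
        refine ⟨LinearEquiv.ofBijective ((W.subtype.coprod f).coprod V₁.subtype) ⟨?_, ?_⟩, ?_⟩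
        · rw [injective_iff_map_eq_zero]
          rintro ⟨⟨w, w'⟩, v⟩ h1
          have h2 : (w : V) + f w' + v = 0 := h1
          have h3 : (v : V) = 0 := by
            refine (Submodule.disjoint_def.1 hc.1) _ ?_ v.2
            have h4 : (v : V) = -((w : V) + f w') := (neg_eq_of_add_eq_zero_right h2).symm
            rw [h4]
            exact Submodule.neg_mem _ (Submodule.mem_sup.2 ⟨w, w.2, f w', ⟨w', rfl⟩, rfl⟩)
          rw [h3, add_zero] at h2
          have h4 : (w : V) = 0 := by
            have h5 : (w : V) ∈ W ⊓ LinearMap.range f := by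
              refine ⟨w.2, ?_⟩
              rw [eq_neg_of_add_eq_zero_left h2]
              exact Submodule.neg_mem _ ⟨w', rfl⟩
            rw [hdis] at h5
            exact h5
          rw [h4, zero_add] at h2
          have h5 : w' = 0 := hinj (h2.trans (map_zero f).symm)
          refine Prod.ext (Prod.ext (Subtype.ext h4) h5) (Subtype.ext h3)
        · intro x
          have h1 : x ∈ (W ⊔ LinearMap.range f) ⊔ V₁ := by
            rw [codisjoint_iff.1 hc.2]
            exact Submodule.mem_top
          obtain ⟨y, hy, v, hv, rfl⟩ := Submodule.mem_sup.1 h1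
          obtain ⟨w, hw, _, ⟨w', rfl⟩, rfl⟩ := Submodule.mem_sup.1 hy
          exact ⟨((⟨w, hw⟩, w'), ⟨v, hv⟩), rfl⟩
        · rintro g ⟨⟨w, w'⟩, v⟩
          show ((τ g w : W) : V) + f (τ g w') + ρ g v = ρ g ((w : V) + f w' + v)
          rw [hτa, hf g w', map_add, map_add]
      have hfr : finrank k V = (finrank k W + finrank k W) + finrank k V₁ := by
        obtain ⟨φ, -⟩ := E1
        rw [← φ.finrank_eq, Module.finrank_prod, Module.finrank_prod]
      have hWp : 0 < finrank k W := Nat.pos_of_ne_zero fun h1 =>
        hW.2.1 (Submodule.finrank_eq_zero.1 h1)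
      obtain ⟨V₀, i1, i2, i3, ρ₀, hs₀, he⟩ := ih (finrank k V₁) (by omega) V₁ (sub ρ V₁ hV₁) rfl
        (ss_sub hs hV₁) (by
          intro T _ _ _ τ' hτ'
          have h1 := hev T τ' hτ'
          rw [← finrank_hom_eqv τ' E1, finrank_hom_prod, finrank_hom_prod] at h1
          exact (Nat.even_add.1 h1).1 ⟨_, rfl⟩)
      refine ⟨W × V₀, inferInstance, inferInstance, inferInstance, prodR τ ρ₀, ss_prod ?_ hs₀, ?_⟩
      · rw [hτe]
        exact ss_sub hs hW.1
      · exact eqv_trans (eqv_symm E1) (eqv_trans (eqv_prod ⟨LinearEquiv.refl k _, fun g x => rfl⟩ he)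
          (eqv_swap τ τ ρ₀ ρ₀))

variable {G : Type*} [Group G] {k : Type*} [Field k] [IsAlgClosed k] {V : Type u} [AddCommGroup V]
  [Module k V] [FiniteDimensional k V]

theorem exists_double {ρ : Representation k G V} (hs : Ss ρ)
    (hev : ∀ (T : Type u) [AddCommGroup T] [Module k T] [FiniteDimensional k T]
      (τ : Representation k G T), Irr τ → Even (finrank k (hom τ ρ))) :
    ∃ (V₀ : Type u) (_ : AddCommGroup V₀) (_ : Module k V₀) (_ : FiniteDimensional k V₀)
      (ρ₀ : Representation k G V₀), Ss ρ₀ ∧ Eqv ρ (prodR ρ₀ ρ₀) := by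
  exact double_aux (finrank k V) V ρ rfl hs hev

end Pool.Agent.Work.MP_787500_nt.RB
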