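import Mathlib
import Pool.Agent.Work.MP_787500_nt.RB.Basic
import Pool.Agent.Work.MP_787500_nt.RB.Schur
import Pool.Agent.Work.MP_787500_nt.RB.BNa
import Pool.Agent.Work.MP_787500_nt.RB.BNb

/-!
# RB/BN (size M, ANYBODY): THE THEOREM OF BRAUER AND NESBITT in characteristic 2

Strong induction on `finrank k V` (for all `V`, `V'` at once). The degree of the characteristic polynomial is the dimension, so
`V` and `V'` have the same dimension. If it is 0, everything is 0.
CASE 1: there is an irreducible `τ` (on a space in `Type u`) with `hom τ ρ ≠ ⊥` and `hom τ ρ' ≠ ⊥`. Then `V = W ⊕ W₁`,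
`V' = W' ⊕ W₁'` (stable, `hs`, `hs'`) with `W`, `W'` images of `τ` (Schur), equivalent to `τ`; the characteristic polynomials of
`W₁`, `W₁'` agree (`charpoly_split`, `charpoly_eqv`, cancel the monic factor in `k[X]`), they are semisimple (`ss_sub`) and of
smaller dimension; glue the equivalences.
CASE 2: otherwise, for every irreducible `τ`, `hom τ ρ = ⊥` or `hom τ ρ' = ⊥`. The traces agree (the trace is minus the coefficient
of degree `n - 1` of the characteristic polynomial: `LinearMap.trace_eq_neg_charpoly_nextCoeff` or via matrices: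
`Matrix.trace_eq_neg_charpoly_coeff`), so by `hom_mod_two` all multiplicities in `V` and in `V'` are even. `exists_double`:
`V ≅ V₀ × V₀`, `V' ≅ V₀' × V₀'`. The characteristic polynomials are squares: `p ^ 2 = p' ^ 2` implies
`(p - p') ^ 2 = 0` in characteristic 2 (`k[X]` has characteristic 2), so `p = p'`. The dimension of `V₀` is smaller, so
`V₀ ≅ V₀'` by induction and `V ≅ V'`.
-/

set_option autoImplicit false
set_option linter.unusedSectionVars false

namespace Pool.Agent.Work.MP_787500_nt.RB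

open Matrix Module

universe u

variable {G : Type*} [Group G] {k : Type*} [Field k] [IsAlgClosed k] [CharP k 2]
  {V V' : Type u} [AddCommGroup V] [Module k V] [FiniteDimensional k V] [AddCommGroup V']
  [Module k V'] [FiniteDimensional k V']

private theorem eqv_symm {G : Type*} [Group G] {k : Type*} [Field k] {V V' : Type*} [AddCommGroup V]
    [Module k V] [AddCommGroup V'] [Module k V'] {ρ : Representation k G V}
    {ρ' : Representation k G V'} (h : Eqv ρ ρ') : Eqv ρ' ρ := by
  obtain ⟨φ, h⟩ := h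
  refine ⟨φ.symm, fun g x => ?_⟩
  rw [LinearEquiv.symm_apply_eq, h, LinearEquiv.apply_symm_apply]

private theorem eqv_trans {G : Type*} [Group G] {k : Type*} [Field k] {V V' V'' : Type*}
    [AddCommGroup V] [Module k V] [AddCommGroup V'] [Module k V'] [AddCommGroup V'']
    [Module k V''] {ρ : Representation k G V} {ρ' : Representation k G V'}
    {ρ'' : Representation k G V''} (h : Eqv ρ ρ') (h' : Eqv ρ' ρ'') : Eqv ρ ρ'' := by
  obtain ⟨φ, h⟩ := h
  obtain ⟨ψ, h'⟩ := h'
  refine ⟨φ.trans ψ, fun g x => ?_⟩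
  rw [LinearEquiv.trans_apply, LinearEquiv.trans_apply, h, h']

private theorem eqv_prodR {G : Type*} [Group G] {k : Type*} [Field k] {V V' : Type*}
    [AddCommGroup V] [Module k V] [AddCommGroup V'] [Module k V'] {ρ : Representation k G V}
    {ρ' : Representation k G V'} (h : Eqv ρ ρ') : Eqv (prodR ρ ρ) (prodR ρ' ρ') := by
  obtain ⟨φ, h⟩ := h
  refine ⟨φ.prodCongr φ, fun g x => ?_⟩
  rw [prodR_apply, prodR_apply]
  simp only [LinearEquiv.prodCongr_apply]
  rw [h, h]

private theorem eqv_glue {G : Type*} [Group G] {k : Type*} [Field k] {V V' : Type*}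
    [AddCommGroup V] [Module k V] [AddCommGroup V'] [Module k V'] {ρ : Representation k G V}
    {ρ' : Representation k G V'} {W W₁ : Submodule k V} {W' W₁' : Submodule k V'}
    (hW : Stab ρ W) (hW₁ : Stab ρ W₁) (hW' : Stab ρ' W') (hW₁' : Stab ρ' W₁') (hc : IsCompl W W₁)
    (hc' : IsCompl W' W₁') (h : Eqv (sub ρ W hW) (sub ρ' W' hW'))
    (h₁ : Eqv (sub ρ W₁ hW₁) (sub ρ' W₁' hW₁')) : Eqv ρ ρ' := by
  obtain ⟨φ, h⟩ := h
  obtain ⟨φ₁, h₁⟩ := h₁
  refine ⟨(Submodule.prodEquivOfIsCompl W W₁ hc).symm.trans ((φ.prodCongr φ₁).trans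
    (Submodule.prodEquivOfIsCompl W' W₁' hc')), fun g x => ?_⟩
  obtain ⟨⟨a, b⟩, rfl⟩ := (Submodule.prodEquivOfIsCompl W W₁ hc).surjective x
  have h2 : ρ g (Submodule.prodEquivOfIsCompl W W₁ hc (a, b)) =
      Submodule.prodEquivOfIsCompl W W₁ hc (sub ρ W hW g a, sub ρ W₁ hW₁ g b) := by
    rw [Submodule.coe_prodEquivOfIsCompl', Submodule.coe_prodEquivOfIsCompl', map_add]
    rfl
  rw [h2]
  simp only [LinearEquiv.trans_apply, LinearEquiv.symm_apply_apply, LinearEquiv.prodCongr_apply]
  rw [h, h₁, Submodule.coe_prodEquivOfIsCompl', Submodule.coe_prodEquivOfIsCompl', map_add]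
  rfl

private theorem eqv_range {G : Type*} [Group G] {k : Type*} [Field k] {T V : Type*}
    [AddCommGroup T] [Module k T] [AddCommGroup V] [Module k V] {τ : Representation k G T}
    {ρ : Representation k G V} (hτ : Irr τ) {f : T →ₗ[k] V} (hf : f ∈ hom τ ρ) (h0 : f ≠ 0) :
    ∃ (W : Submodule k V) (hW : Stab ρ W), W ≠ ⊥ ∧ Eqv τ (sub ρ W hW) := by
  have hW : Stab ρ (LinearMap.range f) := by
    rintro g _ ⟨x, rfl⟩
    exact ⟨τ g x, hf g x⟩
  have hk : Stab τ (LinearMap.ker f) := by
    intro g x hx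
    rw [LinearMap.mem_ker] at hx ⊢
    rw [hf g x, hx, map_zero]
  have hinj : Function.Injective f := by
    rcases hτ.2 _ hk with h | h
    · exact LinearMap.ker_eq_bot.1 h
    · exact absurd (LinearMap.ker_eq_top.1 h) h0
  refine ⟨LinearMap.range f, hW, fun h => h0 (LinearMap.range_eq_bot.1 h),
    LinearEquiv.ofInjective f hinj, fun g x => ?_⟩
  apply Subtype.ext
  rw [sub_apply]
  simp only [LinearEquiv.ofInjective_apply]
  exact hf g x

private theorem trace_charpoly {k : Type*} [Field k] {V : Type*} [AddCommGroup V] [Module k V]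
    [FiniteDimensional k V] (f : V →ₗ[k] V) :
    LinearMap.trace k V f = -(LinearMap.charpoly f).nextCoeff := by
  rw [LinearMap.trace_eq_matrix_trace k (Module.finBasis k V) f,
    ← LinearMap.charpoly_toMatrix f (Module.finBasis k V), Matrix.trace_eq_neg_charpoly_nextCoeff]

private theorem bn_aux {G : Type*} [Group G] {k : Type*} [Field k] [IsAlgClosed k] [CharP k 2]
    (n : ℕ) : ∀ (V V' : Type u) [AddCommGroup V] [Module k V] [FiniteDimensional k V]
      [AddCommGroup V'] [Module k V'] [FiniteDimensional k V'] (ρ : Representation k G V)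
      (ρ' : Representation k G V'), finrank k V = n → Ss ρ → Ss ρ' →
      (∀ g, LinearMap.charpoly (ρ g) = LinearMap.charpoly (ρ' g)) → Eqv ρ ρ' := by
  induction n using Nat.strong_induction_on with
  | _ n ih =>
  intro V V' _ _ _ _ _ _ ρ ρ' hn hs hs' h
  have hdim : finrank k V = finrank k V' := by
    rw [← LinearMap.charpoly_natDegree (ρ 1), ← LinearMap.charpoly_natDegree (ρ' 1), h]
  rcases Nat.eq_zero_or_pos n with h0 | hpos
  · have h1 : Subsingleton V' := finrank_zero_iff.1 (by rw [← hdim, hn, h0])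
    exact ⟨LinearEquiv.ofFinrankEq V V' hdim, fun g x => Subsingleton.elim _ _⟩
  by_cases hc : ∃ (T : Type u) (_ : AddCommGroup T) (_ : Module k T) (_ : FiniteDimensional k T)
      (τ : Representation k G T), Irr τ ∧ hom τ ρ ≠ ⊥ ∧ hom τ ρ' ≠ ⊥
  · obtain ⟨T, _, _, _, τ, hτ, h1, h2⟩ := hc
    obtain ⟨f, hf, hf0⟩ := Submodule.exists_mem_ne_zero_of_ne_bot h1
    obtain ⟨f', hf', hf0'⟩ := Submodule.exists_mem_ne_zero_of_ne_bot h2
    obtain ⟨W, hW, hW0, he⟩ := eqv_range hτ hf hf0
    obtain ⟨W', hW', hW0', he'⟩ := eqv_range hτ hf' hf0'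
    obtain ⟨W₁, hW₁, hcc⟩ := hs W hW
    obtain ⟨W₁', hW₁', hcc'⟩ := hs' W' hW'
    have hWW : Eqv (sub ρ W hW) (sub ρ' W' hW') := eqv_trans (eqv_symm he) he'
    refine eqv_glue hW hW₁ hW' hW₁' hcc hcc' hWW (ih (finrank k W₁) ?_ W₁ W₁' _ _ rfl
      (ss_sub hs hW₁) (ss_sub hs' hW₁') fun g => ?_)
    · have h3 := Submodule.finrank_add_eq_of_isCompl hcc
      have h4 : 0 < finrank k W := by
        rw [Nat.pos_iff_ne_zero]
        intro h5
        exact hW0 (Submodule.finrank_eq_zero.1 h5)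
      omega
    · have h3 := h g
      rw [charpoly_split hW hW₁ hcc, charpoly_split hW' hW₁' hcc', charpoly_eqv hWW] at h3
      exact mul_left_cancel₀ (LinearMap.charpoly_monic _).ne_zero h3
  · have htr : ∀ g, LinearMap.trace k V (ρ g) = LinearMap.trace k V' (ρ' g) := fun g => by
      rw [trace_charpoly, trace_charpoly, h]
    have hz : ∀ (T : Type u) [AddCommGroup T] [Module k T] [FiniteDimensional k T]
        (τ : Representation k G T), Irr τ → Even (finrank k (hom τ ρ)) ∧
          Even (finrank k (hom τ ρ')) := by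
      intro T _ _ _ τ hτ
      have h1 := hom_mod_two hτ hs hs' htr
      have h2 : hom τ ρ = ⊥ ∨ hom τ ρ' = ⊥ := by
        by_contra h2
        rw [not_or] at h2
        exact hc ⟨T, _, _, inferInstance, τ, hτ, h2⟩
      rcases h2 with h2 | h2
      · have h3 : finrank k (hom τ ρ) = 0 := by rw [h2, finrank_bot]
        rw [h3] at h1 ⊢
        exact ⟨Even.zero, (Nat.even_iff).2 h1.symm⟩
      · have h3 : finrank k (hom τ ρ') = 0 := by rw [h2, finrank_bot]
        rw [h3] at h1 ⊢
        exact ⟨(Nat.even_iff).2 h1, Even.zero⟩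
    obtain ⟨V₀, _, _, _, ρ₀, hs₀, he⟩ := exists_double hs fun T _ _ _ τ hτ => (hz T τ hτ).1
    obtain ⟨V₀', _, _, _, ρ₀', hs₀', he'⟩ := exists_double hs' fun T _ _ _ τ hτ => (hz T τ hτ).2
    have h4 : ∀ g, LinearMap.charpoly (ρ₀ g) = LinearMap.charpoly (ρ₀' g) := by
      intro g
      have h5 := h g
      rw [charpoly_eqv he, charpoly_eqv he'] at h5
      change LinearMap.charpoly ((ρ₀ g).prodMap (ρ₀ g)) =
        LinearMap.charpoly ((ρ₀' g).prodMap (ρ₀' g)) at h5
      rw [LinearMap.charpoly_prodMap, LinearMap.charpoly_prodMap, ← sq, ← sq] at h5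
      rcases sq_eq_sq_iff_eq_or_eq_neg.1 h5 with h6 | h6
      · exact h6
      · rwa [CharTwo.neg_eq] at h6
    have h7 : finrank k V₀ < n := by
      obtain ⟨φ, -⟩ := he
      have h8 := φ.finrank_eq
      rw [finrank_prod] at h8
      omega
    exact eqv_trans he (eqv_trans (eqv_prodR (ih _ h7 V₀ V₀' ρ₀ ρ₀' rfl hs₀ hs₀' h4)) (eqv_symm he'))

theorem bn {ρ : Representation k G V} {ρ' : Representation k G V'} (hs : Ss ρ) (hs' : Ss ρ')
    (h : ∀ g, LinearMap.charpoly (ρ g) = LinearMap.charpoly (ρ' g)) : Eqv ρ ρ' :=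
  bn_aux (finrank k V) V V' ρ ρ' rfl hs hs' h

end Pool.Agent.Work.MP_787500_nt.RB
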