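import Mathlib
import Pool.Agent.Work.MP_787500_nt.RB.Basic
import Pool.Agent.Work.MP_787500_nt.RB.Schur

/-!
# RB/Copy (size M, ANYBODY): two copies of an irreducible subrepresentation give an isotropic one

Let `ψ : W₁ ≃ W₂` be the equivalence. If `B` vanishes on `W₁` take `W₃ = W₁`. Otherwise `β x y = B x y` on `W₁` is a nonzero pairing of
`sub ρ W₁` with `(sub ρ W₁).comp κ` (irreducible by `irr_comp`), so by `pair_unique` every bilinear form `h` on `W₁` with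
`h (ρ g x) (ρ (κ g) y) = h x y` is a multiple of `β`. Apply this to `B x (ψ y) + B (ψ x) y = c₁ β` and `B (ψ x) (ψ y) = c₂ β`. For `t : k`
the subspace `W_t = {x + t ψ x}` is stable, irreducible and equivalent to `W₁` (`x ↦ x + t ψ x` is injective on `W₁` because
`W₁ ⊓ W₂ = ⊥`), and `B (x + t ψ x) (y + t ψ y) = (1 + c₁ t + c₂ t²) β x y`. If `c₂ = 0` then `B` vanishes on `W₂`: take `W₂`.
Otherwise take a root `t` of the quadratic polynomial (`IsAlgClosed.exists_root`).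
-/

set_option autoImplicit false
set_option linter.unusedSectionVars false

namespace Pool.Agent.Work.MP_787500_nt.RB

open Matrix Module

variable {G : Type*} [Group G] {k : Type*} [Field k] [IsAlgClosed k] {V : Type*} [AddCommGroup V]
  [Module k V] [FiniteDimensional k V] {κ : G →* G} {ρ : Representation k G V}
  {B : LinearMap.BilinForm k V}

private theorem copy_irr_eqv {k : Type*} [Field k] {V V' : Type*} [AddCommGroup V] [Module k V]
    [AddCommGroup V'] [Module k V'] {ρ : Representation k G V} {ρ' : Representation k G V'}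
    (he : Eqv ρ ρ') (h : Irr ρ) : Irr ρ' := by
  obtain ⟨φ, hφ⟩ := he
  obtain ⟨⟨x, hx⟩, h2⟩ := h
  refine ⟨⟨φ x, fun h0 => hx ((LinearEquiv.map_eq_zero_iff φ).1 h0)⟩, fun W hW => ?_⟩
  have h3 : Stab ρ (W.comap φ.toLinearMap) := fun g x hx => by
    show φ (ρ g x) ∈ W
    rw [hφ]
    exact hW g _ hx
  rcases h2 _ h3 with h4 | h4
  · left
    rw [eq_bot_iff]
    intro y hy
    have h5 : φ.symm y ∈ W.comap φ.toLinearMap := by
      show φ (φ.symm y) ∈ W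
      rwa [φ.apply_symm_apply]
    rw [h4, Submodule.mem_bot] at h5
    have h6 := congrArg φ h5
    rw [φ.apply_symm_apply, map_zero] at h6
    rw [h6]
    exact Submodule.zero_mem _
  · right
    rw [eq_top_iff]
    intro y _
    have h5 : φ.symm y ∈ W.comap φ.toLinearMap := by
      rw [h4]
      exact Submodule.mem_top
    have h6 : φ (φ.symm y) ∈ W := h5
    rwa [φ.apply_symm_apply] at h6

theorem exists_copy (hκ : ∀ g, κ (κ g) = g) (hB : TwForm κ ρ B) {W₁ W₂ : Submodule k V}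
    (h1 : IrrS ρ W₁) (h2 : IrrS ρ W₂) (hd : W₁ ⊓ W₂ = ⊥)
    (he : Eqv (sub ρ W₁ h1.1) (sub ρ W₂ h2.1)) :
    ∃ (W₃ : Submodule k V) (h3 : IrrS ρ W₃), W₃ ≤ W₁ ⊔ W₂ ∧
      Eqv (sub ρ W₁ h1.1) (sub ρ W₃ h3.1) ∧ ∀ x ∈ W₃, ∀ y ∈ W₃, B x y = 0 := by
  classical
  by_cases hz : ∀ x ∈ W₁, ∀ y ∈ W₁, B x y = 0
  · exact ⟨W₁, h1, le_sup_left, ⟨LinearEquiv.refl k _, fun g x => rfl⟩, hz⟩
  obtain ⟨ψ, hψ⟩ := he
  have hψc : ∀ g x, ((ψ (sub ρ W₁ h1.1 g x) : W₂) : V) = ρ g (ψ x : V) := fun g x => by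
    rw [hψ]
    rfl
  have hir : Irr (sub ρ W₁ h1.1) := irr_sub h1
  have hir' : Irr ((sub ρ W₁ h1.1).comp κ) := irr_comp hκ hir
  let β : W₁ →ₗ[k] W₁ →ₗ[k] k := B.compl₁₂ W₁.subtype W₁.subtype
  let f2 : W₁ →ₗ[k] V := W₂.subtype ∘ₗ ψ.toLinearMap
  let β1 : W₁ →ₗ[k] W₁ →ₗ[k] k := B.compl₁₂ W₁.subtype f2 + B.compl₁₂ f2 W₁.subtype
  let β2 : W₁ →ₗ[k] W₁ →ₗ[k] k := B.compl₁₂ f2 f2
  have hβ : ∀ x y, β x y = B x y := fun x y => rfl
  have hβ1 : ∀ x y, β1 x y = B x (ψ y) + B (ψ x) y := fun x y => rfl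
  have hβ2 : ∀ x y, β2 x y = B (ψ x) (ψ y) := fun x y => rfl
  have hβ0 : β ≠ 0 := by
    intro h0
    apply hz
    intro x hx y hy
    have h3 := hβ ⟨x, hx⟩ ⟨y, hy⟩
    rw [h0] at h3
    exact h3.symm
  have i0 : ∀ g x y, β (sub ρ W₁ h1.1 g x) (((sub ρ W₁ h1.1).comp κ) g y) = β x y :=
    fun g x y => hB.dual g x y
  have i1 : ∀ g x y, β1 (sub ρ W₁ h1.1 g x) (((sub ρ W₁ h1.1).comp κ) g y) = β1 x y := by
    intro g x y
    rw [hβ1, hβ1]
    have e1 : (((sub ρ W₁ h1.1).comp κ) g y) = sub ρ W₁ h1.1 (κ g) y := rfl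
    rw [e1, hψc, hψc, sub_apply, sub_apply, hB.dual, hB.dual]
  have i2 : ∀ g x y, β2 (sub ρ W₁ h1.1 g x) (((sub ρ W₁ h1.1).comp κ) g y) = β2 x y := by
    intro g x y
    rw [hβ2, hβ2]
    have e1 : (((sub ρ W₁ h1.1).comp κ) g y) = sub ρ W₁ h1.1 (κ g) y := rfl
    rw [e1, hψc, hψc, hB.dual]
  obtain ⟨c₁, hc₁⟩ := pair_unique hir hir' i0 i1 hβ0
  obtain ⟨c₂, hc₂⟩ := pair_unique hir hir' i0 i2 hβ0
  by_cases h0 : c₂ = 0
  · refine ⟨W₂, h2, le_sup_right, ⟨ψ, hψ⟩, fun x hx y hy => ?_⟩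
    have h3 := hc₂ (ψ.symm ⟨x, hx⟩) (ψ.symm ⟨y, hy⟩)
    rw [hβ2, ψ.apply_symm_apply, ψ.apply_symm_apply, h0, zero_mul] at h3
    exact h3
  obtain ⟨t, ht⟩ := IsAlgClosed.exists_root
    (Polynomial.C c₂ * Polynomial.X ^ 2 + Polynomial.C c₁ * Polynomial.X + Polynomial.C 1) (by
      rw [Polynomial.degree_quadratic h0]
      exact two_ne_zero)
  have ht' : c₂ * t ^ 2 + c₁ * t + 1 = 0 := by
    have := ht
    simpa [Polynomial.IsRoot.def] using this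
  let f : W₁ →ₗ[k] V := W₁.subtype + t • f2
  have hf : ∀ x, f x = (x : V) + t • (ψ x : V) := fun x => rfl
  have hinj : Function.Injective f := by
    rw [← LinearMap.ker_eq_bot, LinearMap.ker_eq_bot']
    intro x hx
    rw [hf] at hx
    have h3 : (x : V) ∈ W₂ := by
      rw [eq_neg_of_add_eq_zero_left hx]
      exact W₂.neg_mem (W₂.smul_mem _ (ψ x).2)
    have h4 : (x : V) ∈ W₁ ⊓ W₂ := ⟨x.2, h3⟩
    rw [hd, Submodule.mem_bot] at h4
    exact Subtype.ext h4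
  have hfρ : ∀ g x, ρ g (f x) = f (sub ρ W₁ h1.1 g x) := by
    intro g x
    rw [hf, hf, map_add, map_smul, hψc]
    rfl
  have hst : Stab ρ (LinearMap.range f) := by
    rintro g _ ⟨x, rfl⟩
    exact ⟨_, (hfρ g x).symm⟩
  have heq : Eqv (sub ρ W₁ h1.1) (sub ρ (LinearMap.range f) hst) := by
    refine ⟨LinearEquiv.ofInjective f hinj, fun g x => Subtype.ext ?_⟩
    exact (hfρ g x).symm
  have h3 : IrrS ρ (LinearMap.range f) := irrS_of_irr hst (copy_irr_eqv heq hir)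
  refine ⟨LinearMap.range f, h3, ?_, heq, ?_⟩
  · rintro _ ⟨x, rfl⟩
    exact Submodule.add_mem_sup x.2 (W₂.smul_mem _ (ψ x).2)
  · rintro _ ⟨x, rfl⟩ _ ⟨y, rfl⟩
    have e1 := hc₁ x y
    have e2 := hc₂ x y
    rw [hβ1, hβ] at e1
    rw [hβ2, hβ] at e2
    rw [hf, hf]
    simp only [map_add, map_smul, LinearMap.add_apply, LinearMap.smul_apply, smul_eq_mul]
    linear_combination (B (x : V) (y : V)) * ht' + t * e1 + t ^ 2 * e2

end Pool.Agent.Work.MP_787500_nt.RB
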