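import Mathlib
import Pool.Agent.Work.MP_787500_nt.RB.Basic

/-!
# RB/Glue (size M, ANYBODY): orthogonal sums, consequences of `HasData`, transport

* `hasData_zero`: empty basis (`ι = Empty` or `Fin 0`).
* `hasData_sum`: basis indexed by `ι₁ ⊕ ι₂` (`Module.Basis.prod` transported by `X.prodEquivOfIsCompl Y hc`), weights `Sum.elim a₁ a₂`,
  `B' x y = B₁' x_X y_X + B₂' x_Y y_Y`, `C x = C₁ x_X + C₂ x_Y` (projections to `X` and `Y` along each other). The mixed values of `B` are
  0 (`ho` and symmetry).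
* `even_of_data`: `h x y = B' x (C y)` is a nondegenerate alternating form on `V` (`B'` nondegenerate, `C` bijective), so the
  dimension is even: `LinearMap.BilinForm` / `GP.even_n` (matrix version in GP: an invertible alternating matrix has even size;
  see how `QG/Gen3` uses `GP.even_n`).
* `charpoly_of_data`: `ρ (κ g) = C⁻¹ ρ g C` (`C` is a linear equivalence): `LinearEquiv.charpoly_conj`.
-/

set_option autoImplicit false
set_option linter.unusedSectionVars false

namespace Pool.Agent.Work.MP_787500_nt.RB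

open Matrix Module

variable {G : Type*} [Group G] {k : Type*} [Field k] {V : Type*} [AddCommGroup V]
  [Module k V] [FiniteDimensional k V] {κ : G →* G} {ρ : Representation k G V}
  {B : LinearMap.BilinForm k V}

theorem hasData_zero (h : ∀ x : V, x = 0) : HasData κ ρ B := by
  have : Subsingleton V := ⟨fun x y => (h x).trans (h y).symm⟩
  exact ⟨Empty, inferInstance, Module.Basis.empty V, fun i => i.elim, 0, 0,
    fun _ i => i.elim, fun i => i.elim, fun i => i.elim, fun x _ => h x,
    fun x => Subsingleton.elim _ _, fun g x => Subsingleton.elim _ _, fun x => rfl⟩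

theorem hasData_sum (hB : TwForm κ ρ B) {X Y : Submodule k V} (hX : Stab ρ X) (hY : Stab ρ Y)
    (hc : IsCompl X Y) (ho : ∀ x ∈ X, ∀ y ∈ Y, B x y = 0)
    (h1 : HasData κ (sub ρ X hX) (B.restrict X)) (h2 : HasData κ (sub ρ Y hY) (B.restrict Y)) :
    HasData κ ρ B := by
  obtain ⟨ι₁, _, e₁, a₁, B₁, C₁, p1, p2, p3, p4, p5, p6, p7⟩ := h1
  obtain ⟨ι₂, _, e₂, a₂, B₂, C₂, q1, q2, q3, q4, q5, q6, q7⟩ := h2
  set P : (X × Y) ≃ₗ[k] V := X.prodEquivOfIsCompl Y hc with hP
  have hPa : ∀ (x : X) (y : Y), P (x, y) = (x : V) + y := fun x y => rfl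
  have hρ : ∀ (g : G) (x : X) (y : Y), ρ g (P (x, y)) = P (sub ρ X hX g x, sub ρ Y hY g y) := by
    intro g x y
    rw [hPa, hPa, map_add]
    rfl
  have hs : ∀ z : V, ∃ (x : X) (y : Y), z = P (x, y) := by
    intro z
    obtain ⟨⟨x, y⟩, rfl⟩ := P.surjective z
    exact ⟨x, y, rfl⟩
  let fx : V →ₗ[k] X := (LinearMap.fst k X Y).comp P.symm.toLinearMap
  let fy : V →ₗ[k] Y := (LinearMap.snd k X Y).comp P.symm.toLinearMap
  have hfx : ∀ x y, fx (P (x, y)) = x := by
    intro x y
    change (P.symm (P (x, y))).1 = x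
    rw [LinearEquiv.symm_apply_apply]
  have hfy : ∀ x y, fy (P (x, y)) = y := by
    intro x y
    change (P.symm (P (x, y))).2 = y
    rw [LinearEquiv.symm_apply_apply]
  let B' : LinearMap.BilinForm k V := B₁.compl₁₂ fx fx + B₂.compl₁₂ fy fy
  have hB' : ∀ x y x' y', B' (P (x, y)) (P (x', y')) = B₁ x x' + B₂ y y' := by
    intro x y x' y'
    change B₁ (fx (P (x, y))) (fx (P (x', y'))) + B₂ (fy (P (x, y))) (fy (P (x', y'))) = _
    rw [hfx, hfx, hfy, hfy]
  let C : V →ₗ[k] V := P.toLinearMap.comp ((C₁.prodMap C₂).comp P.symm.toLinearMap)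
  have hC : ∀ x y, C (P (x, y)) = P (C₁ x, C₂ y) := by
    intro x y
    change P ((C₁.prodMap C₂) (P.symm (P (x, y)))) = _
    rw [LinearEquiv.symm_apply_apply]
    rfl
  let e : Module.Basis (ι₁ ⊕ ι₂) k V := (e₁.prod e₂).map P
  have he1 : ∀ i, e (Sum.inl i) = P (e₁ i, 0) := by
    intro i
    change P ((e₁.prod e₂) (Sum.inl i)) = _
    rw [Module.Basis.prod_apply]
    rfl
  have he2 : ∀ i, e (Sum.inr i) = P (0, e₂ i) := by
    intro i
    change P ((e₁.prod e₂) (Sum.inr i)) = _
    rw [Module.Basis.prod_apply]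
    rfl
  have hr : ∀ z, e.repr (P z) = (e₁.prod e₂).repr z := by
    intro z
    change (e₁.prod e₂).repr (P.symm (P z)) = _
    rw [LinearEquiv.symm_apply_apply]
  have hr1 : ∀ x y i, e.repr (P (x, y)) (Sum.inl i) = e₁.repr x i := by
    intro x y i
    rw [hr, Module.Basis.prod_repr_inl]
  have hr2 : ∀ x y i, e.repr (P (x, y)) (Sum.inr i) = e₂.repr y i := by
    intro x y i
    rw [hr, Module.Basis.prod_repr_inr]
  have hBxy : ∀ (x : X) (y : Y), B (P (x, 0)) (P (0, y)) = 0 := by
    intro x y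
    rw [hPa, hPa]
    simp only [ZeroMemClass.coe_zero, add_zero, zero_add]
    exact ho x x.2 y y.2
  have hByx : ∀ (x : X) (y : Y), B (P (0, y)) (P (x, 0)) = 0 := by
    intro x y
    rw [hB.symm, hBxy]
  have hBx : ∀ x x' : X, B (P (x, 0)) (P (x', 0)) = B.restrict X x x' := by
    intro x x'
    rw [hPa, hPa]
    simp only [ZeroMemClass.coe_zero, add_zero]
    rfl
  have hBy : ∀ y y' : Y, B (P (0, y)) (P (0, y')) = B.restrict Y y y' := by
    intro y y'
    rw [hPa, hPa]
    simp only [ZeroMemClass.coe_zero, zero_add]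
    rfl
  refine ⟨ι₁ ⊕ ι₂, inferInstance, e, Sum.elim a₁ a₂, B', C, ?_, ?_, ?_, ?_, ?_, ?_, ?_⟩
  · rintro g (i | i) (j | j) hij
    · rw [he1, hρ, hr1]
      exact p1 g i j hij
    · rw [he2, hρ, hr1, map_zero, map_zero]
      rfl
    · rw [he1, hρ, hr2, map_zero, map_zero]
      rfl
    · rw [he2, hρ, hr2]
      exact q1 g i j hij
  · rintro (i | i) (j | j) hij
    · rw [he1, he1, hBx]
      exact p2 i j hij
    · rw [he1, he2, hBxy]
    · rw [he1, he2, hByx]
    · rw [he2, he2, hBy]
      exact q2 i j hij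
  · rintro (i | i) (j | j)
    · rw [he1, he1, hBx, hB', map_zero, add_zero]
      exact p3 i j
    · rw [he1, he2, hBxy, hB', map_zero, map_zero, LinearMap.zero_apply, add_zero, ite_self]
    · rw [he1, he2, hByx, hB', map_zero, map_zero, LinearMap.zero_apply, add_zero, ite_self]
    · rw [he2, he2, hBy, hB', map_zero, zero_add]
      exact q3 i j
  · intro z hz
    obtain ⟨x, y, rfl⟩ := hs z
    have hx : x = 0 := p4 x fun x' => by
      have h3 := hz (P (x', 0))
      rwa [hB', map_zero, add_zero] at h3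
    have hy : y = 0 := q4 y fun y' => by
      have h3 := hz (P (0, y'))
      rwa [hB', map_zero, zero_add] at h3
    rw [hx, hy]
    exact map_zero P
  · intro z
    obtain ⟨x, y, rfl⟩ := hs z
    rw [hC, hC, p5, q5]
  · intro g z
    obtain ⟨x, y, rfl⟩ := hs z
    rw [hρ, hC, hC, hρ, p6, q6]
  · intro z
    obtain ⟨x, y, rfl⟩ := hs z
    rw [hC, hB', p7, q7, add_zero]

private theorem even_alt.{v} {k : Type*} [Field k] (n : ℕ) :
    ∀ {V : Type v} [AddCommGroup V] [Module k V] [FiniteDimensional k V]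
      (B : LinearMap.BilinForm k V), (∀ x, B x x = 0) → (∀ x, (∀ y, B x y = 0) → x = 0) →
      finrank k V = n → Even n := by
  induction n using Nat.strong_induction_on with
  | _ n ih =>
  intro V _ _ _ B ha hn hd
  rcases Nat.eq_zero_or_pos n with h0 | h0
  · subst h0
    exact Even.zero
  have hsk : ∀ x y, B x y = - B y x := by
    intro x y
    have h1 := ha (x + y)
    rw [map_add, map_add, LinearMap.add_apply, LinearMap.add_apply, ha, ha, zero_add,
      add_zero] at h1
    rw [eq_neg_iff_add_eq_zero, add_comm]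
    exact h1
  have hnt : Nontrivial V := finrank_pos_iff.1 (hd ▸ h0)
  obtain ⟨x, hx⟩ := exists_ne (0 : V)
  obtain ⟨y, hy⟩ : ∃ y, B x y ≠ 0 := by
    by_contra h
    push Not at h
    exact hx (hn x h)
  have hy' : B y x ≠ 0 := fun h => hy (by rw [hsk, h, neg_zero])
  have hst : ∀ s t : k, B x (s • x + t • y) = 0 → B y (s • x + t • y) = 0 → s = 0 ∧ t = 0 := by
    intro s t h1 h2
    rw [map_add, map_smul, map_smul, ha, smul_zero, zero_add, smul_eq_mul] at h1
    rw [map_add, map_smul, map_smul, ha, smul_zero, add_zero, smul_eq_mul] at h2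
    exact ⟨(mul_eq_zero.1 h2).resolve_right hy', (mul_eq_zero.1 h1).resolve_right hy⟩
  have hli : LinearIndependent k ![x, y] := by
    rw [LinearIndependent.pair_iff]
    intro s t h
    exact hst s t (by rw [h, map_zero]) (by rw [h, map_zero])
  have hx' : x ∈ Submodule.span k (Set.range ![x, y]) := Submodule.subset_span ⟨0, rfl⟩
  have hyx : y ∈ Submodule.span k (Set.range ![x, y]) := Submodule.subset_span ⟨1, rfl⟩
  have hW : ∀ w ∈ Submodule.span k (Set.range ![x, y]),
      (∀ z ∈ Submodule.span k (Set.range ![x, y]), B w z = 0) → w = 0 := by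
    intro w hw hz
    have h1 : w ∈ Submodule.span k {x, y} := by
      rwa [Matrix.range_cons, Matrix.range_cons, Matrix.range_empty, Set.union_empty,
        Set.singleton_union] at hw
    obtain ⟨s, t, rfl⟩ := Submodule.mem_span_pair.1 h1
    have h2 := hst s t (by rw [hsk, hz x hx', neg_zero]) (by rw [hsk, hz y hyx, neg_zero])
    rw [h2.1, h2.2, zero_smul, zero_smul, add_zero]
  have hrefl : B.IsRefl := fun a b h => by rw [hsk, h, neg_zero]
  have hc : IsCompl (Submodule.span k (Set.range ![x, y]))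
      (B.orthogonal (Submodule.span k (Set.range ![x, y]))) := by
    refine LinearMap.BilinForm.isCompl_orthogonal_of_restrict_nondegenerate hrefl ⟨?_, ?_⟩
    · exact fun a h => Subtype.ext (hW a a.2 fun b hb => h ⟨b, hb⟩)
    · refine fun a h => Subtype.ext (hW a a.2 fun b hb => ?_)
      rw [hsk, show B b a = 0 from h ⟨b, hb⟩, neg_zero]
  have hfr := Submodule.finrank_add_eq_of_isCompl hc
  rw [finrank_span_eq_card hli, Fintype.card_fin, hd] at hfr
  set W := Submodule.span k (Set.range ![x, y]) with hWd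
  have h1 := ih (finrank k (B.orthogonal W)) (by omega) (B.restrict (B.orthogonal W))
    (fun a => ha a) (by
      intro a h
      refine Subtype.ext (hn a fun z => ?_)
      have h2 : z ∈ W ⊔ B.orthogonal W := by
        rw [codisjoint_iff.1 hc.2]
        exact Submodule.mem_top
      obtain ⟨b, hb, c, hc', rfl⟩ := Submodule.mem_sup.1 h2
      rw [map_add, show B a c = 0 from h ⟨c, hc'⟩, add_zero, hsk, show B b a = 0 from a.2 b hb,
        neg_zero]) rfl
  rw [← hfr, Nat.even_add]
  exact ⟨fun _ => h1, fun _ => even_two⟩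

theorem even_of_data (h : HasData κ ρ B) : Even (finrank k V) := by
  obtain ⟨ι, _, e, a, B', C, -, -, -, p4, p5, -, p7⟩ := h
  refine even_alt _ (B'.compl₂ C) p7 (fun x hx => p4 x fun y => ?_) rfl
  have h1 := hx (C y)
  rwa [LinearMap.compl₂_apply, p5] at h1

theorem charpoly_of_data (h : HasData κ ρ B) (g : G) :
    LinearMap.charpoly (ρ (κ g)) = LinearMap.charpoly (ρ g) := by
  obtain ⟨ι, _, e, a, B', C, -, -, -, -, p5, p6, -⟩ := h
  let φ : V ≃ₗ[k] V := LinearEquiv.ofLinearMap C C (LinearMap.ext p5) (LinearMap.ext p5)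
  rw [← LinearEquiv.charpoly_conj φ]
  congr 1
  refine LinearMap.ext fun v => ?_
  rw [LinearEquiv.conj_apply_apply]
  change C (ρ (κ g) (C v)) = _
  rw [p6, p5]

end Pool.Agent.Work.MP_787500_nt.RB
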