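import Mathlib
import Pool.Agent.Work.MP_787500_nt.RB.Basic

/-!
# RB/PcA (size M, ANYBODY): the hyperbolic piece with an involution

`V = W ⊕ U`, `W` isotropic with an involution `γ`. `B` restricted to `W × U` is a perfect pairing: if `w ∈ W` is orthogonal to `U` it is
orthogonal to `V`, so `w = 0`; on the other side `hU0`. Let `w_i` (`i ∈ I`) be a basis of `W` and `u_i` the dual basis of `U`:
`B w_i u_j = δ_ij`. Basis of `V` indexed by `I ⊕ I` (take `I = Fin (finrank k W)`), weights `-1` on the `w_i` and `1` on the `u_i`.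
Both `W` and `U` are stable, so the representation preserves the weights. `B'` = the form with `B' w_i u_j = B' u_j w_i = δ_ij` and 0 on
`W × W` and `U × U` (coordinate free: `B' x y = B x_W y_U + B x_U y_W` with the projections to `W` and `U`).
`C = γ` on `W` and on `U` the adjoint: `B (γ w) u = B w (C u)` for all `w` (perfect pairing `W × U`). `C C = 1`.
`C (ρ (κ g) u) = ρ g (C u)`: pair with `w`: `B w (C (ρ (κ g) u)) = B (γ w) (ρ (κ g) u) = B (ρ g⁻¹ (γ w)) u = B (γ (ρ (κ g⁻¹) w)) u =
B (ρ (κ g⁻¹) w) (C u) = B w (ρ g (C u))` (`dual` for `g` and for `κ g`; `hγ` for `g⁻¹`). `B' x (C x) = 0` for `x = w + u`: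
`B w (C u) + B u (γ w) = B (γ w) u + B (γ w) u = 0` (characteristic 2).
-/

set_option autoImplicit false
set_option linter.unusedSectionVars false

namespace Pool.Agent.Work.MP_787500_nt.RB

open Matrix Module

variable {G : Type*} [Group G] {k : Type*} [Field k] [CharP k 2] {V : Type*} [AddCommGroup V]
  [Module k V] [FiniteDimensional k V] {κ : G →* G} {ρ : Representation k G V}
  {B : LinearMap.BilinForm k V}

theorem hasData_hyp (hκ : ∀ g, κ (κ g) = g) (hB : TwForm κ ρ B) {W U : Submodule k V}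
    (hW : Stab ρ W) (hU : Stab ρ U) (hc : IsCompl W U) (hi : ∀ x ∈ W, ∀ y ∈ W, B x y = 0)
    (hU0 : ∀ u ∈ U, (∀ w ∈ W, B w u = 0) → u = 0) {γ : W →ₗ[k] W} (h2 : ∀ x, γ (γ x) = x)
    (hγ : ∀ g x, γ (sub ρ W hW (κ g) x) = sub ρ W hW g (γ x)) : HasData κ ρ B := by
  classical
  let E : (W × U) ≃ₗ[k] V := W.prodEquivOfIsCompl U hc
  have hE : ∀ (w : W) (u : U), E (w, u) = (w : V) + u := fun w u => rfl
  have hEs : ∀ x : V, ∃ (w : W) (u : U), x = E (w, u) := fun x =>
    ⟨(E.symm x).1, (E.symm x).2, (E.apply_symm_apply x).symm⟩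
  have hρE : ∀ g (w : W) (u : U), ρ g (E (w, u)) = E (sub ρ W hW g w, sub ρ U hU g u) := by
    intro g w u
    rw [hE, hE, map_add]
    rfl
  -- the pairing
  let p : U →ₗ[k] Dual k W := (B.compl₁₂ W.subtype U.subtype).flip
  have hp : ∀ (u : U) (w : W), p u w = B w u := fun u w => rfl
  have hpi : Function.Injective p := by
    rw [← LinearMap.ker_eq_bot, LinearMap.ker_eq_bot']
    intro u hu
    refine Subtype.ext (hU0 u u.2 fun w hw => ?_)
    have h3 := hp u ⟨w, hw⟩
    rw [hu] at h3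
    exact h3.symm
  have hW0 : ∀ w : W, (∀ u : U, B w u = 0) → w = 0 := by
    intro w hw
    refine Subtype.ext (hB.nondeg _ fun y => ?_)
    obtain ⟨w', u', rfl⟩ := hEs y
    rw [hE, map_add, hi w w.2 w' w'.2, hw u', add_zero]
  let q : W →ₗ[k] Dual k U := B.compl₁₂ W.subtype U.subtype
  have hq : ∀ (w : W) (u : U), q w u = B w u := fun w u => rfl
  have hqi : Function.Injective q := by
    rw [← LinearMap.ker_eq_bot, LinearMap.ker_eq_bot']
    intro w hw
    refine hW0 w fun u => ?_
    have h3 := hq w u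
    rw [hw] at h3
    exact h3.symm
  have hdim : finrank k U = finrank k (Dual k W) := by
    have h3 := LinearMap.finrank_le_finrank_of_injective hpi
    have h4 := LinearMap.finrank_le_finrank_of_injective hqi
    rw [Subspace.dual_finrank_eq] at h3 h4
    rw [Subspace.dual_finrank_eq]
    exact le_antisymm h3 h4
  let P : U ≃ₗ[k] Dual k W := LinearEquiv.ofInjectiveOfFinrankEq p hpi hdim
  have hP : ∀ (u : U) (w : W), P u w = B w u := fun u w => rfl
  have hPe : ∀ {u u' : U}, (∀ w : W, B (w : V) (u : V) = B (w : V) (u' : V)) → u = u' := by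
    intro u u' h
    exact hpi (LinearMap.ext fun w => h w)
  -- the adjoint
  let δ : U →ₗ[k] U := P.symm.toLinearMap ∘ₗ γ.dualMap ∘ₗ P.toLinearMap
  have hδ : ∀ (w : W) (u : U), B (w : V) (δ u : V) = B (γ w : V) (u : V) := by
    intro w u
    rw [← hP, ← hP]
    show P (P.symm (γ.dualMap (P u))) w = _
    rw [P.apply_symm_apply]
    rfl
  have hδδ : ∀ u, δ (δ u) = u := fun u => hPe fun w => by rw [hδ, hδ, h2]
  have hinv : ∀ g y, ρ g (ρ g⁻¹ y) = y := fun g y => by
    rw [← Module.End.mul_apply, ← map_mul, mul_inv_cancel, map_one, Module.End.one_apply]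
  have hδρ : ∀ g u, δ (sub ρ U hU (κ g) u) = sub ρ U hU g (δ u) := by
    intro g u
    refine hPe fun w => ?_
    rw [hδ, sub_apply, sub_apply]
    have e1 : B (γ w : V) (ρ (κ g) (u : V)) = B (ρ g⁻¹ (γ w : V)) (u : V) := by
      rw [← hB.dual g (ρ g⁻¹ (γ w : V)) u, hinv]
    have e2 : ρ g⁻¹ (γ w : V) = (γ (sub ρ W hW (κ g⁻¹) w) : V) := by
      rw [hγ, sub_apply]
    have e3 : B (ρ (κ g⁻¹) (w : V)) (δ u : V) = B (w : V) (ρ g (δ u : V)) := by
      rw [← hB.dual (κ g) (ρ (κ g⁻¹) (w : V)) (δ u : V), hκ, map_inv, hinv]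
    rw [e1, e2, ← hδ, sub_apply, e3]
  let fW : V →ₗ[k] V := W.subtype ∘ₗ LinearMap.fst k W U ∘ₗ E.symm.toLinearMap
  let fU : V →ₗ[k] V := U.subtype ∘ₗ LinearMap.snd k W U ∘ₗ E.symm.toLinearMap
  have hfW : ∀ (w : W) (u : U), fW (E (w, u)) = w := fun w u => by
    show (((E.symm (E (w, u))).1 : W) : V) = w
    rw [E.symm_apply_apply]
  have hfU : ∀ (w : W) (u : U), fU (E (w, u)) = u := fun w u => by
    show (((E.symm (E (w, u))).2 : U) : V) = u
    rw [E.symm_apply_apply]
  let B' : LinearMap.BilinForm k V := B.compl₁₂ fW fU + B.compl₁₂ fU fW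
  have hB' : ∀ (w : W) (u : U) (w' : W) (u' : U),
      B' (E (w, u)) (E (w', u')) = B w u' + B u w' := by
    intro w u w' u'
    show B (fW (E (w, u))) (fU (E (w', u'))) + B (fU (E (w, u))) (fW (E (w', u'))) = _
    rw [hfW, hfU, hfW, hfU]
  let C : V →ₗ[k] V := E.toLinearMap ∘ₗ (γ.prodMap δ) ∘ₗ E.symm.toLinearMap
  have hC : ∀ (w : W) (u : U), C (E (w, u)) = E (γ w, δ u) := by
    intro w u
    show E ((γ.prodMap δ) (E.symm (E (w, u)))) = _
    rw [E.symm_apply_apply]
    rfl
  let bw : Basis (Fin (finrank k W)) k W := finBasis k W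
  let bu : Basis (Fin (finrank k W)) k U := bw.dualBasis.map P.symm
  let e : Basis (Fin (finrank k W) ⊕ Fin (finrank k W)) k V := (bw.prod bu).map E
  have hel : ∀ i, e (Sum.inl i) = E (bw i, 0) := fun i => by
    rw [Basis.map_apply, Basis.prod_apply]
    rfl
  have her : ∀ i, e (Sum.inr i) = E (0, bu i) := fun i => by
    rw [Basis.map_apply, Basis.prod_apply]
    rfl
  have hrl : ∀ (w : W) (u : U) i, e.repr (E (w, u)) (Sum.inl i) = bw.repr w i := fun w u i => by
    rw [Basis.map_repr, LinearEquiv.trans_apply, E.symm_apply_apply, Basis.prod_repr_inl]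
  have hrr : ∀ (w : W) (u : U) i, e.repr (E (w, u)) (Sum.inr i) = bu.repr u i := fun w u i => by
    rw [Basis.map_repr, LinearEquiv.trans_apply, E.symm_apply_apply, Basis.prod_repr_inr]
  refine ⟨Fin (finrank k W) ⊕ Fin (finrank k W), inferInstance, e,
    Sum.elim (fun _ => -1) (fun _ => 1), B', C, ?_, ?_, ?_, ?_, ?_, ?_, ?_⟩
  · intro g i j hij
    rcases i with i | i <;> rcases j with j | j
    · exact absurd rfl hij
    · rw [her, hρE, hrl, map_zero, map_zero]
      rfl
    · rw [hel, hρE, hrr, map_zero, map_zero]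
      rfl
    · exact absurd rfl hij
  · intro i j hij
    rcases i with i | i <;> rcases j with j | j
    · rw [hel, hel, hE, hE]
      simp only [Submodule.coe_zero, add_zero]
      exact hi _ (bw i).2 _ (bw j).2
    · simp at hij
    · simp at hij
    · simp at hij
  · intro i j
    rcases i with i | i <;> rcases j with j | j
    · rw [hel, hel, hB']
      simp
    · rw [hel, her, hB', hE, hE]
      simp
    · rw [her, hel, hB', hE, hE]
      simp
    · rw [her, her, hB']
      simp
  · intro x hx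
    obtain ⟨w, u, rfl⟩ := hEs x
    have hw : w = 0 := hW0 w fun u' => by
      have := hx (E (0, u'))
      rw [hB'] at this
      simpa using this
    have hu : u = 0 := Subtype.ext (hU0 u u.2 fun w' hw' => by
      have := hx (E (⟨w', hw'⟩, 0))
      rw [hB'] at this
      rw [hB.symm]
      simpa using this)
    rw [hw, hu]
    exact map_zero E
  · intro x
    obtain ⟨w, u, rfl⟩ := hEs x
    rw [hC, hC, h2, hδδ]
  · intro g x
    obtain ⟨w, u, rfl⟩ := hEs x
    rw [hρE, hC, hC, hρE, hγ, hδρ]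
  · intro x
    obtain ⟨w, u, rfl⟩ := hEs x
    rw [hC, hB', hδ, hB.symm (u : V)]
    exact CharTwo.add_self_eq_zero _

end Pool.Agent.Work.MP_787500_nt.RB
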