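import Mathlib
import Pool.Agent.Work.MP_787500_nt.RB.Basic

/-!
# RB/PcB (size M, ANYBODY): the hyperbolic piece with an invariant alternating form

As RB/PcA (perfect pairing `W × U`, basis `w_i`, `u_i`, weights `-1`, `1`, `B' x y = B x_W y_U + B x_U y_W`), but `C` exchanges `W` and
`U`: for `w ∈ W` let `C w` be the element of `U` with `B w' (C w) = h w' w` for all `w' ∈ W`; `C : W → U` is bijective (`h` is
nondegenerate and the dimensions are equal) and `C` on `U` is the inverse map. `C (ρ (κ g) w) = ρ g (C w)`: pair with `w'`: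
`B w' (C (ρ (κ g) w)) = h w' (ρ (κ g) w) = h (ρ (κ g)⁻¹ w') w = B (ρ (κ g)⁻¹ w') (C w) = B w' (ρ g (C w))` (`dual` for `κ g`, `κ (κ g) = g`).
On `U`, `u = C v`: the relation for `κ g` gives `C (ρ g v) = ρ (κ g) (C v)`, so `C (ρ (κ g) u) = ρ g v = ρ g (C u)`.
`B' x (C x) = 0` for `x = w + C v`: `B w (C w) + B (C v) v = h w w + h v v = 0`.
-/

set_option autoImplicit false
set_option linter.unusedSectionVars false

namespace Pool.Agent.Work.MP_787500_nt.RB

open Matrix Module

variable {G : Type*} [Group G] {k : Type*} [Field k] [CharP k 2] {V : Type*} [AddCommGroup V]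
  [Module k V] [FiniteDimensional k V] {κ : G →* G} {ρ : Representation k G V}
  {B : LinearMap.BilinForm k V}

private theorem dec {W U : Submodule k V} (hc : IsCompl W U) (x : V) :
    ∃ (w : W) (u : U), x = (w : V) + u := by
  obtain ⟨⟨w, u⟩, rfl⟩ := (W.prodEquivOfIsCompl U hc).surjective x
  exact ⟨w, u, rfl⟩

/-- exchange of the two summands -/
private noncomputable def swp {W U : Submodule k V} (hc : IsCompl W U) (θ : W ≃ₗ[k] U) : V →ₗ[k] V :=
  (W.prodEquivOfIsCompl U hc).toLinearMap ∘ₗ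
    (LinearMap.prod (θ.symm.toLinearMap ∘ₗ LinearMap.snd k W U)
      (θ.toLinearMap ∘ₗ LinearMap.fst k W U)) ∘ₗ (W.prodEquivOfIsCompl U hc).symm.toLinearMap

private theorem swp_apply {W U : Submodule k V} (hc : IsCompl W U) (θ : W ≃ₗ[k] U) (w : W) (u : U) :
    swp hc θ ((w : V) + u) = (θ.symm u : V) + (θ w : V) := by
  have h1 : (W.prodEquivOfIsCompl U hc).symm ((w : V) + u) = (w, u) :=
    (LinearEquiv.symm_apply_eq _).2 rfl
  show (W.prodEquivOfIsCompl U hc) (θ.symm ((W.prodEquivOfIsCompl U hc).symm ((w : V) + u)).2,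
    θ ((W.prodEquivOfIsCompl U hc).symm ((w : V) + u)).1) = _
  rw [h1]
  rfl

private theorem swp_swp {W U : Submodule k V} (hc : IsCompl W U) (θ : W ≃ₗ[k] U) (x : V) :
    swp hc θ (swp hc θ x) = x := by
  obtain ⟨w, u, rfl⟩ := dec hc x
  rw [swp_apply, swp_apply, LinearEquiv.symm_apply_apply, LinearEquiv.apply_symm_apply]

private theorem swp_rho (hκ : ∀ g, κ (κ g) = g) {W U : Submodule k V} (hc : IsCompl W U)
    (hW : Stab ρ W) (hU : Stab ρ U) (θ : W ≃ₗ[k] U)
    (hθ : ∀ g w, θ (sub ρ W hW (κ g) w) = sub ρ U hU g (θ w)) (g : G) (x : V) :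
    swp hc θ (ρ (κ g) x) = ρ g (swp hc θ x) := by
  obtain ⟨w, u, rfl⟩ := dec hc x
  have h1 : ρ (κ g) ((w : V) + u) = (sub ρ W hW (κ g) w : V) + (sub ρ U hU (κ g) u : V) := by
    rw [map_add]
    rfl
  have h2 : θ.symm (sub ρ U hU (κ g) u) = sub ρ W hW g (θ.symm u) := by
    rw [LinearEquiv.symm_apply_eq]
    have h3 := hθ (κ g) (θ.symm u)
    rw [hκ, LinearEquiv.apply_symm_apply] at h3
    exact h3.symm
  rw [h1, swp_apply, swp_apply, h2, hθ, map_add]
  rfl

/-- the part of weight 0 of the form -/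
private noncomputable def bb (B : LinearMap.BilinForm k V) {W U : Submodule k V}
    (hc : IsCompl W U) : LinearMap.BilinForm k V :=
  let P : V →ₗ[k] V := W.subtype ∘ₗ LinearMap.fst k W U ∘ₗ
    (W.prodEquivOfIsCompl U hc).symm.toLinearMap
  let Q : V →ₗ[k] V := U.subtype ∘ₗ LinearMap.snd k W U ∘ₗ
    (W.prodEquivOfIsCompl U hc).symm.toLinearMap
  B.compl₁₂ P Q + B.compl₁₂ Q P

private theorem bb_apply {W U : Submodule k V} (hc : IsCompl W U) (w w' : W) (u u' : U) :
    bb B hc ((w : V) + u) ((w' : V) + u') = B w u' + B u w' := by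
  have h1 : ∀ (w : W) (u : U), (W.prodEquivOfIsCompl U hc).symm ((w : V) + u) = (w, u) :=
    fun w u => (LinearEquiv.symm_apply_eq _).2 rfl
  unfold bb
  simp only [LinearMap.add_apply, LinearMap.compl₁₂_apply, LinearMap.comp_apply,
    LinearEquiv.coe_coe, h1, LinearMap.fst_apply, LinearMap.snd_apply, Submodule.subtype_apply]

private theorem bb_ww {W U : Submodule k V} (hc : IsCompl W U) (w w' : W) :
    bb B hc (w : V) (w' : V) = 0 := by
  have h := bb_apply (B := B) hc w w' 0 0
  simpa using h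

private theorem bb_uu {W U : Submodule k V} (hc : IsCompl W U) (u u' : U) :
    bb B hc (u : V) (u' : V) = 0 := by
  have h := bb_apply (B := B) hc 0 0 u u'
  simpa using h

private theorem bb_wu {W U : Submodule k V} (hc : IsCompl W U) (w : W) (u : U) :
    bb B hc (w : V) (u : V) = B w u := by
  have h := bb_apply (B := B) hc w 0 0 u
  simpa using h

private theorem bb_uw {W U : Submodule k V} (hc : IsCompl W U) (w : W) (u : U) :
    bb B hc (u : V) (w : V) = B u w := by
  have h := bb_apply (B := B) hc 0 w u 0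
  simpa using h

private theorem hasData_aux (hB : TwForm κ ρ B) {W U : Submodule k V}
    (hW : Stab ρ W) (hU : Stab ρ U) (hc : IsCompl W U) (hi : ∀ x ∈ W, ∀ y ∈ W, B x y = 0)
    (hU0 : ∀ u ∈ U, (∀ w ∈ W, B w u = 0) → u = 0) {C : V →ₗ[k] V} (h2 : ∀ x, C (C x) = x)
    (hC : ∀ g x, C (ρ (κ g) x) = ρ g (C x)) (h0 : ∀ x, bb B hc x (C x) = 0) : HasData κ ρ B := by
  classical
  let E := W.prodEquivOfIsCompl U hc
  let e : Basis (Fin (finrank k W) ⊕ Fin (finrank k U)) k V :=
    ((finBasis k W).prod (finBasis k U)).map E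
  have e1 : ∀ i, e (Sum.inl i) = (finBasis k W i : V) := by
    intro i
    have h3 : ((finBasis k W).prod (finBasis k U)) (Sum.inl i) = (finBasis k W i, 0) := by
      ext <;> simp
    show E (((finBasis k W).prod (finBasis k U)) (Sum.inl i)) = _
    rw [h3]
    show (finBasis k W i : V) + ((0 : U) : V) = _
    simp
  have e2 : ∀ i, e (Sum.inr i) = (finBasis k U i : V) := by
    intro i
    have h3 : ((finBasis k W).prod (finBasis k U)) (Sum.inr i) = (0, finBasis k U i) := by
      ext <;> simp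
    show E (((finBasis k W).prod (finBasis k U)) (Sum.inr i)) = _
    rw [h3]
    show ((0 : W) : V) + (finBasis k U i : V) = _
    simp
  have r1 : ∀ (w : W) i, e.repr (w : V) (Sum.inr i) = 0 := by
    intro w i
    have h3 : E.symm (w : V) = (w, 0) := by
      rw [LinearEquiv.symm_apply_eq]
      show (w : V) = (w : V) + ((0 : U) : V)
      simp
    show ((finBasis k W).prod (finBasis k U)).repr (E.symm (w : V)) (Sum.inr i) = 0
    rw [h3]
    simp
  have r2 : ∀ (u : U) i, e.repr (u : V) (Sum.inl i) = 0 := by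
    intro u i
    have h3 : E.symm (u : V) = (0, u) := by
      rw [LinearEquiv.symm_apply_eq]
      show (u : V) = ((0 : W) : V) + (u : V)
      simp
    show ((finBasis k W).prod (finBasis k U)).repr (E.symm (u : V)) (Sum.inl i) = 0
    rw [h3]
    simp
  refine ⟨_, inferInstance, e, Sum.elim (fun _ => -1) (fun _ => 1), bb B hc, C, ?_, ?_, ?_, ?_,
    h2, hC, h0⟩
  · rintro g (i | i) (j | j) hij
    · exact absurd rfl hij
    · rw [e2]
      exact r2 ⟨_, hU g _ (finBasis k U j).2⟩ i
    · rw [e1]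
      exact r1 ⟨_, hW g _ (finBasis k W j).2⟩ i
    · exact absurd rfl hij
  · rintro (i | i) (j | j) hij
    · rw [e1, e1]
      exact hi _ (finBasis k W i).2 _ (finBasis k W j).2
    · norm_num at hij
    · norm_num at hij
    · norm_num at hij
  · rintro (i | i) (j | j)
    · rw [e1, e1, bb_ww]
      norm_num
    · rw [e1, e2, bb_wu]
      norm_num
    · rw [e1, e2, bb_uw]
      norm_num
    · rw [e2, e2, bb_uu]
      norm_num
  · intro x hx
    obtain ⟨w, u, rfl⟩ := dec hc x
    have hw : (w : V) = 0 := by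
      refine hB.nondeg _ fun y => ?_
      obtain ⟨w', u', rfl⟩ := dec hc y
      have h3 := hx (u' : V)
      rw [map_add, LinearMap.add_apply, bb_wu, bb_uu, add_zero] at h3
      rw [map_add, hi _ w.2 _ w'.2, h3, add_zero]
    have hu : (u : V) = 0 := by
      refine hU0 _ u.2 fun w' hw' => ?_
      have h3 := hx w'
      rw [map_add, LinearMap.add_apply] at h3
      have h4 := bb_ww (B := B) hc w ⟨w', hw'⟩
      have h5 := bb_uw (B := B) hc ⟨w', hw'⟩ u
      rw [h4, zero_add, h5] at h3
      rw [hB.symm]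
      exact h3
    rw [hw, hu, add_zero]

theorem hasData_alt (hκ : ∀ g, κ (κ g) = g) (hB : TwForm κ ρ B) {W U : Submodule k V}
    (hW : Stab ρ W) (hU : Stab ρ U) (hc : IsCompl W U) (hi : ∀ x ∈ W, ∀ y ∈ W, B x y = 0)
    (hU0 : ∀ u ∈ U, (∀ w ∈ W, B w u = 0) → u = 0) {h : LinearMap.BilinForm k W}
    (ha : ∀ x, h x x = 0) (hn : ∀ x, (∀ y, h x y = 0) → x = 0)
    (hh : ∀ g x y, h (sub ρ W hW g x) (sub ρ W hW g y) = h x y) : HasData κ ρ B := by
  have hleft : ∀ w ∈ W, (∀ u ∈ U, B w u = 0) → w = 0 := by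
    intro w hw h1
    refine hB.nondeg w fun y => ?_
    obtain ⟨w', u', rfl⟩ := dec hc y
    rw [map_add, hi _ hw _ w'.2, h1 _ u'.2, add_zero]
  have hskew : ∀ x y, h x y = - h y x := by
    intro x y
    have h1 := ha (x + y)
    rw [map_add, map_add, LinearMap.add_apply, LinearMap.add_apply, ha, ha, zero_add, add_zero] at h1
    have h2 : h x y + h y x = 0 := by
      rw [← h1]
      abel
    exact eq_neg_of_add_eq_zero_left h2
  let β : U →ₗ[k] Dual k W := LinearMap.mk₂ k (fun (u : U) (w : W) => B (w : V) (u : V))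
    (fun a b c => by rw [Submodule.coe_add, map_add])
    (fun c a b => by rw [Submodule.coe_smul, map_smul])
    (fun a b c => by rw [Submodule.coe_add, map_add, LinearMap.add_apply])
    (fun c a b => by rw [Submodule.coe_smul, map_smul, LinearMap.smul_apply])
  let β' : W →ₗ[k] Dual k U := LinearMap.mk₂ k (fun (w : W) (u : U) => B (w : V) (u : V))
    (fun a b c => by rw [Submodule.coe_add, map_add, LinearMap.add_apply])
    (fun c a b => by rw [Submodule.coe_smul, map_smul, LinearMap.smul_apply])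
    (fun a b c => by rw [Submodule.coe_add, map_add])
    (fun c a b => by rw [Submodule.coe_smul, map_smul])
  have hβ : Function.Injective β := by
    rw [← LinearMap.ker_eq_bot, LinearMap.ker_eq_bot']
    intro u hu
    exact Subtype.ext (hU0 u u.2 fun w hw => LinearMap.congr_fun hu ⟨w, hw⟩)
  have hβ' : Function.Injective β' := by
    rw [← LinearMap.ker_eq_bot, LinearMap.ker_eq_bot']
    intro w hw
    exact Subtype.ext (hleft w w.2 fun u hu => LinearMap.congr_fun hw ⟨u, hu⟩)
  have hd1 : finrank k U ≤ finrank k W := by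
    have h1 := LinearMap.finrank_le_finrank_of_injective hβ
    rwa [Subspace.dual_finrank_eq] at h1
  have hd2 : finrank k W ≤ finrank k U := by
    have h1 := LinearMap.finrank_le_finrank_of_injective hβ'
    rwa [Subspace.dual_finrank_eq] at h1
  have hη : Function.Injective (LinearMap.flip h) := by
    rw [← LinearMap.ker_eq_bot, LinearMap.ker_eq_bot']
    intro w hw
    refine hn w fun y => ?_
    rw [hskew]
    have h1 : h y w = 0 := LinearMap.congr_fun hw y
    rw [h1, neg_zero]
  let βe : U ≃ₗ[k] Dual k W := LinearEquiv.ofInjectiveOfFinrankEq β hβ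
    (by rw [Subspace.dual_finrank_eq]; exact le_antisymm hd1 hd2)
  let ηe : W ≃ₗ[k] Dual k W := LinearEquiv.ofInjectiveOfFinrankEq (LinearMap.flip h) hη
    (by rw [Subspace.dual_finrank_eq])
  let θ : W ≃ₗ[k] U := ηe.trans βe.symm
  have hθ : ∀ w' w : W, B (w' : V) (θ w : V) = h w' w := by
    intro w' w
    have h1 : βe (θ w) = ηe w := by
      show βe (βe.symm (ηe w)) = ηe w
      rw [LinearEquiv.apply_symm_apply]
    have h2 : β (θ w) w' = (LinearMap.flip h) w w' := LinearMap.congr_fun h1 w'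
    exact h2
  have hθρ : ∀ g w, θ (sub ρ W hW (κ g) w) = sub ρ U hU g (θ w) := by
    intro g w
    apply hβ
    refine LinearMap.ext fun w' => ?_
    show B (w' : V) (θ (sub ρ W hW (κ g) w) : V) = B (w' : V) (ρ g (θ w : V))
    rw [hθ]
    have h1 : sub ρ W hW (κ g) (sub ρ W hW (κ g)⁻¹ w') = w' := by
      rw [← Module.End.mul_apply, ← map_mul, mul_inv_cancel, map_one, Module.End.one_apply]
    have h2 : (w' : V) = ρ (κ g) (sub ρ W hW (κ g)⁻¹ w' : V) := congrArg Subtype.val h1.symm
    have h3 := hB.dual (κ g) (sub ρ W hW (κ g)⁻¹ w' : V) (θ w : V)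
    rw [hκ] at h3
    rw [h2, h3, hθ, ← hh (κ g) (sub ρ W hW (κ g)⁻¹ w') w, h1]
  refine hasData_aux hB hW hU hc hi hU0 (C := swp hc θ) (swp_swp hc θ)
    (swp_rho hκ hc hW hU θ hθρ) fun x => ?_
  obtain ⟨w, u, rfl⟩ := dec hc x
  rw [swp_apply, bb_apply, hθ, ha, zero_add, hB.symm]
  obtain ⟨v, rfl⟩ := θ.surjective u
  rw [LinearEquiv.symm_apply_apply, hθ, ha]

end Pool.Agent.Work.MP_787500_nt.RB
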