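import Mathlib
import Pool.Agent.Work.MP_787500_nt.RB.Basic
import Pool.Agent.Work.MP_787500_nt.RB.Schur

/-!
# RB/PcC (size M, ANYBODY): the anisotropic pieces

* `hasData_C`: all weights 0, `B' = B`, basis `Module.finBasis k V` (index type `Fin _`).
* `hasData_irr`: `φ` with `φ (ρ (κ g) x) = ρ g (φ x)`; `φ ∘ φ` commutes with `ρ` (use `κ (κ g) = g`), so it is a scalar `c ≠ 0`
  (`schur_scalar`); `C = d⁻¹ φ` with `d * d = c`. `h x y = B x (C y)` satisfies `h (ρ g x) (ρ g y) = B (ρ g x) (ρ (κ g) (C y)) = h x y`, so it is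
  alternating by `fong`.
* `hasData_pair`: `B (ψ x) (ψ y)` and `B x y` on `S` are both invariant for `(ρ g, ρ (κ g))` (for the first: `ψ (ρ g x) = ρ (κ g) (ψ x)`,
  `dual` for `κ g`, `κ (κ g) = g`), and `B x y` is nonzero on `S` (nondegenerate because `V = S ⊕ S'` is orthogonal), so
  `B (ψ x) (ψ y) = c B x y` (`pair_unique` with `ρ' = (sub ρ S).comp κ`, `irr_comp`), `c ≠ 0`. Replace `ψ` by `d⁻¹ ψ`, `d * d = c`: `c = 1`.
  `C (x + ψ y) = y + ψ x`. `B (x + ψ y) (y + ψ x) = B x y + B (ψ y) (ψ x) = 0` (characteristic 2, `S` and `S'` orthogonal).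
-/

set_option autoImplicit false
set_option linter.unusedSectionVars false

namespace Pool.Agent.Work.MP_787500_nt.RB

open Matrix Module

variable {G : Type*} [Group G] {k : Type*} [Field k] {V : Type*} [AddCommGroup V]
  [Module k V] [FiniteDimensional k V] {κ : G →* G} {ρ : Representation k G V}
  {B : LinearMap.BilinForm k V}

private theorem dec {W U : Submodule k V} (hc : IsCompl W U) (x : V) :
    ∃ (w : W) (u : U), x = (w : V) + u := by
  obtain ⟨⟨w, u⟩, rfl⟩ := (W.prodEquivOfIsCompl U hc).surjective x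
  exact ⟨w, u, rfl⟩

/-- exchange of the two summands -/
private noncomputable def swp {W U : Submodule k V} (hc : IsCompl W U) (θ : W ≃ₗ[k] U) : V →ₗ[k] V :=
  (W.prodEquivOfIsCompl U hc).toLinearMap ∘ₗ
    (LinearMap.prod (θ.symm.toLinearMap ∘ₗ LinearMap.snd k W U)
      (θ.toLinearMap ∘ₗ LinearMap.fst k W U)) ∘ₗ (W.prodEquivOfIsCompl U hc).symm.toLinearMap

private theorem swp_apply {W U : Submodule k V} (hc : IsCompl W U) (θ : W ≃ₗ[k] U) (w : W) (u : U) :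
    swp hc θ ((w : V) + u) = (θ.symm u : V) + (θ w : V) := by
  have h1 : (W.prodEquivOfIsCompl U hc).symm ((w : V) + u) = (w, u) :=
    (LinearEquiv.symm_apply_eq _).2 rfl
  show (W.prodEquivOfIsCompl U hc) (θ.symm ((W.prodEquivOfIsCompl U hc).symm ((w : V) + u)).2,
    θ ((W.prodEquivOfIsCompl U hc).symm ((w : V) + u)).1) = _
  rw [h1]
  rfl

private theorem swp_swp {W U : Submodule k V} (hc : IsCompl W U) (θ : W ≃ₗ[k] U) (x : V) :
    swp hc θ (swp hc θ x) = x := by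
  obtain ⟨w, u, rfl⟩ := dec hc x
  rw [swp_apply, swp_apply, LinearEquiv.symm_apply_apply, LinearEquiv.apply_symm_apply]

private theorem swp_rho (hκ : ∀ g, κ (κ g) = g) {W U : Submodule k V} (hc : IsCompl W U)
    (hW : Stab ρ W) (hU : Stab ρ U) (θ : W ≃ₗ[k] U)
    (hθ : ∀ g w, θ (sub ρ W hW (κ g) w) = sub ρ U hU g (θ w)) (g : G) (x : V) :
    swp hc θ (ρ (κ g) x) = ρ g (swp hc θ x) := by
  obtain ⟨w, u, rfl⟩ := dec hc x
  have h1 : ρ (κ g) ((w : V) + u) = (sub ρ W hW (κ g) w : V) + (sub ρ U hU (κ g) u : V) := by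
    rw [map_add]
    rfl
  have h2 : θ.symm (sub ρ U hU (κ g) u) = sub ρ W hW g (θ.symm u) := by
    rw [LinearEquiv.symm_apply_eq]
    have h3 := hθ (κ g) (θ.symm u)
    rw [hκ, LinearEquiv.apply_symm_apply] at h3
    exact h3.symm
  rw [h1, swp_apply, swp_apply, h2, hθ, map_add]
  rfl

theorem hasData_C (hB : TwForm κ ρ B) {C : V →ₗ[k] V} (h2 : ∀ x, C (C x) = x)
    (hC : ∀ g x, C (ρ (κ g) x) = ρ g (C x)) (ha : ∀ x, B x (C x) = 0) : HasData κ ρ B := by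
  classical
  exact ⟨Fin (finrank k V), inferInstance, finBasis k V, fun _ => 0, B, C,
    fun g i j h => absurd rfl h, fun i j h => absurd h (by norm_num), fun i j => by norm_num,
    hB.nondeg, h2, hC, ha⟩

variable [IsAlgClosed k] [CharP k 2]

theorem hasData_irr (hκ : ∀ g, κ (κ g) = g) (hB : TwForm κ ρ B) (h : Irr ρ) (ht : ¬ TrivA ρ)
    (he : Eqv (ρ.comp κ) ρ) : HasData κ ρ B := by
  obtain ⟨φ, hφ⟩ := he
  have h1 : ∀ g x, φ (ρ (κ g) x) = ρ g (φ x) := hφ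
  obtain ⟨c, hc⟩ := schur_scalar h (f := φ.toLinearMap ∘ₗ φ.toLinearMap) (by
    intro g x
    show φ (φ (ρ g x)) = ρ g (φ (φ x))
    have h2 := h1 (κ g) x
    rw [hκ] at h2
    rw [h2, h1])
  have hc' : ∀ x, φ (φ x) = c • x := hc
  have hc0 : c ≠ 0 := by
    rintro rfl
    obtain ⟨x, hx⟩ := h.1
    apply hx
    have h2 := hc' x
    rw [zero_smul] at h2
    exact φ.map_eq_zero_iff.1 (φ.map_eq_zero_iff.1 h2)
  obtain ⟨d, hd⟩ := exists_sqrt c
  have hd0 : d ≠ 0 := by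
    rintro rfl
    rw [zero_mul] at hd
    exact hc0 hd.symm
  let C : V →ₗ[k] V := d⁻¹ • φ.toLinearMap
  have hC : ∀ x, C x = d⁻¹ • φ x := fun _ => rfl
  have hCρ : ∀ g x, C (ρ (κ g) x) = ρ g (C x) := by
    intro g x
    rw [hC, hC, h1, map_smul]
  refine hasData_C hB (C := C) (fun x => ?_) hCρ fun x => ?_
  · rw [hC, hC, map_smul, hc', smul_smul, smul_smul, ← hd]
    have h2 : d⁻¹ * (d⁻¹ * (d * d)) = 1 := by
      field_simp
    rw [← mul_assoc] at h2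
    rw [show d⁻¹ * d⁻¹ * (d * d) = 1 from h2, one_smul]
  · have h3 := fong h (B := LinearMap.compl₂ B C) (fun g x y => ?_) ht x
    · exact h3
    · show B (ρ g x) (C (ρ g y)) = B x (C y)
      have h4 := hCρ (κ g) y
      rw [hκ] at h4
      rw [h4, hB.dual]

theorem hasData_pair (hκ : ∀ g, κ (κ g) = g) (hB : TwForm κ ρ B) {S S' : Submodule k V}
    (hS : IrrS ρ S) (hS' : IrrS ρ S') (hc : IsCompl S S') (ho : ∀ x ∈ S, ∀ y ∈ S', B x y = 0)
    (he : Eqv ((sub ρ S hS.1).comp κ) (sub ρ S' hS'.1)) : HasData κ ρ B := by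
  obtain ⟨ψ, hψ0⟩ := he
  have hψ : ∀ g x, ψ (sub ρ S hS.1 (κ g) x) = sub ρ S' hS'.1 g (ψ x) := hψ0
  have hψ' : ∀ g x, ψ (sub ρ S hS.1 g x) = sub ρ S' hS'.1 (κ g) (ψ x) := by
    intro g x
    have h1 := hψ (κ g) x
    rwa [hκ] at h1
  let b1 : S →ₗ[k] S →ₗ[k] k := B.compl₁₂ S.subtype S.subtype
  let b2 : S →ₗ[k] S →ₗ[k] k :=
    B.compl₁₂ (S'.subtype ∘ₗ ψ.toLinearMap) (S'.subtype ∘ₗ ψ.toLinearMap)
  have e1 : ∀ x y : S, b1 x y = B (x : V) (y : V) := fun _ _ => rfl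
  have e2 : ∀ x y : S, b2 x y = B (ψ x : V) (ψ y : V) := fun _ _ => rfl
  have hb1 : b1 ≠ 0 := by
    intro h0
    obtain ⟨x, hx, hx0⟩ := (Submodule.ne_bot_iff S).1 hS.2.1
    refine hx0 (hB.nondeg x fun y => ?_)
    obtain ⟨w, u, rfl⟩ := dec hc y
    have h1 : b1 ⟨x, hx⟩ w = 0 := by rw [h0]; rfl
    rw [e1] at h1
    rw [map_add, h1, ho _ hx _ u.2, add_zero]
  have hb2 : b2 ≠ 0 := by
    intro h0
    obtain ⟨x, hx, hx0⟩ := (Submodule.ne_bot_iff S').1 hS'.2.1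
    obtain ⟨z, hz⟩ := ψ.surjective ⟨x, hx⟩
    refine hx0 (hB.nondeg x fun y => ?_)
    obtain ⟨w, u, rfl⟩ := dec hc y
    obtain ⟨v, rfl⟩ := ψ.surjective u
    have h1 : b2 z v = 0 := by rw [h0]; rfl
    rw [e2, hz] at h1
    rw [map_add, h1, hB.symm, ho _ w.2 _ hx, add_zero]
  obtain ⟨c, hc1⟩ := pair_unique (irr_sub hS) (irr_comp hκ (irr_sub hS)) (B := b1) (B₂ := b2)
    (fun g x y => by
      rw [e1, e1]
      exact hB.dual g x y)
    (fun g x y => by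
      rw [e2, e2]
      show B (ψ (sub ρ S hS.1 g x) : V) (ψ (sub ρ S hS.1 (κ g) y) : V) = _
      rw [hψ, hψ']
      have h1 := hB.dual (κ g) (ψ x : V) (ψ y : V)
      rw [hκ] at h1
      exact h1) hb1
  have hc0 : c ≠ 0 := by
    rintro rfl
    apply hb2
    refine LinearMap.ext fun x => LinearMap.ext fun y => ?_
    rw [hc1, zero_mul]
    rfl
  obtain ⟨d, hd⟩ := exists_sqrt c
  have hd0 : d ≠ 0 := by
    rintro rfl
    rw [zero_mul] at hd
    exact hc0 hd.symm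
  let θ : S ≃ₗ[k] S' := ψ.trans (LinearEquiv.smulOfNeZero k S' d⁻¹ (inv_ne_zero hd0))
  have hθ : ∀ x, (θ x : S') = d⁻¹ • ψ x := fun _ => rfl
  have hθρ : ∀ g w, θ (sub ρ S hS.1 (κ g) w) = sub ρ S' hS'.1 g (θ w) := by
    intro g w
    rw [hθ, hθ, hψ, map_smul]
  have hθB : ∀ x y, B (θ x : V) (θ y : V) = B (x : V) (y : V) := by
    intro x y
    have h1 := hc1 x y
    rw [e1, e2] at h1
    rw [hθ, hθ, Submodule.coe_smul, Submodule.coe_smul, map_smul, map_smul, LinearMap.smul_apply,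
      h1, ← hd, smul_eq_mul, smul_eq_mul]
    field_simp
  refine hasData_C hB (C := swp hc θ) (swp_swp hc θ) (swp_rho hκ hc hS.1 hS'.1 θ hθρ) fun x => ?_
  obtain ⟨w, u, rfl⟩ := dec hc x
  obtain ⟨v, rfl⟩ := θ.surjective u
  rw [swp_apply, LinearEquiv.symm_apply_apply, map_add, map_add, LinearMap.add_apply,
    LinearMap.add_apply, hθB, ho _ w.2 _ (θ w).2, hB.symm (θ v : V) (v : V), ho _ v.2 _ (θ v).2,
    hB.symm (v : V) (w : V), add_zero, zero_add]
  exact CharTwo.add_self_eq_zero _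

end Pool.Agent.Work.MP_787500_nt.RB
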