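import Mathlib
import Pool.Agent.Work.MP_787500_nt.RB.Res
import Pool.Agent.Work.MP_787500_nt.QG.RDefs

/-!
# RB/ToRes (size S-M): a good basis with `C` gives a residually symplectic representation (MATRICES ONLY)

`L = {x | ∀ i, ‖(A' *ᵥ x) i‖ ≤ 1}`, `C' = A * C * A'`. `F = Aᵀ * b * A`, `x ⬝ᵥ (b *ᵥ y) = (A' x) ⬝ᵥ (F *ᵥ (A' y))`. `F' = (det F)⁻¹ • adjugate F` is
integral, `F * F' = 1`.
* dual: if `A' x`, `A' y` are integral the value is integral; conversely take `y = A *ᵥ (F' *ᵥ Pi.single i 1) ∈ L`: the value is `(A' x) i`.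
* bounded: `x = A *ᵥ (A' *ᵥ x)`. Stable: `A' (ρ g x) = (A' ρ g A) (A' x)`, `A' (C' x) = C (A' x)`.
* alternating: `x ⬝ᵥ (b *ᵥ (C' *ᵥ x)) = z ⬝ᵥ ((F * C) *ᵥ z)`, `z = A' x`, `(F C)ᵀ = - F C`, so it equals its negative; characteristic 0.
* `IsSmallIn L v` if all entries of `A' v` have norm `< 1`: if `A' v = 0` take `a = 0`; otherwise let `a` be an entry of `A' v` of maximal norm (`< 1`,
  not 0) and `y = a⁻¹ • v`. The entries of `A' (C' (C' x) - x) = (C * C - 1) (A' x)` have norm `< 1` (finite sum of products, ultrametric), same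
  for `com`.
-/

set_option autoImplicit false
set_option linter.unusedSectionVars false

namespace Pool.Agent.Work.MP_787500_nt.RB

open Matrix Module

section aux

variable {E : Type*} [NormedField E] [NormedAlgebra ℚ_[2] E] {n : ℕ}

private theorem norm_sum_lt {ι : Type*} (s : Finset ι) (f : ι → E) (h : ∀ i ∈ s, ‖f i‖ < 1) :
    ‖∑ i ∈ s, f i‖ < 1 := by
  classical
  have hu := Gn.ultra 2 E
  induction s using Finset.induction_on with
  | empty => simp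
  | insert a s ha ih =>
    rw [Finset.sum_insert ha]
    exact (IsUltrametricDist.norm_add_le_max _ _).trans_lt
      (max_lt (h a (Finset.mem_insert_self a s)) (ih fun i hi => h i (Finset.mem_insert_of_mem hi)))

private theorem norm_prod_le {ι : Type*} (s : Finset ι) (f : ι → E) (h : ∀ i ∈ s, ‖f i‖ ≤ 1) :
    ‖∏ i ∈ s, f i‖ ≤ 1 := by
  classical
  induction s using Finset.induction_on with
  | empty => simp
  | insert a s ha ih =>
    rw [Finset.prod_insert ha, norm_mul]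
    exact mul_le_one₀ (h a (Finset.mem_insert_self a s)) (norm_nonneg _)
      (ih fun i hi => h i (Finset.mem_insert_of_mem hi))

private theorem norm_det_le {M : Matrix (Fin n) (Fin n) E} (hM : ∀ i j, ‖M i j‖ ≤ 1) :
    ‖M.det‖ ≤ 1 := by
  rw [Matrix.det_apply]
  refine norm_sum_le _ _ fun σ _ => ?_
  have h1 : ‖∏ i, M (σ i) i‖ ≤ 1 := norm_prod_le _ _ fun i _ => hM _ _
  rcases Int.units_eq_one_or (Equiv.Perm.sign σ) with h2 | h2
  · rw [h2, one_smul]
    exact h1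
  · rw [h2, Units.neg_smul, one_smul, norm_neg]
    exact h1

private theorem norm_adj_le {M : Matrix (Fin n) (Fin n) E} (hM : ∀ i j, ‖M i j‖ ≤ 1) (i j : Fin n) :
    ‖M.adjugate i j‖ ≤ 1 := by
  rw [Matrix.adjugate_apply]
  refine norm_det_le fun k l => ?_
  rw [Matrix.updateRow_apply]
  split_ifs
  · rw [Pi.single_apply]
    split_ifs <;> simp
  · exact hM k l

private theorem norm_mulVec_le {M : Matrix (Fin n) (Fin n) E} (hM : ∀ i j, ‖M i j‖ ≤ 1)
    {z : Fin n → E} (hz : ∀ i, ‖z i‖ ≤ 1) (i : Fin n) : ‖(M *ᵥ z) i‖ ≤ 1 := by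
  rw [Matrix.mulVec, dotProduct]
  refine norm_sum_le _ _ fun j _ => ?_
  rw [norm_mul]
  exact mul_le_one₀ (hM i j) (norm_nonneg _) (hz j)

private theorem norm_mulVec_lt {M : Matrix (Fin n) (Fin n) E} (hM : ∀ i j, ‖M i j‖ < 1)
    {z : Fin n → E} (hz : ∀ i, ‖z i‖ ≤ 1) (i : Fin n) : ‖(M *ᵥ z) i‖ < 1 := by
  rw [Matrix.mulVec, dotProduct]
  refine norm_sum_lt _ _ fun j _ => ?_
  rw [norm_mul]
  exact mul_lt_one_of_nonneg_of_lt_one_left (norm_nonneg _) (hM i j) (hz j)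

end aux

theorem resSympl_of {G : Type*} [Group G] {κ : G →* G} {E : Type*} [NormedField E]
    [NormedAlgebra ℚ_[2] E] {n : ℕ} {ρ : G →* Matrix (Fin n) (Fin n) E}
    {b A A' C : Matrix (Fin n) (Fin n) E} (h : GoodC κ (fun g => ρ g) b A A' C) :
    Parity.ResSympl κ ρ b := by
  have hchar : CharZero E := charZero_of_injective_algebraMap (algebraMap ℚ_[2] E).injective
  set F := Aᵀ * b * A with hF
  have hdet : F.det ≠ 0 := by
    intro h0
    have h1 := h.good.det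
    rw [← hF, h0, norm_zero] at h1
    exact zero_ne_one h1
  have hdn : ‖F.det‖ = 1 := h.good.det
  have hFi : ∀ i j, ‖F i j‖ ≤ 1 := h.good.un
  have AA : ∀ x : Fin n → E, A *ᵥ (A' *ᵥ x) = x := fun x => by
    rw [Matrix.mulVec_mulVec, h.good.inv, Matrix.one_mulVec]
  have AA' : ∀ x : Fin n → E, A' *ᵥ (A *ᵥ x) = x := fun x => by
    rw [Matrix.mulVec_mulVec, h.good.inv', Matrix.one_mulVec]
  have val : ∀ x y : Fin n → E, x ⬝ᵥ (b *ᵥ y) = (A' *ᵥ x) ⬝ᵥ (F *ᵥ (A' *ᵥ y)) := by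
    intro x y
    rw [hF, ← Matrix.mulVec_mulVec, ← Matrix.mulVec_mulVec, AA, Matrix.dotProduct_mulVec (A' *ᵥ x),
      Matrix.vecMul_transpose, AA]
  have cv : ∀ x : Fin n → E, A' *ᵥ ((A * C * A') *ᵥ x) = C *ᵥ (A' *ᵥ x) := by
    intro x
    rw [← Matrix.mulVec_mulVec, ← Matrix.mulVec_mulVec, AA']
  have rv : ∀ (g : G) (x : Fin n → E), A' *ᵥ (ρ g *ᵥ x) = (A' * ρ g * A) *ᵥ (A' *ᵥ x) := by
    intro g x
    rw [← Matrix.mulVec_mulVec, ← Matrix.mulVec_mulVec, AA]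
  have small : ∀ v : Fin n → E, (∀ i, ‖(A' *ᵥ v) i‖ < 1) →
      Parity.IsSmallIn {x | ∀ i, ‖(A' *ᵥ x) i‖ ≤ 1} v := by
    intro v hv
    by_cases h0 : A' *ᵥ v = 0
    · refine ⟨0, by simp, 0, ?_, ?_⟩
      · intro i
        rw [Matrix.mulVec_zero, Pi.zero_apply, norm_zero]
        exact zero_le_one
      · rw [smul_zero, ← AA v, h0, Matrix.mulVec_zero]
    · obtain ⟨j, hj⟩ := Function.ne_iff.1 h0
      have : Nonempty (Fin n) := ⟨j⟩
      obtain ⟨i0, hi0⟩ := Finite.exists_max (fun i => ‖(A' *ᵥ v) i‖)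
      have ha : (A' *ᵥ v) i0 ≠ 0 := by
        intro h1
        have h2 := hi0 j
        simp only [h1, norm_zero] at h2
        exact hj (norm_le_zero_iff.1 h2)
      refine ⟨(A' *ᵥ v) i0, hv i0, ((A' *ᵥ v) i0)⁻¹ • v, ?_, ?_⟩
      · intro i
        rw [Matrix.mulVec_smul, Pi.smul_apply, norm_smul, norm_inv]
        rw [inv_mul_le_one₀ (norm_pos_iff.2 ha)]
        exact hi0 i
      · rw [smul_smul, mul_inv_cancel₀ ha, one_smul]
  refine ⟨{x | ∀ i, ‖(A' *ᵥ x) i‖ ≤ 1}, A * C * A', ?_, ?_, ?_, ?_, ?_, ?_, ?_⟩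
  · intro x
    constructor
    · intro hx y hy
      rw [val, dotProduct]
      refine norm_sum_le _ _ fun i _ => ?_
      rw [norm_mul]
      exact mul_le_one₀ (hx i) (norm_nonneg _) (norm_mulVec_le hFi hy i)
    · intro hx i
      have hF' : F * (F.det⁻¹ • F.adjugate) = 1 := by
        rw [Matrix.mul_smul, Matrix.mul_adjugate, smul_smul, inv_mul_cancel₀ hdet, one_smul]
      have hF'i : ∀ i j, ‖(F.det⁻¹ • F.adjugate) i j‖ ≤ 1 := by
        intro i j
        rw [Matrix.smul_apply, norm_smul, norm_inv, hdn, inv_one, one_mul]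
        exact norm_adj_le hFi i j
      have h1 := hx (A *ᵥ ((F.det⁻¹ • F.adjugate) *ᵥ Pi.single i 1)) (by
        intro k
        rw [AA']
        refine norm_mulVec_le hF'i (fun l => ?_) k
        rw [Pi.single_apply]
        split_ifs <;> simp)
      rw [val, AA', Matrix.mulVec_mulVec, hF', Matrix.one_mulVec, dotProduct_single, mul_one] at h1
      exact h1
  · refine ⟨∑ i, ∑ j, ‖A i j‖, fun x hx => ?_⟩
    refine (pi_norm_le_iff_of_nonneg (Finset.sum_nonneg fun i _ => Finset.sum_nonneg fun j _ =>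
      norm_nonneg _)).2 fun i => ?_
    have h2 : x i = (A *ᵥ (A' *ᵥ x)) i := by rw [AA]
    rw [h2, Matrix.mulVec, dotProduct]
    calc ‖∑ j, A i j * (A' *ᵥ x) j‖ ≤ ∑ j, ‖A i j * (A' *ᵥ x) j‖ := norm_sum_le_of_le _ fun j _ => le_rfl
      _ ≤ ∑ j, ‖A i j‖ := Finset.sum_le_sum fun j _ => by
          rw [norm_mul]
          exact mul_le_of_le_one_right (norm_nonneg _) (hx j)
      _ ≤ ∑ i, ∑ j, ‖A i j‖ := Finset.single_le_sum (f := fun i => ∑ j, ‖A i j‖)
          (fun i _ => Finset.sum_nonneg fun j _ => norm_nonneg _) (Finset.mem_univ i)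
  · intro g x hx i
    rw [rv]
    exact norm_mulVec_le (h.good.st g) hx i
  · intro x hx i
    rw [cv]
    exact norm_mulVec_le h.int hx i
  · intro x
    have h1 : x ⬝ᵥ (b *ᵥ ((A * C * A') *ᵥ x)) = (A' *ᵥ x) ⬝ᵥ ((F * C) *ᵥ (A' *ᵥ x)) := by
      rw [val, cv, Matrix.mulVec_mulVec]
    rw [h1]
    have h2 : (A' *ᵥ x) ⬝ᵥ ((F * C) *ᵥ (A' *ᵥ x)) = - ((A' *ᵥ x) ⬝ᵥ ((F * C) *ᵥ (A' *ᵥ x))) := by
      conv_lhs => rw [Matrix.dotProduct_mulVec, ← Matrix.mulVec_transpose, h.alt]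
      rw [Matrix.neg_mulVec, neg_dotProduct, dotProduct_comm]
    exact self_eq_neg.1 h2
  · intro x hx
    refine small _ fun i => ?_
    have h1 : A' *ᵥ ((A * C * A') *ᵥ ((A * C * A') *ᵥ x) - x) = (C * C - 1) *ᵥ (A' *ᵥ x) := by
      rw [Matrix.mulVec_sub, cv, cv, Matrix.sub_mulVec, Matrix.one_mulVec, Matrix.mulVec_mulVec]
    rw [h1]
    exact norm_mulVec_lt h.sq hx i
  · intro g x hx
    refine small _ fun i => ?_
    have h1 : A' *ᵥ ((A * C * A') *ᵥ (ρ (κ g) *ᵥ x) - ρ g *ᵥ ((A * C * A') *ᵥ x)) =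
        (C * (A' * ρ (κ g) * A) - (A' * ρ g * A) * C) *ᵥ (A' *ᵥ x) := by
      rw [Matrix.mulVec_sub, cv, rv, rv, cv, Matrix.sub_mulVec,
        ← Matrix.mulVec_mulVec (A' *ᵥ x) C, ← Matrix.mulVec_mulVec (A' *ᵥ x) (A' * ρ g * A) C]
    rw [h1]
    exact norm_mulVec_lt (h.com g) hx i

end Pool.Agent.Work.MP_787500_nt.RB
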