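import Mathlib
import Pool.Agent.Work.MP_787500_nt.RB.FDefs
import Pool.Agent.Work.MP_787500_nt.RB.St1
import Pool.Agent.Work.MP_787500_nt.RB.St2
import Pool.Agent.Work.MP_787500_nt.RB.OfData
import Pool.Agent.Work.MP_787500_nt.RB.LiftC
import Pool.Agent.Work.MP_787500_nt.RB.Down
import Pool.Agent.Work.MP_787500_nt.RB.ToRes
import Pool.Agent.Work.MP_787500_nt.RB.Good0

/-!
# RB/Main (assembly): a residually self-dual representation of even dimension is residually symplectic over a finite extension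
-/

set_option autoImplicit false
set_option linter.unusedSectionVars false

namespace Pool.Agent.Work.MP_787500_nt.RB

open Matrix Module
open Pool.Agent.Work.MP_787500_nt.PA (toE)
open Pool.Agent.Work.MP_787500_nt.LX (mapRep mapRep_apply map_toE)
open Pool.Agent.Work.MP_787500_nt.GP (bil OE)

universe v

section red

variable {Ω : Type*} [NormedField Ω] [NormedAlgebra ℚ_[2] Ω] {k : Type*} [Field k] {rd : Ω → k}

/-- the reduction as a ring homomorphism -/
noncomputable def rdO (hr : Red rd) : OE Ω →+* k where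
  toFun x := rd x
  map_one' := hr.one
  map_mul' x y := hr.mul x y x.2 y.2
  map_zero' := hr.map_zero
  map_add' x y := hr.add x y x.2 y.2

theorem red_charpoly (hr : Red rd) {n : ℕ} {M : Matrix (Fin n) (Fin n) Ω} (hM : Int M) (i : ℕ) :
    (M.map rd).charpoly.coeff i = rd (M.charpoly.coeff i) ∧ ‖M.charpoly.coeff i‖ ≤ 1 := by
  let M₀ : Matrix (Fin n) (Fin n) (OE Ω) := fun i j => ⟨M i j, hM i j⟩
  have h1 : M = M₀.map (OE Ω).subtype := by
    ext i j
    rfl
  have h2 : M.map rd = M₀.map (rdO hr) := by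
    ext i j
    rfl
  have h3 : M.charpoly.coeff i = (M₀.charpoly.coeff i : Ω) := by
    rw [h1, Matrix.charpoly_map, Polynomial.coeff_map]
    rfl
  rw [h2, Matrix.charpoly_map, Polynomial.coeff_map, h3]
  exact ⟨rfl, (M₀.charpoly.coeff i).2⟩

theorem rd_eq (hr : Red rd) {x y : Ω} (hx : ‖x‖ ≤ 1) (hy : ‖y‖ ≤ 1) (h : ‖x - y‖ < 1) :
    rd x = rd y := by
  have h1 := hr.add (x - y) y h.le hy
  rw [sub_add_cancel, (hr.zero _ h.le).2 h, zero_add] at h1
  exact h1

theorem charpoly_conj' {n : ℕ} {A A' M : Matrix (Fin n) (Fin n) Ω} (h : A * A' = 1) :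
    (A' * M * A).charpoly = M.charpoly := by
  rw [Matrix.mul_assoc, Matrix.charpoly_mul_comm, Matrix.mul_assoc, h, Matrix.mul_one]

theorem charpoly_pair (hr : Red rd) {G : Type*} [Group G] {n : ℕ}
    {ρ : G →* Matrix (Fin n) (Fin n) Ω} {b A A' : Matrix (Fin n) (Fin n) Ω}
    (h : Good (fun g => ρ g) b A A') {g g' : G}
    (hch : ∀ i, ‖(ρ g).charpoly.coeff i - (ρ g').charpoly.coeff i‖ < 1) :
    (resR hr h g).charpoly = (resR hr h g').charpoly := by
  ext i
  have h1 := red_charpoly hr (h.st g) i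
  have h2 := red_charpoly hr (h.st g') i
  rw [resR_apply, resR_apply, h1.1, h2.1]
  refine rd_eq hr h1.2 h2.2 ?_
  rw [charpoly_conj' h.inv, charpoly_conj' h.inv]
  exact hch i

end red

theorem exists_resSympl {G : Type*} [Group G] {S : KR.FSys G} {κ : G →* G}
    (hκ : ∀ g, κ (κ g) = g) {χ : G → ℤ_[2]} (hχ : ∀ g, (2 : ℤ_[2]) ∣ χ g - 1) {E : Type v}
    [NormedField E] [NormedAlgebra ℚ_[2] E] [FiniteDimensional ℚ_[2] E] {n : ℕ} (hn : Even n)
    {ρ : G →* Matrix (Fin n) (Fin n) E} (hρ : KR.SmallRep S (fun g => ρ g))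
    {b : Matrix (Fin n) (Fin n) E} (hb : b.det ≠ 0) (hbs : bᵀ = b)
    (hd : ∀ g, (ρ g)ᵀ * b * ρ (κ g) = toE E (χ g) • b) (hres : Parity.ResSelfDual ρ) :
    ∃ (E' : Type v) (_ : NormedField E') (_ : NormedAlgebra ℚ_[2] E')
      (_ : FiniteDimensional ℚ_[2] E') (ι : E →ₐ[ℚ_[2]] E'),
      Parity.ResSympl κ (mapRep ι ρ) (b.map ι) := by
  obtain ⟨Ω, i1, i2, ι, k, i3, rd, i4, i5, i6, i7, hr⟩ := exists_omega E
  have hfin : Algebra.IsAlgebraic ℚ_[2] E := Algebra.IsAlgebraic.of_finite ℚ_[2] E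
  have hnorm : ∀ x, ‖ι x‖ = ‖x‖ := norm_map_eq ι
  have hdb : ∀ g x y, bil b (ρ g *ᵥ x) (ρ (κ g) *ᵥ y) = toE E (χ g) * bil b x y := by
    intro g x y
    unfold bil
    rw [← vecMul_transpose, ← dotProduct_mulVec, mulVec_mulVec, mulVec_mulVec, hd, smul_mulVec,
      dotProduct_smul, smul_eq_mul]
  obtain ⟨A, A', hA⟩ := exists_good hρ hb hbs hdb ι
  have hA0 : Good (fun g => mapRep ι ρ g) (b.map ι) A A' := hA
  have hdisc : Disc (fun g => mapRep ι ρ g) := disc_of ι fun g => ρ g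
  have hbs' : (b.map ι)ᵀ = b.map ι := by
    conv_rhs => rw [← hbs]
    rfl
  have hmm : ∀ M N : Matrix (Fin n) (Fin n) E, (M * N).map ι = M.map ι * N.map ι := fun M N =>
    Matrix.map_mul
  have hd' : ∀ g, (mapRep ι ρ g)ᵀ * b.map ι * mapRep ι ρ (κ g) = toE Ω (χ g) • b.map ι := by
    intro g
    have e1 : (mapRep ι ρ g)ᵀ = (ρ g)ᵀ.map ι := rfl
    have e2 : mapRep ι ρ (κ g) = (ρ (κ g)).map ι := rfl
    rw [e1, e2, ← hmm, ← hmm, hd, ← map_toE ι]
    ext i j
    exact map_mul ι _ _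
  have hχ' : ∀ g, ‖toE Ω (χ g) - 1‖ < 1 := by
    intro g
    obtain ⟨x, hx⟩ := hχ g
    have h0 : ∀ y : ℤ_[2], toE Ω y = algebraMap ℚ_[2] Ω (y : ℚ_[2]) := fun y => rfl
    have h1 : toE Ω (χ g) - 1 = toE Ω 2 * toE Ω x := by
      have h2 : χ g = 1 + 2 * x := by rw [← hx]; ring
      rw [h0, h0, h0, ← map_mul, ← map_one (algebraMap ℚ_[2] Ω), ← map_sub, h2]
      congr 1
      push_cast
      ring
    have h2 : ∀ y : ℤ_[2], ‖toE Ω y‖ = ‖y‖ := fun y => by
      rw [h0, norm_algebraMap']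
      rfl
    rw [h1, norm_mul, h2, h2]
    have h3 : ‖(2 : ℤ_[2])‖ < 1 := by
      have := PadicInt.norm_p (p := 2)
      have h4 : ‖((2 : ℕ) : ℤ_[2])‖ = (2 : ℝ)⁻¹ := by exact_mod_cast this
      have h5 : ((2 : ℕ) : ℤ_[2]) = 2 := by norm_num
      rw [h5] at h4
      rw [h4]
      norm_num
    calc ‖(2 : ℤ_[2])‖ * ‖x‖ ≤ ‖(2 : ℤ_[2])‖ * 1 :=
          mul_le_mul_of_nonneg_left x.norm_le_one (norm_nonneg _)
      _ < 1 := by rwa [mul_one]
  obtain ⟨A₁, A₁', hA₁, hss⟩ := exists_ss (κ := κ) hκ hr hdisc hA0 hbs' hχ' hd'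
  have htw := twForm_res (κ := κ) hr hA₁ hbs' hχ' hd'
  -- characteristic polynomials
  have hsd : ∀ g i, ‖(mapRep ι ρ g⁻¹).charpoly.coeff i - (mapRep ι ρ g).charpoly.coeff i‖ < 1 := by
    intro g i
    have h1 : ∀ g, (mapRep ι ρ g).charpoly.coeff i = ι ((ρ g).charpoly.coeff i) := by
      intro g
      have h2 : mapRep ι ρ g = (ρ g).map (ι : E →+* Ω) := rfl
      rw [h2, Matrix.charpoly_map, Polynomial.coeff_map]
      rfl
    rw [h1, h1, ← map_sub, hnorm]
    exact hres g i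
  have hch : ∀ g, (resR hr hA₁ (κ g)).charpoly = (resR hr hA₁ g).charpoly := by
    intro g
    rw [← charpoly_pair hr hA₁ (g := g⁻¹) (g' := g) (hsd g)]
    -- `R (κ g)` is conjugate to the transpose of `R (g⁻¹)`
    set R := resR hr hA₁ with hR
    set F := (A₁ᵀ * b.map ι * A₁).map rd with hF
    have h1 : (R g)ᵀ * F * R (κ g) = F := by
      ext i j
      have h2 := htw.dual g (Pi.single i 1) (Pi.single j 1)
      rw [toRep_apply, toRep_apply, Matrix.toBilin'_apply', Matrix.toBilin'_apply'] at h2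
      rw [← vecMul_transpose, ← dotProduct_mulVec, mulVec_mulVec, mulVec_mulVec] at h2
      simpa [Matrix.mul_assoc] using h2
    have hFu : IsUnit F.det := by
      rw [isUnit_iff_ne_zero]
      intro h0
      obtain ⟨v, hv, hv0⟩ := Matrix.exists_mulVec_eq_zero_iff.2 h0
      refine hv (htw.nondeg v fun y => ?_)
      rw [htw.symm, Matrix.toBilin'_apply', hv0, dotProduct_zero]
    have h3 : (R g⁻¹)ᵀ * (R g)ᵀ = 1 := by
      rw [← Matrix.transpose_mul, ← map_mul, mul_inv_cancel, map_one, Matrix.transpose_one]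
    have h4 : F * R (κ g) = (R g⁻¹)ᵀ * F := by
      calc F * R (κ g) = ((R g⁻¹)ᵀ * (R g)ᵀ) * F * R (κ g) := by rw [h3, one_mul]
        _ = (R g⁻¹)ᵀ * ((R g)ᵀ * F * R (κ g)) := by noncomm_ring
        _ = _ := by rw [h1]
    have h5 : R (κ g) = F⁻¹ * ((R g⁻¹)ᵀ * F) := by
      rw [← h4, ← mul_assoc, Matrix.nonsing_inv_mul _ hFu, one_mul]
    rw [h5, Matrix.charpoly_mul_comm, mul_assoc, Matrix.mul_nonsing_inv _ hFu, mul_one,
      Matrix.charpoly_transpose]
  have hD : HasData κ (toRep (resR hr hA₁))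
      (Matrix.toBilin' ((A₁ᵀ * b.map ι * A₁).map rd)) := by
    refine hasData hκ htw hss ?_ fun g => ?_
    · rw [Module.finrank_fin_fun]
      exact hn
    · have h1 : ∀ g, LinearMap.charpoly (toRep (resR hr hA₁) g) = (resR hr hA₁ g).charpoly :=
        fun g => Matrix.charpoly_mulVecLin _
      rw [h1, h1, hch]
  obtain ⟨A₂, A₂', hA₂, C, hC2, hCc, hCa⟩ := exists_of_data hr hdisc hA₁ hD
  obtain ⟨C', hC'⟩ := exists_goodC hr hA₂ hC2 hCc hCa
  obtain ⟨E', j1, j2, j3, ι', B, B', C₁, hB⟩ := exists_down (κ := κ) (ρ := ρ) (b := b) ι hC'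
  exact ⟨E', j1, j2, j3, ι', resSympl_of hB⟩

end Pool.Agent.Work.MP_787500_nt.RB
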