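import Mathlib
import Pool.Agent.Work.MP_787500_nt.RB.Main
import Pool.Agent.Work.MP_787500_nt.RB.ExtPar
import Pool.Agent.Work.MP_787500_nt.RB.ExtLoc
import Pool.Agent.Work.MP_787500_nt.QG.Gen4
import Pool.Agent.Work.MP_787500_nt.QG.ResL
import Pool.Agent.Work.MP_787500_nt.QG.Final4

/-!
The parity theorem for Bloch-Kato Selmer groups of conjugate self-dual representations that are residually self-dual.
-/

set_option autoImplicit false
set_option linter.unusedSectionVars false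

namespace Pool.Agent.Work.MP_787500_nt.RB

open Matrix NumberField
open Pool.Agent.Work.MP_787500_nt.GP
open Pool.Agent.Work.MP_787500_nt.PA (cyc toE)
open Pool.Agent.Work.MP_787500_nt.LX (mapRep)
open Pool.Agent.Work.MP_787500_nt.HP (IsQ Spl)
open Pool.Agent.Work.MP_787500_nt.Parity (IsDualRep ResSelfDual CommOn SqMod SemistableOn quotDim)

universe u v

section gen

variable {K : Type u} [Field K] [NumberField K] {D : ℕ} {s : K}
  {c : AlgebraicClosure K ≃+* AlgebraicClosure K} {κ : AbsGal K →* AbsGal K}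

/-- over a finite extension a residually self-dual representation has a matrix `C` as in `SH.HasL` -/
theorem exists_hasL {T : Finset ℕ} (hκκ : ∀ g, κ (κ g) = g) {E : Type v} [NormedField E]
    [NormedAlgebra ℚ_[2] E] [FiniteDimensional ℚ_[2] E] {n : ℕ} (hn : Even n)
    {ρ : AbsGal K →* Matrix (Fin n) (Fin n) E} {b : Matrix (Fin n) (Fin n) E} (hb : b.det ≠ 0)
    (hρ : IsDualRep (inT K T) (Parity.cyclo E) κ ρ b) (hres : ResSelfDual ρ) :
    ∃ (E' : Type v) (_ : NormedField E') (_ : NormedAlgebra ℚ_[2] E')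
      (_ : FiniteDimensional ℚ_[2] E') (ι : E →ₐ[ℚ_[2]] E'),
      SH.HasL (fun _ => False) κ (mapRep ι ρ) (b.map ι) := by
  obtain ⟨E', i1, i2, i3, ι, h⟩ := exists_resSympl (κ := κ) (χ := cyc) hκκ PA.isChar_cyc.odd hn
    (KR.small_full (KR.isFull_K T) hρ.cont hρ.unram) hb hρ.symm hρ.dual hres
  exact ⟨E', i1, i2, i3, ι, QG.hasL_res h⟩

open scoped Classical in
theorem main_gen5 (hK : IsQ K D s) (hc : PA.IsConj s c)
    (hκ : ∀ (σ : AbsGal K) (x : AlgebraicClosure K), κ σ x = c (σ (c x)))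
    {P₀ : Ideal (𝓞 (AlgebraicClosure K))} (hP₀ : P₀.IsPrime)
    (hP2 : (2 : 𝓞 (AlgebraicClosure K)) ∈ P₀)
    {T : Finset ℕ} (hT : ∀ l ∈ T, l.Prime ∧ l ≠ 2)
    {Q : ℕ → Ideal (𝓞 (AlgebraicClosure K))}
    (hQ : ∀ l ∈ T, (Q l).IsPrime ∧ (l : 𝓞 (AlgebraicClosure K)) ∈ Q l)
    {E : Type v} [NormedField E] [NormedAlgebra ℚ_[2] E] [FiniteDimensional ℚ_[2] E] {n : ℕ}
    (hn : Even n) {ρ : AbsGal K →* Matrix (Fin n) (Fin n) E} {b : Matrix (Fin n) (Fin n) E}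
    (hb : b.det ≠ 0) (hρ : IsDualRep (inT K T) (Parity.cyclo E) κ ρ b) (hres : ResSelfDual ρ)
    (hI : ∀ l ∈ T, GA.Inr D l → CommOn ((Q l).inertia (AbsGal K)) ρ ∨ n = 2)
    (hR : ∀ l ∈ T, l ∣ D → SemistableOn ((Q l).inertia (AbsGal K)) ρ) :
    Parity.ParityBKA (Parity.inertiaOffTwo K) (Parity.cyclo E) κ ρ b (stabD P₀)
      (∑ l ∈ T.filter (GA.Inr D), Parity.condExp ((Q l).inertia (AbsGal K)) ρ +
        ∑ l ∈ T.filter (fun l => l ∣ D),
          quotDim (stabD (Q l)) ((Q l).inertia (AbsGal K)) ρ) := by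
  obtain ⟨E', i1, i2, i3, ι, hC⟩ := exists_hasL (GA.kap_kap hc hκ) hn hb hρ hres
  have h := QG.main_gen4 (κ := κ) hK hc hκ hP₀ hP2 hT hQ (det_fin ι hb)
    (isDualRep_fin (χ := cyc) ι hρ) hC
    (fun l hl hi => (hI l hl hi).imp_left (QG.commOn_ext ι).2)
    (fun l hl hi => (ER.semi_ext ι).2 (hR l hl hi))
  refine parityBKA_fin (χ := cyc) ι ?_
  simp only [condExp_fin, quotDim_fin] at h
  exact h

end gen

open scoped Classical in
theorem finalK (K : Type u) [Field K] [NumberField K] (hK : Module.finrank ℚ K = 2) (D : ℕ)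
    (hD : Squarefree D) (hD8 : D % 8 = 7) (s : K) (hs : s ^ 2 = -(D : K))
    (P : Ideal (𝓞 (AlgebraicClosure K))) (hP : P.IsPrime)
    (hP2 : (2 : 𝓞 (AlgebraicClosure K)) ∈ P)
    (c : AlgebraicClosure K ≃+* AlgebraicClosure K) (hc : ∀ x, c (c x) = x)
    (hcs : c (algebraMap K (AlgebraicClosure K) s) = -algebraMap K (AlgebraicClosure K) s)
    (κ : AbsGal K → AbsGal K)
    (hκ : ∀ (σ : AbsGal K) (x : AlgebraicClosure K), κ σ x = c (σ (c x)))
    (T : Finset ℕ) (hT : ∀ l ∈ T, l.Prime ∧ l ≠ 2)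
    (Q : ℕ → Ideal (𝓞 (AlgebraicClosure K)))
    (hQ : ∀ l ∈ T, (Q l).IsPrime ∧ (l : 𝓞 (AlgebraicClosure K)) ∈ Q l)
    (E : Type v) [NormedField E] [NormedAlgebra ℚ_[2] E] [FiniteDimensional ℚ_[2] E] (n : ℕ)
    (hn : Even n) (ρ : AbsGal K →* Matrix (Fin n) (Fin n) E) (b : Matrix (Fin n) (Fin n) E)
    (hb : b.det ≠ 0) (hρ : IsDualRep (inT K T) (Parity.cyclo E) κ ρ b) (hres : ResSelfDual ρ)
    (hI : ∀ l ∈ T, SqMod D l ∨ CommOn ((Q l).inertia (AbsGal K)) ρ ∨ n = 2)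
    (hR : ∀ l ∈ T, l ∣ D → SemistableOn ((Q l).inertia (AbsGal K)) ρ) :
    Parity.ParityBKA (Parity.inertiaOffTwo K) (Parity.cyclo E) κ ρ b (stabD P)
      (∑ l ∈ T.filter (fun l => ¬ SqMod D l), Parity.condExp ((Q l).inertia (AbsGal K)) ρ +
        ∑ l ∈ T.filter (fun l => l ∣ D), quotDim (stabD (Q l)) ((Q l).inertia (AbsGal K)) ρ) := by
  let κ' : AbsGal K →* AbsGal K := MonoidHom.mk' κ fun g h => by
    ext x
    rw [hκ, AlgEquiv.mul_apply, AlgEquiv.mul_apply, hκ, hκ, hc]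
  have hf : T.filter (fun l => ¬ SqMod D l) = T.filter (GA.Inr D) :=
    Finset.filter_congr fun l hl => ⟨fun h => ⟨(hT l hl).1, (hT l hl).2,
      fun hlD => h (QG.sqMod_of_dvd hlD), h⟩, fun h => h.2.2.2⟩
  rw [hf]
  exact main_gen5 (κ := κ') ⟨hK, hs, hD, hD8⟩ ⟨hc, hcs⟩ hκ hP hP2 hT hQ hn hb hρ hres
    (fun l hl hli => (hI l hl).resolve_left hli.2.2.2) hR

end Pool.Agent.Work.MP_787500_nt.RB
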