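import Mathlib
import Pool.Agent.Work.MP_787500_nt.RB.ExtDefs
import Pool.Agent.Work.MP_787500_nt.RB.ExtDim
import Pool.Agent.Work.MP_787500_nt.QX.ExtG

/-!
# RB/ExtGr (size M): descent of the parity statement for Greenberg's Selmer group from a finite extension

The model is QX/ExtG (`extV`, `extV_st`, `extV_iso`, `finrank_extV`, `parityG_ext`, for `E (√l)`, pairs of coordinates); here the coordinates
are `h.co _ j`, `j : Fin d` (`exists_finExt ι`).
-/

set_option autoImplicit false
set_option linter.unusedSectionVars false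

namespace Pool.Agent.Work.MP_787500_nt.RB

open Matrix Module
open Pool.Agent.Work.MP_787500_nt.PA (toE)
open Pool.Agent.Work.MP_787500_nt.LX (mapRep mapRep_apply map_toE)
open Pool.Agent.Work.MP_787500_nt.GP (bil)

variable {E E' : Type*} [NormedField E] [NormedAlgebra ℚ_[2] E] [FiniteDimensional ℚ_[2] E]
  [NormedField E'] [NormedAlgebra ℚ_[2] E'] [FiniteDimensional ℚ_[2] E'] {ι : E →ₐ[ℚ_[2]] E'}
  {d : ℕ} {β : Fin d → E'} {n : ℕ} {G : Type*} [Group G] [TopologicalSpace G]

private theorem co_ext (h : FinExt ι β) {z w : E'} (e : ∀ j, h.co z j = h.co w j) : z = w := by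
  rw [h.co_spec z, h.co_spec w]
  exact Finset.sum_congr rfl fun j _ => by rw [e j]

private theorem co_sub (h : FinExt ι β) (z w : E') (j : Fin d) :
    h.co (z - w) j = h.co z j - h.co w j := by
  have h1 := h.co_add (z - w) w j
  rw [sub_add_cancel] at h1
  rw [h1, add_sub_cancel_right]

private theorem co_mulVec (h : FinExt ι β) (A : Matrix (Fin n) (Fin n) E) (z : Fin n → E')
    (j : Fin d) : (fun i => h.co ((A.map ι *ᵥ z) i) j) = A *ᵥ fun i => h.co (z i) j := by
  funext i
  show h.co (∑ k, (A.map ι) i k * z k) j = ∑ k, A i k * h.co (z k) j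
  rw [h.co_sum]
  exact Finset.sum_congr rfl fun k _ => h.co_smul _ _ _

private theorem co_act (h : FinExt ι β) (A : Matrix (Fin n) (Fin n) E) (x v : Fin n → E')
    (j : Fin d) : (fun i => h.co ((x - (A.map ι *ᵥ v - v)) i) j) =
      (fun i => h.co (x i) j) - (A *ᵥ (fun i => h.co (v i) j) - fun i => h.co (v i) j) := by
  rw [← co_mulVec h A v j]
  funext i
  simp only [Pi.sub_apply, co_sub h]

/-- the scalar extension of a subspace of `E ^ n`: all coordinates are in `W` -/
def FinExt.extV (h : FinExt ι β) (W : Submodule E (Fin n → E)) : Submodule E' (Fin n → E') where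
  carrier := {z | ∀ j, (fun i => h.co (z i) j) ∈ W}
  add_mem' := fun {z w} hz hw j => by
    have e : (fun i => h.co ((z + w) i) j) = (fun i => h.co (z i) j) + fun i => h.co (w i) j := by
      funext i
      exact h.co_add _ _ j
    rw [e]
    exact W.add_mem (hz j) (hw j)
  zero_mem' := fun j => by
    have e : (fun (i : Fin n) => h.co ((0 : Fin n → E') i) j) = 0 := by
      funext i
      exact h.co_zero j
    rw [e]
    exact W.zero_mem
  smul_mem' := fun c z hz j => by
    have e : (fun i => h.co ((c • z) i) j) =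
        ∑ i' : Fin d, h.co (c * β i') j • fun i => h.co (z i) i' := by
      funext i
      rw [Finset.sum_apply]
      exact h.co_mul c (z i) j
    rw [e]
    exact W.sum_mem fun i' _ => W.smul_mem _ (hz i')

theorem FinExt.finrank_extV (h : FinExt ι β) (W : Submodule E (Fin n → E)) :
    finrank E' (h.extV W) = finrank E W :=
  h.finrank_vec fun _ => Iff.rfl

theorem FinExt.extV_st (h : FinExt ι β) {A : Matrix (Fin n) (Fin n) E}
    {W : Submodule E (Fin n → E)} (hW : ∀ x ∈ W, A *ᵥ x ∈ W) :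
    ∀ x ∈ h.extV W, A.map ι *ᵥ x ∈ h.extV W := by
  intro x hx j
  rw [co_mulVec h A x j]
  exact hW _ (hx j)

theorem FinExt.extV_iso (h : FinExt ι β) {b A : Matrix (Fin n) (Fin n) E}
    {W : Submodule E (Fin n → E)} (hW : ∀ x ∈ W, ∀ y ∈ W, bil b x (A *ᵥ y) = 0) :
    ∀ x ∈ h.extV W, ∀ y ∈ h.extV W, bil (b.map ι) x (A.map ι *ᵥ y) = 0 := by
  intro x hx y hy
  obtain ⟨z, hz⟩ : ∃ z, z = b.map ι *ᵥ (A.map ι *ᵥ y) := ⟨_, rfl⟩
  have e1 : ∀ k i, h.co (z i) k = (b *ᵥ (A *ᵥ fun i => h.co (y i) k)) i := by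
    intro k i
    have h1 := congrFun (co_mulVec h b (A.map ι *ᵥ y) k) i
    rw [co_mulVec h A y k] at h1
    rw [hz]
    exact h1
  show x ⬝ᵥ (b.map ι *ᵥ (A.map ι *ᵥ y)) = 0
  rw [← hz]
  have e2 : x ⬝ᵥ z = ∑ j, ∑ k, β j * β k *
      ι (bil b (fun i => h.co (x i) j) (A *ᵥ fun i => h.co (y i) k)) := by
    have e3 : ∀ i, x i * z i = ∑ j, ∑ k, β j * β k *
        ι (h.co (x i) j * (b *ᵥ (A *ᵥ fun i => h.co (y i) k)) i) := by
      intro i
      conv_lhs => rw [h.co_spec (x i), h.co_spec (z i)]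
      rw [Finset.sum_mul_sum]
      refine Finset.sum_congr rfl fun j _ => Finset.sum_congr rfl fun k _ => ?_
      rw [e1, map_mul]
      ring
    show ∑ i, x i * z i = _
    rw [Finset.sum_congr rfl fun i _ => e3 i, Finset.sum_comm]
    refine Finset.sum_congr rfl fun j _ => ?_
    rw [Finset.sum_comm]
    refine Finset.sum_congr rfl fun k _ => ?_
    rw [← Finset.mul_sum, ← map_sum]
    rfl
  rw [e2]
  refine Finset.sum_eq_zero fun j _ => Finset.sum_eq_zero fun k _ => ?_
  rw [hW _ (hx j) _ (hy k), map_zero, mul_zero]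

private theorem cobM_iff (h : FinExt ι β) {X : Type*} (A : X → Matrix (Fin n) (Fin n) E)
    (W : Submodule E (Fin n → E)) (z : X → Fin n → E') :
    (∃ v : Fin n → E', ∀ t, z t - ((A t).map ι *ᵥ v - v) ∈ h.extV W) ↔
      ∀ j, ∃ v, ∀ t, (fun i => h.co (z t i) j) - (A t *ᵥ v - v) ∈ W := by
  constructor
  · rintro ⟨v, hv⟩ j
    refine ⟨fun i => h.co (v i) j, fun t => ?_⟩
    have h1 := hv t j
    rw [co_act h] at h1
    exact h1
  · intro hv
    choose v hv using hv
    obtain ⟨w, hw⟩ : ∃ w : Fin n → E', w = fun i => ∑ j, ι (v j i) * β j := ⟨_, rfl⟩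
    have h2 : ∀ j, (fun i => h.co (w i) j) = v j := by
      intro j
      funext i
      have h3 : w i = ∑ j, ι ((fun j => v j i) j) * β j := by rw [hw]
      exact congrFun (h.co_eq h3) j
    refine ⟨w, fun t j => ?_⟩
    rw [co_act h, h2]
    exact hv j t

private theorem cob_iff (h : FinExt ι β) {X : Type*} (A : X → Matrix (Fin n) (Fin n) E)
    (z : X → Fin n → E') : (∃ v : Fin n → E', ∀ t, z t = (A t).map ι *ᵥ v - v) ↔
      ∀ j, ∃ v, ∀ t, (fun i => h.co (z t i) j) = A t *ᵥ v - v := by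
  have h1 := cobM_iff h A ⊥ z
  have h2 : ∀ z : Fin n → E', z ∈ h.extV (⊥ : Submodule E (Fin n → E)) ↔ z = 0 := by
    intro z
    constructor
    · intro hz
      funext i
      refine co_ext h fun j => ?_
      rw [Pi.zero_apply, h.co_zero]
      exact congrFun ((Submodule.mem_bot E).1 (hz j)) i
    · rintro rfl
      exact Submodule.zero_mem _
  simp only [h2, Submodule.mem_bot, sub_eq_zero] at h1
  exact h1

private theorem coc_iff (h : FinExt ι β) (A : G → Matrix (Fin n) (Fin n) E) (z : G → Fin n → E') :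
    Parity.IsCocycle (fun t => (A t).map ι) z ↔
      ∀ j, Parity.IsCocycle A (fun t i => h.co (z t i) j) := by
  constructor
  · rintro ⟨hc, hz⟩ j
    refine ⟨continuous_pi fun i => (h.cont j).comp ((continuous_apply i).comp hc), fun s t => ?_⟩
    rw [← co_mulVec h (A s) (z t) j]
    funext i
    show h.co (z (s * t) i) j = h.co (z s i) j + h.co (((A s).map ι *ᵥ z t) i) j
    rw [hz s t]
    exact h.co_add _ _ _
  · intro hz
    have hι : Continuous ι := ι.toLinearMap.continuous_of_finiteDimensional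
    refine ⟨continuous_pi fun i => ?_, fun s t => ?_⟩
    · have e1 : (fun t => z t i) = fun t => ∑ j, ι (h.co (z t i) j) * β j :=
        funext fun t => h.co_spec _
      rw [e1]
      exact continuous_finsetSum _ fun j _ =>
        (hι.comp ((continuous_apply i).comp (hz j).1)).mul continuous_const
    · funext i
      refine co_ext h fun j => ?_
      have h1 := congrFun ((hz j).2 s t) i
      rw [← co_mulVec h (A s) (z t) j] at h1
      rw [Pi.add_apply, h.co_add]
      exact h1

/-- THE DESCENT. -/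
theorem parityG_fin (h : FinExt ι β) {N : Set (Subgroup G)}
    {ρ : G →* Matrix (Fin n) (Fin n) E} {D : Subgroup G} {W : Submodule E (Fin n → E)} {a : ℕ}
    (hp : Parity.ParityGreenberg N (mapRep ι ρ) D (h.extV W) a) :
    Parity.ParityGreenberg N ρ D W a := by
  have c3 : Parity.coboundaries (mapRep ι ρ) = h.ext (Parity.coboundaries ρ) := by
    ext z
    exact cob_iff h (fun σ : G => ρ σ) z
  have c4 : Parity.selmerGreenberg N (mapRep ι ρ) D (h.extV W) =
      h.ext (Parity.selmerGreenberg N ρ D W) := by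
    ext z
    have d1 := coc_iff h (fun σ : G => ρ σ) z
    have d2 : (∃ v : Fin n → E', ∀ σ ∈ D, z σ - (mapRep ι ρ σ *ᵥ v - v) ∈ h.extV W) ↔
        ∀ j, ∃ v, ∀ σ ∈ D, (fun i => h.co (z σ i) j) - (ρ σ *ᵥ v - v) ∈ W := by
      have h1 := cobM_iff h (fun σ : D => ρ σ) W (fun σ : D => z σ)
      simp only [Subtype.forall] at h1
      exact h1
    have d4 : ∀ I : Subgroup G, (∃ v : Fin n → E', ∀ σ ∈ I, z σ = mapRep ι ρ σ *ᵥ v - v) ↔
        ∀ j, ∃ v : Fin n → E, ∀ σ ∈ I, (fun i => h.co (z σ i) j) = ρ σ *ᵥ v - v := by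
      intro I
      have h1 := cob_iff h (fun σ : I => ρ σ) (fun σ : I => z σ)
      simp only [Subtype.forall] at h1
      exact h1
    constructor
    · rintro ⟨h1, h2, h3⟩ j
      exact ⟨d1.1 h1 j, fun I hI => (d4 I).1 (h2 I hI) j, d2.1 h3 j⟩
    · intro hz
      exact ⟨d1.2 fun j => (hz j).1, fun I hI => (d4 I).2 fun j => (hz j).2.1 I hI,
        d2.2 fun j => (hz j).2.2⟩
  have c5 : Module.finrank E' (Parity.fixedBy fun σ : G => mapRep ι ρ σ) =
      Module.finrank E (Parity.fixedBy fun σ : G => ρ σ) := by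
    refine h.finrank_vec fun z => ⟨fun hz j σ => ?_, fun hz σ => ?_⟩
    · have h1 : mapRep ι ρ σ *ᵥ z = z := hz σ
      have h2 := co_mulVec h (ρ σ) z j
      rw [mapRep_apply] at h1
      rw [h1] at h2
      exact h2.symm
    · show (ρ σ).map ι *ᵥ z = z
      funext i
      refine co_ext h fun j => ?_
      have h1 : ρ σ *ᵥ (fun i => h.co (z i) j) = fun i => h.co (z i) j := hz j σ
      exact congrFun ((co_mulVec h (ρ σ) z j).trans h1) i
  have c6 : Module.finrank E' (Parity.fixedModulo (fun σ : D => mapRep ι ρ σ) (h.extV W)) =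
      Module.finrank E (Parity.fixedModulo (fun σ : D => ρ σ) W) := by
    have key : ∀ (z : Fin n → E') (σ : D) (j : Fin d),
        (fun i => h.co ((mapRep ι ρ σ *ᵥ z - z) i) j) =
        ρ σ *ᵥ (fun i => h.co (z i) j) - fun i => h.co (z i) j := by
      intro z σ j
      rw [← co_mulVec h (ρ σ) z j]
      funext i
      exact co_sub h _ _ _
    refine h.finrank_vec fun z => ⟨fun hz j σ => ?_, fun hz σ j => ?_⟩
    · have h1 := hz σ j
      rw [key] at h1
      exact h1
    · rw [key]
      exact hz j σ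
  obtain ⟨e2, e3, e4⟩ := hp
  rw [c4] at e2 e3 e4
  rw [c3] at e3 e4
  have f2 : FiniteDimensional E (Parity.selmerGreenberg N ρ D W) := (h.ext_fin _).1 e2
  have f3 : Parity.coboundaries ρ ≤ Parity.selmerGreenberg N ρ D W := by
    intro x hx
    have hne : ∃ j : Fin d, True := by
      by_contra hcon
      have h1 : ∀ z : E', z = 0 := fun z => co_ext h fun j => (hcon ⟨j, trivial⟩).elim
      exact one_ne_zero (h1 1)
    obtain ⟨j, -⟩ := hne
    have h1 := (h.ext_iff _ fun _ => x).1 (e3 ((h.ext_iff _ fun _ => x).2 fun _ => hx))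
    exact h1 j
  refine ⟨f2, f3, ?_⟩
  rw [h.ext_dim f3, c5, c6, h.finrank_extV] at e4
  exact e4

end Pool.Agent.Work.MP_787500_nt.RB
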